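import Pool.Agent.H81.PLN.Cel

/-!
# Lemma PLANE: (L1) in a class
-/

set_option autoImplicit false

namespace Pool.PLN

open Finset Real MvPolynomial Pool.JMN Pool.JMS
open Pool.Agent.H49.Ent Pool.Agent.H32.Dense Pool.STK Pool.KA Pool.KSAT Pool.K2S Pool.PB Pool.STAT
  Pool.GEN Pool.S6C Pool.M3F Pool.CLO37 Pool.KAF Pool.KS3 Pool.EXS Pool.IEN Pool.KJA
open Pool.KAL (Psi)

/-- **(L1)** for a member. -/
theorem lr_fam (D K : ℕ) : ∃ C : ℝ, 1 ≤ C ∧ ∀ {m J : ℕ} {N : Nums} {φ : ℝ}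
    {F : Fam m J} {c : ℕ → Fin m} {A : F.Ω → Prop} (d : Dat N φ K F c A), d.Nms →
    IsLaw (pA F A) → 0 < Pe F.p A → ⌊N.w1 * J⌋₊ ≤ d.g' 2 → ∀ {q n : ℕ} {μ e₁ h H : ℝ},
    MxC n μ (pA F A) (slam F ⌊N.w1 * J⌋₊) (K2S.Fam.pt F)
      (fun _ => ∑ i, Real.log (ngw ⌊N.w1 * J⌋₊ (d.g' 2) d.g' (2 + 1) i))
      (fun ξ => ybw c 2 ⌊N.w1 * J⌋₊ (d.g' 2) d.g' (d.P (d.z ξ)) ξ) → 0 ≤ μ →
    Real.log ((2 ^ (d.g' 2 - ⌊N.w1 * J⌋₊) : ℕ) : ℝ) -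
      CH (pA F A) (fun ω => tdg ⌊N.w1 * J⌋₊ (d.g' 2) (K2S.Fam.pt F ω)) (slam F ⌊N.w1 * J⌋₊) ≤ e₁ →
    0 ≤ e₁ → 0 < h → C * Real.exp h ≤ H →
    Pe (pA F A) (fun ω => ¬ d.Lr D q H ω) ≤
      (2 * D * CH (pA F A) (d.cel q) (fun ω => d.z (K2S.Fam.pt F ω)) +
        C * ((n + 1) * (e₁ + 1) + μ)) / h := by
  classical
  obtain ⟨C, hC, hlr⟩ := lr_code (Option (Fin (2 + 1))) (2 + 1) D ((K + 1) ^ (2 + 1 + 1) + 1)
  refine ⟨C, hC, ?_⟩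
  intro m J N φ F c A d hN hP hA hW q n μ e₁ h H hmx hμ he he0 hh hCH
  have hcl := cleaf_w (P₀ := d.g' 2) (kap := d.kap) d.lab d.L0 hA d.top hW le_rfl
    (fun i hi => ⟨d.win i hi, d.wid_le hW hi⟩)
  have h1 := hlr (clC 2 d.kap d.L) F.Ω (LnT F) (PtT F) d.V (ℤ × ℤ × ℤ) (pA F A)
    (slam F ⌊N.w1 * J⌋₊) (K2S.Fam.pt F) (tdg ⌊N.w1 * J⌋₊ (d.g' 2)) _ _ _ d.z d.z' _ _ _
    (2 ^ (d.g' 2 - ⌊N.w1 * J⌋₊)) n μ e₁ h (d.cel q) (by have := clC_ge (r := 2) (kap := d.kap) d.L0; linarith)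
    Nat.one_le_two_pow hP hcl hmx hμ he he0 hh
  rw [ms_pe] at h1
  refine (pe_mono hP.nonneg fun ω hω hnot hgood => hnot ?_).trans h1
  intro Q hQ b hb
  obtain ⟨u, hu, hue⟩ := d.lf_chart hW (d.κ ω) hb
  have h2 := hgood Q hQ u hu
  have h3 : Psi Q d.h0 (d.lf (d.κ ω) b) ≤ C * (Real.exp h *
      mx (fun ω' => 0 < pA F A ω' ∧ d.z (K2S.Fam.pt F ω') = d.z (K2S.Fam.pt F ω) ∧
        d.cel q ω' = d.cel q ω) (fun ω' => Psi Q d.h0 (d.zs ω'))) := by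
    rw [← hue]
    exact h2
  refine h3.trans ?_
  have hne : Nonempty F.Ω := ⟨ω⟩
  have h4 : mx (fun ω' => 0 < pA F A ω' ∧ d.z (K2S.Fam.pt F ω') = d.z (K2S.Fam.pt F ω) ∧
        d.cel q ω' = d.cel q ω) (fun ω' => Psi Q d.h0 (d.zs ω')) ≤
      mx (fun ω' => A ω' ∧ 0 < F.p ω' ∧ d.κ ω' = d.κ ω ∧
        d.cel q ω' = d.cel q ω) (fun ω' => Psi Q d.h0 (d.zs ω')) := by
    refine mx_le (mx_nonneg fun _ => KAL.Psi_nonneg _ _ _) fun ω' hω' => ?_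
    obtain ⟨a1, a2, a3⟩ := hω'
    obtain ⟨a4, a5⟩ := Dat.pA_pos a1
    exact le_mx (P := fun ω' => A ω' ∧ 0 < F.p ω' ∧ d.κ ω' = d.κ ω ∧
        d.cel q ω' = d.cel q ω) (f := fun ω' => Psi Q d.h0 (d.zs ω')) ⟨a4, a5, a2, a3⟩
  have h5 : 0 ≤ mx (fun ω' => A ω' ∧ 0 < F.p ω' ∧ d.κ ω' = d.κ ω ∧
        d.cel q ω' = d.cel q ω) (fun ω' => Psi Q d.h0 (d.zs ω')) :=
    mx_nonneg fun _ => KAL.Psi_nonneg _ _ _
  have h6 := Real.exp_pos h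
  calc _ ≤ C * (Real.exp h * mx (fun ω' => A ω' ∧ 0 < F.p ω' ∧ d.κ ω' = d.κ ω ∧
        d.cel q ω' = d.cel q ω) (fun ω' => Psi Q d.h0 (d.zs ω'))) :=
        mul_le_mul_of_nonneg_left (mul_le_mul_of_nonneg_left h4 h6.le) (by linarith)
    _ = (C * Real.exp h) * _ := by ring
    _ ≤ _ := mul_le_mul_of_nonneg_right hCH h5

/-- **(L1) in a class.** -/
theorem lrS {m : ℕ} {S : PCl m}
    (hmem : ∀ (τ : ℝ) (J : ℕ) (F : Fam m J) (A : F.Ω → Prop), S.St τ J F A →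
      F.Tr ∧ F.Tm (τ * J) ∧ F.Rb (τ * J) ∧ Real.exp (-(τ * J)) ≤ Pe F.p A)
    {c : ℕ → Fin m} {N : Nums} {K D : ℕ} {q h c₀ : ℝ} (h0 : 0 ≤ N.w0) (h01 : N.w0 ≤ N.w1)
    (h1 : N.w1 < 1) (hg0 : N.g 0 < 1) (hg1 : N.g 1 < 1) (hg2 : N.w1 < N.g 2)
    (hg01 : N.g0 1 < 1)
    (hex : ∀ ρ : ℝ, 0 < ρ →
      ExvY S N.w1 (fun J F ω (i : Fin 2) => F.X J ω (c i)) (∑ l ∈ range 2, (1 - N.g l) - ρ))
    (hq : 0 < q) (hc₀ : 0 < c₀) (hh : (12 * D + 12) * q / c₀ ≤ h) : LrS S c N K D q h c₀ := by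
  classical
  obtain ⟨C, hC, hlr⟩ := lr_fam D K
  have hC0 : 0 < C := by linarith
  have hlog : 0 < Real.log 2 := Real.log_pos one_lt_two
  have hD0 : (0 : ℝ) ≤ D := Nat.cast_nonneg D
  have hh0 : 0 < h := lt_of_lt_of_le (by positivity) hh
  obtain ⟨ql, hql⟩ : ∃ ql : ℝ, ql = q * Real.log 2 := ⟨_, rfl⟩
  have hql0 : 0 < ql := by
    rw [hql]
    positivity
  obtain ⟨δ₁, hδ₁⟩ : ∃ δ₁ : ℝ, δ₁ = ql / C := ⟨_, rfl⟩
  have hδ₁0 : 0 < δ₁ := by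
    rw [hδ₁]
    positivity
  obtain ⟨N₀, φ₁, hφ₁, τ₁, hτ₁, J₁, H₁⟩ := mxc_w 2 hmem (h0.trans h01) h1.le hex hδ₁0
  obtain ⟨δ₂, hδ₂⟩ : ∃ δ₂ : ℝ, δ₂ = ql / (C * (N₀ + 1)) := ⟨_, rfl⟩
  have hδ₂0 : 0 < δ₂ := by
    rw [hδ₂]
    positivity
  obtain ⟨τ₂, hτ₂, J₂, H₂⟩ := tdg_w hmem N.w1 hδ₂0
  obtain ⟨φ₃, hφ₃, J₃, H₃⟩ := nms_cls (m := m) h0 h01 h1 hg0 hg1
  obtain ⟨J₄, H₄⟩ := const_le_ex C (show 0 < h / 2 by linarith)
  obtain ⟨J₅, H₅⟩ := const_le_ex 2 (show 0 < (1 - N.g0 1) / 2 by linarith)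
  obtain ⟨J₆, H₆⟩ := exists_nat_gt ((6 * D * Real.log 21 + C * (N₀ + 1)) / ql)
  obtain ⟨φ, hφe⟩ : ∃ φ, φ = min (min φ₁ φ₃) (min (min ((N.g 2 - N.w1)) ((1 - N.g0 1) / 6))
      (ql / (12 * (D + 1)))) := ⟨_, rfl⟩
  have hφ : 0 < φ := by
    rw [hφe]
    exact lt_min (lt_min hφ₁ hφ₃) (lt_min (lt_min (by linarith) (by linarith)) (by positivity))
  have p₁ : φ ≤ φ₁ := hφe ▸ (min_le_left _ _).trans (min_le_left _ _)
  have p₃ : φ ≤ φ₃ := hφe ▸ (min_le_left _ _).trans (min_le_right _ _)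
  have p₄ : φ ≤ N.g 2 - N.w1 :=
    hφe ▸ (min_le_right _ _).trans ((min_le_left _ _).trans (min_le_left _ _))
  have p₅ : φ ≤ (1 - N.g0 1) / 6 :=
    hφe ▸ (min_le_right _ _).trans ((min_le_left _ _).trans (min_le_right _ _))
  have p₆ : φ ≤ ql / (12 * (D + 1)) := hφe ▸ (min_le_right _ _).trans (min_le_right _ _)
  refine ⟨φ, hφ, min τ₁ τ₂, lt_min hτ₁ hτ₂, J₁ + J₂ + J₃ + J₄ + J₅ + J₆ + 1, ?_⟩
  intro J hJ F A hS d
  have K₄ := H₄ J (by omega)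
  have K₅ := H₅ J (by omega)
  have j₆ : J₆ ≤ J := by omega
  have hJ0 : (0 : ℝ) < J := by
    have : 0 < J := by omega
    exact_mod_cast this
  obtain ⟨hTr, hTm, hRb, hPe⟩ := hmem _ J F A hS
  have hA : 0 < Pe F.p A := lt_of_lt_of_le (Real.exp_pos _) hPe
  have hpl : IsLaw (pA F A) := isLaw_cond F.isLaw hA
  have hN : d.Nms := H₃ φ hφ p₃ J (by omega) d
  have hW : ⌊N.w1 * J⌋₊ ≤ d.g' 2 := by
    have a1 := (abs_le.1 (d.num 2 le_rfl)).1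
    have a2 := Nat.floor_le (mul_nonneg (h0.trans h01) hJ0.le)
    have a3 : φ * J ≤ (N.g 2 - N.w1) * J := mul_le_mul_of_nonneg_right p₄ hJ0.le
    have a4 : (⌊N.w1 * J⌋₊ : ℝ) ≤ d.g' 2 := by linarith
    exact_mod_cast a4
  obtain ⟨n, hn, hmx⟩ := H₁ J (by omega) F A (S.mono (min_le_left _ _) hS) (d.g' 2) d.g' d.sg K
    d.L d.V d.z d.z' d.P (fun l hl => by
      have a1 := (abs_le.1 (d.num l hl.le)).1
      have a3 : φ * J ≤ φ₁ * J := mul_le_mul_of_nonneg_right p₁ hJ0.le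
      linarith) (fun i hi => d.wid_le hW hi) d.top d.lab
  have htd := H₂ J (by omega) F A (S.mono (min_le_right _ _) hS) (d.g' 2) hW d.top
  obtain ⟨hd, hhd⟩ : ∃ hd : ℝ, hd = h / 2 * Real.log 2 * J := ⟨_, rfl⟩
  have hhd0 : 0 < hd := by
    rw [hhd]
    positivity
  have hexp : Real.exp hd = ex (-(h / 2)) J := by
    rw [hhd]
    unfold ex
    congr 1
    ring
  have a1 : C * Real.exp hd ≤ ex (-h) J := by
    rw [hexp]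
    exact mul_ex_le (K₄.trans (ex_le (by linarith) J))
  refine (hlr d hN hpl hA hW (q := ⌊q * J⌋₊) hmx (by positivity) htd (by positivity) hhd0
    a1).trans ?_
  have hcel := d.cel_ch hN hpl ⌊q * J⌋₊ (fun ω hω => by
    have b1 : |d.pl ω 2| ≤ Real.exp (φ * J) := d.siz0 ω hω 2
    have b2 := exp_le_ex hφ.le J
    have b3 := one_le_ex (show -(2 * φ) ≤ 0 by linarith) J
    have b4 := (abs_le.1 d.numz).2
    have b5 : (2 : ℝ) ^ d.G0 ≤ ex (-(N.g0 1 + φ)) J := two_le_ex (by linarith)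
    have p := ex_pos (-(2 * φ)) J
    calc (1 + |d.pl ω 2|) * 2 ^ d.G0 ≤ (2 * ex (-(2 * φ)) J) * ex (-(N.g0 1 + φ)) J :=
          mul_le_mul (by linarith) b5 (by positivity) (by positivity)
      _ = 2 * ex (-(N.g0 1 + 3 * φ)) J := by
          rw [show -(N.g0 1 + 3 * φ) = -(2 * φ) + -(N.g0 1 + φ) by ring, ex_add]
          ring
      _ ≤ ex (-1) J := mul_ex_le (K₅.trans (ex_le (by linarith) J))
      _ = 2 ^ J := ex_neg_one J)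
  rw [div_le_iff₀ hhd0]
  obtain ⟨X, hX⟩ : ∃ X, X = CH (pA F A) (d.cel ⌊q * J⌋₊) (fun ω => d.z (K2S.Fam.pt F ω)) :=
    ⟨_, rfl⟩
  rw [← hX] at hcel ⊢
  have b1 : (⌊q * J⌋₊ : ℝ) * Real.log 2 ≤ ql * J := by
    have := Nat.floor_le (mul_nonneg hq.le hJ0.le)
    rw [hql]
    nlinarith
  have b2 : d.kap * Real.log 2 ≤ φ * J := by
    have b3 : Real.log 2 ≤ 1 := by
      have := Real.log_two_lt_d9
      linarith
    have b4 : (d.kap : ℝ) * Real.log 2 ≤ d.kap * 1 :=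
      mul_le_mul_of_nonneg_left b3 (Nat.cast_nonneg _)
    have := d.kapφ
    linarith
  have b3 := d.L1
  have b4 : X ≤ 3 * (ql * J + Real.log 21 + 2 * (φ * J)) := by
    refine hcel.trans (mul_le_mul_of_nonneg_left ?_ (by norm_num))
    linarith
  have b5 : 12 * (D * (φ * J)) ≤ ql * J := by
    have c1 : φ * (12 * ((D : ℝ) + 1)) ≤ ql := by
      rwa [le_div_iff₀ (by positivity)] at p₆
    have c2 : 12 * (D * φ) ≤ ql := by linarith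
    nlinarith [mul_le_mul_of_nonneg_right c2 hJ0.le]
  have b6 : C * (((n : ℝ) + 1) * (δ₂ * J + 1) + δ₁ * J) ≤
      ql * J + C * (N₀ + 1) + ql * J := by
    have c1 : (n : ℝ) ≤ N₀ := by exact_mod_cast hn
    have c2 : C * (δ₁ * J) = ql * J := by
      rw [hδ₁]
      field_simp
    have c3 : C * (((N₀ : ℝ) + 1) * (δ₂ * J)) = ql * J := by
      rw [hδ₂]
      field_simp
    have c4 : ((n : ℝ) + 1) * (δ₂ * J + 1) ≤ ((N₀ : ℝ) + 1) * (δ₂ * J + 1) :=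
      mul_le_mul_of_nonneg_right (by linarith) (by positivity)
    have c5 := mul_le_mul_of_nonneg_left c4 hC0.le
    linarith
  have b7 : 6 * D * Real.log 21 + C * (N₀ + 1) ≤ ql * J := by
    have c1 : (J₆ : ℝ) ≤ J := by exact_mod_cast j₆
    have c2 := H₆.trans_le c1
    rw [div_lt_iff₀ hql0] at c2
    linarith
  have b8 : 2 * (D : ℝ) * X ≤ 6 * D * (ql * J) + 6 * D * Real.log 21 + 12 * (D * (φ * J)) := by
    have := mul_le_mul_of_nonneg_left b4 (show (0 : ℝ) ≤ 2 * D by positivity)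
    linarith
  have b9 : (6 * (D : ℝ) + 6) * (ql * J) ≤ c₀ * hd := by
    rw [div_le_iff₀ hc₀] at hh
    rw [hhd, hql]
    have c1 := mul_le_mul_of_nonneg_right hh (show 0 ≤ Real.log 2 * J / 2 by positivity)
    linarith
  have b10 : 0 ≤ ql * J := by positivity
  linarith

end Pool.PLN
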