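import Pool.Agent.H81.PLN.Dt2
import Pool.Agent.H1.PLN.Ccl

/-!
# Lemma PLANE: (POLY) in a class
-/

set_option autoImplicit false

namespace Pool.PLN

open Finset Real MvPolynomial Pool.JMN Pool.JMS
open Pool.Agent.H49.Ent Pool.Agent.H32.Dense Pool.STK Pool.KA Pool.KSAT Pool.K2S Pool.PB Pool.STAT
  Pool.GEN Pool.S6C Pool.M3F Pool.CLO37 Pool.KAF Pool.KS3 Pool.EXS
open Pool.KAL (Psi)

/-! ### Exponents -/

theorem two_le_ex {k : ℕ} {x : ℝ} {J : ℕ} (h : (k : ℝ) ≤ x * J) : (2 : ℝ) ^ k ≤ ex (-x) J := by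
  have h1 := ex_two_pow k J h
  rw [ex_neg]
  have h2 := ex_pos x J
  rw [le_inv_comm₀ (by positivity) h2]
  rwa [one_div] at h1

theorem ex_le_two {k : ℕ} {x : ℝ} {J : ℕ} (h : x * J ≤ k) : ex (-x) J ≤ (2 : ℝ) ^ k := by
  unfold ex
  rw [show (2 : ℝ) ^ k = Real.exp (Real.log 2 * k) by
    rw [mul_comm, Real.exp_nat_mul, Real.exp_log two_pos]]
  refine Real.exp_le_exp.2 ?_
  have h1 := mul_le_mul_of_nonneg_left h (Real.log_nonneg one_le_two)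
  linarith

theorem ex_neg_one (J : ℕ) : ex (-1) J = (2 : ℝ) ^ J :=
  le_antisymm (ex_le_two (by rw [one_mul])) (two_le_ex (by rw [one_mul]))

theorem exp_le_ex {φ : ℝ} (hφ : 0 ≤ φ) (J : ℕ) : Real.exp (φ * J) ≤ ex (-(2 * φ)) J := by
  unfold ex
  refine Real.exp_le_exp.2 ?_
  have h1 : 1 / 2 ≤ Real.log 2 := by
    have := Real.log_two_gt_d9
    linarith
  have h2 : (0 : ℝ) ≤ J := Nat.cast_nonneg J
  have h3 : φ ≤ 2 * φ * Real.log 2 := by nlinarith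
  nlinarith [mul_le_mul_of_nonneg_right h3 h2]

/-- A constant is smaller than the quotient of two exponents. -/
theorem mul_ex_le {C x y : ℝ} {J : ℕ} (h : C ≤ ex (-(x - y)) J) : C * ex x J ≤ ex y J := by
  have h1 := mul_le_mul_of_nonneg_right h (ex_pos x J).le
  rw [← ex_add] at h1
  have e : -(x - y) + x = y := by ring
  rwa [e] at h1

theorem floor_le_ex {x : ℝ} (h : 0 ≤ x) (J : ℕ) : (2 : ℝ) ^ ⌊x * J⌋₊ ≤ ex (-x) J :=
  two_le_ex (Nat.floor_le (mul_nonneg h (Nat.cast_nonneg J)))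

theorem ex_le_floor (x : ℝ) (J : ℕ) : ex (-x) J ≤ 2 * (2 : ℝ) ^ ⌊x * J⌋₊ := by
  have h1 := floor_ex x J
  have h2 := ex_pos x J
  have h3 : (0 : ℝ) < 2 ^ ⌊x * J⌋₊ := by positivity
  rw [ex_neg, inv_eq_one_div, div_le_iff₀ h2]
  rw [div_le_iff₀ h3] at h1
  linarith

variable {m : ℕ}

/-- The numbers of a member of a class. -/
theorem nms_cls {N : Nums} (h0 : 0 ≤ N.w0) (h01 : N.w0 ≤ N.w1) (h1 : N.w1 < 1) (hg0 : N.g 0 < 1)
    (hg1 : N.g 1 < 1) : ∃ φ₀ : ℝ, 0 < φ₀ ∧ ∃ J₀ : ℕ, ∀ φ : ℝ, 0 < φ → φ ≤ φ₀ → ∀ J ≥ J₀,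
    ∀ {K : ℕ} {F : Fam m J} {c : ℕ → Fin m} {A : F.Ω → Prop} (d : Dat N φ K F c A), d.Nms := by
  obtain ⟨γ, hγ⟩ : ∃ γ : ℝ, γ = max N.w1 (max (N.g 0) (N.g 1)) := ⟨_, rfl⟩
  have hγ1 : γ < 1 := by
    rw [hγ]
    exact max_lt h1 (max_lt hg0 hg1)
  have g0 : N.w1 ≤ γ := hγ ▸ le_max_left _ _
  have g1 : N.g 0 ≤ γ := hγ ▸ (le_max_left _ _).trans (le_max_right _ _)
  have g2 : N.g 1 ≤ γ := hγ ▸ (le_max_right _ _).trans (le_max_right _ _)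
  obtain ⟨J₀, hJ₀⟩ := const_le_ex 6 (show 0 < (1 - γ) / 2 by linarith)
  refine ⟨(1 - γ) / 6, by linarith, J₀, ?_⟩
  intro φ hφ0 hφ J hJ K F c A d
  have hJ0 : (0 : ℝ) ≤ J := Nat.cast_nonneg J
  refine ⟨Nat.floor_mono (mul_le_mul_of_nonneg_right h01 hJ0), ?_, ?_⟩
  · have h2 : N.w1 * J ≤ J := by nlinarith
    have h3 := Nat.floor_mono h2
    rwa [Nat.floor_natCast] at h3
  · intro i hi
    have hw : (wid ⌊N.w1 * J⌋₊ d.g' i : ℝ) ≤ (γ + φ) * J := by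
      have hφJ : 0 ≤ φ * J := by positivity
      interval_cases i
      · have e1 : wid ⌊N.w1 * J⌋₊ d.g' 0 = ⌊N.w1 * J⌋₊ := rfl
        rw [e1]
        refine (Nat.floor_le (mul_nonneg (h0.trans h01) hJ0)).trans ?_
        nlinarith [mul_le_mul_of_nonneg_right g0 hJ0]
      · have e1 : wid ⌊N.w1 * J⌋₊ d.g' 1 = d.g' 0 := rfl
        rw [e1]
        have := (abs_le.1 (d.num 0 (by norm_num))).2
        nlinarith [mul_le_mul_of_nonneg_right g1 hJ0]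
      · have e1 : wid ⌊N.w1 * J⌋₊ d.g' 2 = d.g' 1 := rfl
        rw [e1]
        have := (abs_le.1 (d.num 1 (by norm_num))).2
        nlinarith [mul_le_mul_of_nonneg_right g2 hJ0]
    have h3 := two_le_ex hw
    have hL := d.L0
    have h4 : 1 + d.L ≤ ex (-(2 * φ)) J := by
      refine le_trans ?_ (exp_le_ex hφ0.le J)
      rw [← Real.log_le_iff_le_exp (by linarith)]
      exact d.L1
    have h5 := hJ₀ J hJ
    have p := ex_pos (-(2 * φ)) J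
    calc (1 + 3 * d.L) * (2 * 2 ^ wid ⌊N.w1 * J⌋₊ d.g' i) ≤
          (3 * ex (-(2 * φ)) J) * (2 * ex (-(γ + φ)) J) :=
          mul_le_mul (by linarith) (by linarith) (by positivity) (by positivity)
      _ = 6 * ex (-(γ + 3 * φ)) J := by
          rw [show -(γ + 3 * φ) = -(2 * φ) + -(γ + φ) by ring, ex_add]
          ring
      _ ≤ ex (-1) J := by
          refine mul_ex_le (h5.trans (ex_le ?_ J))
          linarith
      _ = 2 ^ J := ex_neg_one J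

theorem Dmt.up {k K : ℕ} {H H' lam : ℝ} {f : MvPolynomial (Fin (k + 1)) ℝ} {s₀ : ℝ}
    (h : Dmt K H lam f s₀) (hH : H ≤ H') : Dmt K H' lam f s₀ :=
  fun a x hx => (h a x hx).trans (mul_le_mul_of_nonneg_right hH (abs_nonneg _))

/-- **(POLY) in a class.** -/
theorem polS {S : PCl m}
    (hmem : ∀ (τ : ℝ) (J : ℕ) (F : Fam m J) (A : F.Ω → Prop), S.St τ J F A →
      F.Tr ∧ F.Tm (τ * J) ∧ F.Rb (τ * J) ∧ Real.exp (-(τ * J)) ≤ Pe F.p A)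
    {c : ℕ → Fin m} {N : Nums} {K D K' n : ℕ} {lam lam₀ q h b he c₀ : ℝ}
    (h0 : 0 ≤ N.w0) (h01 : N.w0 ≤ N.w1) (h1 : N.w1 < 1) (hg0 : N.g 0 < 1) (hg1 : N.g 1 < 1)
    (hq : 0 ≤ q) (hwq : N.w0 + q ≤ 1) (hgq : N.g0 1 + q < 1) (hK : (K + 1) * D ≤ K')
    (hl1 : N.w1 - N.w0 < lam) (hl0 : lam₀ < lam) (hb : 0 < b) (hh : 0 ≤ h) (hhe : h + b < he)
    (hc₀ : 0 < c₀) (hBox : ∀ c₁ : ℝ, 0 < c₁ → BoxS S c N K lam₀ c₁)
    (hEz : ∀ c₁ : ℝ, 0 < c₁ → EzS S c N K (b / 16) c₁)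
    (hLr : ∀ c₁ : ℝ, 0 < c₁ → ∃ q₀ : ℝ, LrS S c N K D q₀ (b / 16) c₁) :
    PolS S c N K D K' n lam q h b he c₀ := by
  classical
  obtain ⟨C₁, hC₁, hdet⟩ := pol_det D K'
  obtain ⟨C₂, hC₂, hdmt⟩ := dmt_fam D K'
  have hDK : D ≤ K' := le_trans (Nat.le_mul_of_pos_left D (Nat.succ_pos K)) hK
  have hn0 : (1 : ℝ) ≤ (n : ℝ) + 1 := by
    have : (0 : ℝ) ≤ n := Nat.cast_nonneg n
    linarith
  obtain ⟨c₁, hc₁e⟩ : ∃ c₁ : ℝ, c₁ = c₀ / (4 * ((n : ℝ) + 1) ^ 2) := ⟨_, rfl⟩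
  have hc₁ : 0 < c₁ := by
    rw [hc₁e]
    positivity
  obtain ⟨q₀, hLr0⟩ := hLr c₁ hc₁
  obtain ⟨φ₁, hφ₁, τ₁, hτ₁, J₁, H₁⟩ := hBox c₁ hc₁
  obtain ⟨φ₂, hφ₂, τ₂, hτ₂, J₂, H₂⟩ := hEz c₁ hc₁
  obtain ⟨φ₃, hφ₃, τ₃, hτ₃, J₃, H₃⟩ := hLr0
  obtain ⟨φ₄, hφ₄, J₄, H₄⟩ := nms_cls (m := m) h0 h01 h1 hg0 hg1
  obtain ⟨β, hβ⟩ : ∃ β : ℝ, β = min (b / 2) ((1 - N.w1) / 2) := ⟨_, rfl⟩
  have hβ0 : 0 < β := by
    rw [hβ]
    exact lt_min (by linarith) (by linarith)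
  have hβ1 : β ≤ b / 2 := hβ ▸ min_le_left _ _
  have hβ2 : β ≤ (1 - N.w1) / 2 := hβ ▸ min_le_right _ _
  have hlog : 0 < Real.log 2 := Real.log_pos one_lt_two
  obtain ⟨δ, hδe⟩ : ∃ δ : ℝ, δ = c₁ * (β * Real.log 2) / (2 * C₂) := ⟨_, rfl⟩
  have hC₂0 : 0 < C₂ := by linarith
  have hδ : 0 < δ := by
    rw [hδe]
    positivity
  obtain ⟨τ₅, hτ₅, J₅, H₅⟩ := tdg_w hmem N.w1 hδ
  -- the constants
  obtain ⟨J₆, H₆⟩ := const_le_ex 8 (show 0 < lam - lam₀ by linarith)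
  obtain ⟨J₇, H₇⟩ := const_le_ex 2 (show 0 < lam - (N.w1 - N.w0) by linarith)
  obtain ⟨J₈, H₈⟩ := const_le_ex 32 hb
  obtain ⟨J₉, H₉⟩ := const_le_ex C₁ (show 0 < b / 16 by linarith)
  obtain ⟨J₁₀, H₁₀⟩ := const_le_ex 16 (show 0 < 7 * b / 8 by linarith)
  obtain ⟨J₁₁, H₁₁⟩ := const_le_ex C₂ (show 0 < b / 2 by linarith)
  obtain ⟨J₁₂, H₁₂⟩ := const_le_ex (2 * C₂) (show 0 < (1 - N.w1) / 2 by linarith)
  obtain ⟨J₁₃, H₁₃⟩ := const_le_ex (C₁ * 2 ^ D + 2) (show 0 < 5 * b / 8 by linarith)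
  obtain ⟨J₁₄, H₁₄⟩ := const_le_ex 2 (show 0 < (1 - N.g0 1 - q) / 2 by linarith)
  obtain ⟨J₁₅, H₁₅⟩ := exists_nat_gt (2 * C₂ / (c₁ * (β * Real.log 2)))
  obtain ⟨φ, hφe⟩ : ∃ φ, φ = min (min φ₁ φ₂) (min φ₃ (min φ₄ ((1 - N.g0 1 - q) / 6))) :=
    ⟨_, rfl⟩
  have hφ : 0 < φ := by
    rw [hφe]
    exact lt_min (lt_min hφ₁ hφ₂) (lt_min hφ₃ (lt_min hφ₄ (by linarith)))
  have p₁ : φ ≤ φ₁ := hφe ▸ (min_le_left _ _).trans (min_le_left _ _)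
  have p₂ : φ ≤ φ₂ := hφe ▸ (min_le_left _ _).trans (min_le_right _ _)
  have p₃ : φ ≤ φ₃ := hφe ▸ (min_le_right _ _).trans (min_le_left _ _)
  have p₄ : φ ≤ φ₄ := hφe ▸ (min_le_right _ _).trans ((min_le_right _ _).trans (min_le_left _ _))
  have p₅ : φ ≤ (1 - N.g0 1 - q) / 6 :=
    hφe ▸ (min_le_right _ _).trans ((min_le_right _ _).trans (min_le_right _ _))
  obtain ⟨τ, hτe⟩ : ∃ τ, τ = min (min τ₁ τ₂) (min τ₃ τ₅) := ⟨_, rfl⟩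
  have hτ : 0 < τ := by
    rw [hτe]
    exact lt_min (lt_min hτ₁ hτ₂) (lt_min hτ₃ hτ₅)
  have t₁ : τ ≤ τ₁ := hτe ▸ (min_le_left _ _).trans (min_le_left _ _)
  have t₂ : τ ≤ τ₂ := hτe ▸ (min_le_left _ _).trans (min_le_right _ _)
  have t₃ : τ ≤ τ₃ := hτe ▸ (min_le_right _ _).trans (min_le_left _ _)
  have t₅ : τ ≤ τ₅ := hτe ▸ (min_le_right _ _).trans (min_le_right _ _)
  refine ⟨φ, hφ, τ, hτ, J₁ + J₂ + J₃ + J₄ + J₅ + J₆ + J₇ + J₈ + J₉ + J₁₀ + J₁₁ + J₁₂ + J₁₃ +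
    J₁₄ + J₁₅, ?_⟩
  intro J hJ F A hS d
  have j₁ : J₁ ≤ J := by omega
  have j₂ : J₂ ≤ J := by omega
  have j₃ : J₃ ≤ J := by omega
  have j₄ : J₄ ≤ J := by omega
  have j₅ : J₅ ≤ J := by omega
  have j₁₅ : J₁₅ ≤ J := by omega
  have K₆ := H₆ J (by omega)
  have K₇ := H₇ J (by omega)
  have K₈ := H₈ J (by omega)
  have K₉ := H₉ J (by omega)
  have K₁₀ := H₁₀ J (by omega)
  have K₁₁ := H₁₁ J (by omega)
  have K₁₂ := H₁₂ J (by omega)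
  have K₁₃ := H₁₃ J (by omega)
  have K₁₄ := H₁₄ J (by omega)
  clear hJ
  obtain ⟨hTr, hTm, hRb, hPe⟩ := hmem τ J F A hS
  have hA : 0 < Pe F.p A := lt_of_lt_of_le (Real.exp_pos _) hPe
  have hpl : IsLaw (pA F A) := isLaw_cond F.isLaw hA
  have hpn : IsLaw (pn F A ⌊N.w0 * J⌋₊ n) := Pool.KSM.iid_law hpl
  have G₁ := H₁ J j₁ F A (S.mono t₁ hS) (d.mono p₁)
  have G₂ := H₂ J j₂ F A (S.mono t₂ hS) (d.mono p₂)
  have G₃ := H₃ J j₃ F A (S.mono t₃ hS) (d.mono p₃)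
  have hN : d.Nms := H₄ φ hφ p₄ J j₄ d
  have G₅ := H₅ J j₅ F A (S.mono t₅ hS) J hN.w1J le_rfl
  have hJ0 : (0 : ℝ) < J := by
    have h2 : (J₁₅ : ℝ) ≤ J := by exact_mod_cast j₁₅
    have h3 : 0 < 2 * C₂ / (c₁ * (β * Real.log 2)) := by positivity
    linarith
  -- the chosen polynomials
  obtain ⟨Qc, hQc⟩ : ∃ Qc : d.V → d.V → MvPolynomial (Option (Fin 3)) ℝ,
      Qc = fun κ κ' => if h : d.Fal D (ex he J) κ κ' then Classical.choose h else 0 := ⟨_, rfl⟩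
  have hQs : ∀ κ κ' (h : d.Fal D (ex he J) κ κ'), Qc κ κ' = Classical.choose h := by
    intro κ κ' h
    rw [hQc]
    exact dif_pos h
  have hQd : ∀ κ κ', (Qc κ κ').totalDegree ≤ D := by
    intro κ κ'
    by_cases h : d.Fal D (ex he J) κ κ'
    · rw [hQs κ κ' h]
      exact (Classical.choose_spec h).1
    · rw [hQc]
      simp only [dif_neg h, totalDegree_zero, Nat.zero_le]
  -- the events
  have e₁ := pe_single hpl (slam F ⌊N.w0 * J⌋₊) n (fun ω => ¬ d.Box (ex lam₀ J) ω) G₁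
  have e₂ := pe_single hpl (slam F ⌊N.w0 * J⌋₊) n
    (fun ω => ¬ |d.Ez ω| ≤ ex (-(b / 16)) J) G₂
  have e₃ := pe_single hpl (slam F ⌊N.w0 * J⌋₊) n
    (fun ω => ¬ d.Lr D ⌊q₀ * J⌋₊ (ex (-(b / 16)) J) ω) G₃
  obtain ⟨hd, hhd⟩ : ∃ hd : ℝ, hd = β * Real.log 2 * J := ⟨_, rfl⟩
  have hhd0 : 0 < hd := by
    rw [hhd]
    positivity
  have hexp : Real.exp hd = ex (-β) J := by
    rw [hhd]
    unfold ex
    congr 1
    ring
  have hdM : C₂ * Real.exp hd ≤ ((2 ^ (J - ⌊N.w1 * J⌋₊) : ℕ) : ℝ) := by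
    rw [hexp]
    push_cast
    have a1 : ex (-(1 - N.w1)) J ≤ (2 : ℝ) ^ (J - ⌊N.w1 * J⌋₊) := by
      refine ex_le_two ?_
      have a2 := Nat.floor_le (mul_nonneg (h0.trans h01) hJ0.le)
      rw [Nat.cast_sub hN.w1J]
      linarith
    refine le_trans (mul_ex_le ?_) a1
    have a3 : C₂ ≤ ex (-((1 - N.w1) / 2)) J := by linarith
    refine a3.trans (ex_le ?_ J)
    linarith
  have hdm : ∀ i j : Fin (n + 1), i ≠ j → Pe (pn F A ⌊N.w0 * J⌋₊ n) (fun v =>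
      ¬ Dmt K' (C₂ * Real.exp hd) (2 ^ ⌊N.w0 * J⌋₊ / 2 ^ ⌊N.w1 * J⌋₊)
        (d.fr (v j) (d.κ (v j)) (Qc (d.κ (v i)) (d.κ (v j)))) (d.s (v j))) ≤ c₁ := by
    intro i j hij
    refine (hdmt d hN hpl Qc hij hQd hK hhd0 hdM).trans ?_
    rw [div_le_iff₀ hhd0]
    have a1 : C₂ * ((Real.log ((2 ^ (J - ⌊N.w1 * J⌋₊) : ℕ) : ℝ) -
        CH (pA F A) (fun ω => tdg ⌊N.w1 * J⌋₊ J (K2S.Fam.pt F ω)) (slam F ⌊N.w1 * J⌋₊)) + 1) ≤
        C₂ * (δ * J + 1) := by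
      refine mul_le_mul_of_nonneg_left ?_ hC₂0.le
      linarith [G₅]
    refine a1.trans ?_
    have a2 : C₂ * (δ * J) = c₁ * hd / 2 := by
      rw [hδe, hhd]
      field_simp
    have a3 : C₂ ≤ c₁ * hd / 2 := by
      have h2 : (J₁₅ : ℝ) ≤ J := by exact_mod_cast j₁₅
      have h3 := H₁₅.trans_le h2
      rw [div_lt_iff₀ (by positivity)] at h3
      rw [hhd]
      linarith
    linarith
  -- the union
  have hall := pe_ex' (p := pn F A ⌊N.w0 * J⌋₊ n)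
    (univ.filter fun x : Fin (n + 1) × Fin (n + 1) => x.1 ≠ x.2) hpn.nonneg
    (A := fun v => ∃ i j : Fin (n + 1), i ≠ j ∧
      ¬ Dmt K' (C₂ * Real.exp hd) (2 ^ ⌊N.w0 * J⌋₊ / 2 ^ ⌊N.w1 * J⌋₊)
        (d.fr (v j) (d.κ (v j)) (Qc (d.κ (v i)) (d.κ (v j)))) (d.s (v j)))
    (fun x v => ¬ Dmt K' (C₂ * Real.exp hd) (2 ^ ⌊N.w0 * J⌋₊ / 2 ^ ⌊N.w1 * J⌋₊)
        (d.fr (v x.2) (d.κ (v x.2)) (Qc (d.κ (v x.1)) (d.κ (v x.2)))) (d.s (v x.2)))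
    (c := c₁) (fun x hx => hdm x.1 x.2 (Finset.mem_filter.1 hx).2)
    (fun v _ ⟨i, j, hij, hv⟩ => ⟨(i, j), Finset.mem_filter.2 ⟨Finset.mem_univ _, hij⟩, hv⟩)
  have hcard : ((univ.filter fun x : Fin (n + 1) × Fin (n + 1) => x.1 ≠ x.2).card : ℝ) ≤
      ((n : ℝ) + 1) ^ 2 := by
    have a1 : (univ.filter fun x : Fin (n + 1) × Fin (n + 1) => x.1 ≠ x.2).card ≤
        (n + 1) ^ 2 := by
      refine (Finset.card_filter_le _ _).trans (le_of_eq ?_)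
      rw [Finset.card_univ, Fintype.card_prod, Fintype.card_fin]
      ring
    exact_mod_cast a1
  have e₄ : Pe (pn F A ⌊N.w0 * J⌋₊ n) (fun v => ∃ i j : Fin (n + 1), i ≠ j ∧
      ¬ Dmt K' (C₂ * Real.exp hd) (2 ^ ⌊N.w0 * J⌋₊ / 2 ^ ⌊N.w1 * J⌋₊)
        (d.fr (v j) (d.κ (v j)) (Qc (d.κ (v i)) (d.κ (v j)))) (d.s (v j))) ≤
      ((n : ℝ) + 1) ^ 2 * c₁ :=
    hall.trans (mul_le_mul_of_nonneg_right hcard hc₁.le)
  have hnn := hpn.nonneg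
  have u₁ := pe_le_add hnn (A := fun v => (∃ i, ¬ d.Box (ex lam₀ J) (v i)) ∨
    ∃ i, ¬ |d.Ez (v i)| ≤ ex (-(b / 16)) J) (fun v _ h => h)
  have u₂ := pe_le_add hnn (A := fun v => (∃ i, ¬ d.Lr D ⌊q₀ * J⌋₊ (ex (-(b / 16)) J) (v i)) ∨
    ∃ i j : Fin (n + 1), i ≠ j ∧
      ¬ Dmt K' (C₂ * Real.exp hd) (2 ^ ⌊N.w0 * J⌋₊ / 2 ^ ⌊N.w1 * J⌋₊)
        (d.fr (v j) (d.κ (v j)) (Qc (d.κ (v i)) (d.κ (v j)))) (d.s (v j))) (fun v _ h => h)
  have hsum : ((n : ℝ) + 1) * c₁ + ((n : ℝ) + 1) * c₁ + (((n : ℝ) + 1) * c₁ +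
      ((n : ℝ) + 1) ^ 2 * c₁) ≤ c₀ := by
    have a1 : ((n : ℝ) + 1) * c₁ ≤ ((n : ℝ) + 1) ^ 2 * c₁ :=
      mul_le_mul_of_nonneg_right (le_self_pow₀ hn0 two_ne_zero) hc₁.le
    have a2 : 4 * (((n : ℝ) + 1) ^ 2 * c₁) = c₀ := by
      rw [hc₁e]
      field_simp
    linarith
  refine le_trans (pe_le_add hnn (fun v hv hbad => ?_)) (le_trans (add_le_add
    (u₁.trans (add_le_add e₁ e₂)) (u₂.trans (add_le_add e₃ e₄))) hsum)
  by_contra hcon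
  push Not at hcon
  obtain ⟨⟨g1, g2⟩, g3, g4⟩ := hcon
  obtain ⟨i, j, hij, hfal, hlr, hpol⟩ := hbad
  refine hpol ?_
  -- the deterministic part
  have hchoose := Classical.choose_spec hfal
  rw [← hQs _ _ hfal] at hchoose
  obtain ⟨-, f1, f2, f3⟩ := hchoose
  have hvA : A (v j) := (Dat.pA_pos (Pool.KSM.iid_pos hpl.nonneg hv j).1).1
  have pw : ex lam J ≤ 2 ^ ⌊N.w0 * J⌋₊ / 2 ^ ⌊N.w1 * J⌋₊ := by
    rw [le_div_iff₀ (by positivity)]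
    have a1 := floor_le_ex (h0.trans h01) J
    have a2 := ex_le_floor N.w0 J
    have a3 : 2 * ex lam J ≤ ex (N.w1 - N.w0) J := mul_ex_le K₇
    have a4 : ex lam J * 2 ^ ⌊N.w1 * J⌋₊ ≤ ex lam J * ex (-N.w1) J :=
      mul_le_mul_of_nonneg_left a1 (ex_pos _ _).le
    have a5 : 2 * (ex lam J * ex (-N.w1) J) ≤ ex (-N.w0) J := by
      calc 2 * (ex lam J * ex (-N.w1) J) = (2 * ex lam J) * ex (-N.w1) J := by ring
        _ ≤ ex (N.w1 - N.w0) J * ex (-N.w1) J :=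
            mul_le_mul_of_nonneg_right a3 (ex_pos _ _).le
        _ = ex (-N.w0) J := by
            rw [← ex_add]
            congr 1
            ring
    linarith
  have pww : (2 : ℝ) ^ ⌊N.w1 * J⌋₊ / 2 ^ ⌊N.w0 * J⌋₊ ≤ 2 * ex (-(N.w1 - N.w0)) J := by
    rw [div_le_iff₀ (by positivity)]
    have a1 := floor_le_ex (h0.trans h01) J
    have a2 := ex_le_floor N.w0 J
    have a3 : ex (-N.w1) J = ex (-(N.w1 - N.w0)) J * ex (-N.w0) J := by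
      rw [← ex_add]
      congr 1
      ring
    have a4 := mul_le_mul_of_nonneg_left a2 (ex_pos (-(N.w1 - N.w0)) J).le
    linarith
  have hqf : (⌊q * J⌋₊ : ℝ) ≤ q * J := Nat.floor_le (mul_nonneg hq hJ0.le)
  refine hdet d hN (Q := Qc (d.κ (v i)) (d.κ (v j))) (ε := ex he J) (H₀ := ex (-(b / 16)) J)
    (Hq := ex (-h) J) (lam₀ := ex lam₀ J) (ν := ex (b / 8) J) (q₀ := ⌊q₀ * J⌋₊) (q := ⌊q * J⌋₊)
    hK hDK (ex_pos _ _) (mul_ex_le K₆) pw (ex_pos _ _).le (one_le_ex (by linarith) J)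
    (ex_pos _ _).le ?_ (ex_pos _ _).le (ex_pos _ _) ?_ ?_ ?_ ?_ ?_ ?_ hv (g1 j) (g3 j) hlr
    (hQd _ _) f1 f2 f3 ?_
  · -- `32 Hq ε ≤ 1`
    calc 32 * ex (-h) J * ex he J = 32 * ex (he - h) J := by
          rw [mul_assoc, ← ex_add]
          congr 2
          ring
      _ ≤ ex 0 J := mul_ex_le (K₈.trans (ex_le (by linarith) J))
      _ = 1 := ex_zero J
  · calc ex (b / 8) J * (C₁ * ex (-(b / 16)) J) = C₁ * ex (b / 16) J := by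
          rw [show b / 16 = b / 8 + -(b / 16) by ring, ex_add]
          ring
      _ ≤ ex 0 J := mul_ex_le (K₉.trans (ex_le (by linarith) J))
      _ = 1 := ex_zero J
  · rw [le_div_iff₀ (mul_pos (by norm_num) (ex_pos _ _))]
    calc ex (h + b) J * (16 * ex (-h) J) = 16 * (ex (h + b) J * ex (-h) J) := by ring
      _ = 16 * ex b J := by
          rw [← ex_add]
          congr 2
          ring
      _ ≤ ex (b / 8) J := mul_ex_le (K₁₀.trans (ex_le (by linarith) J))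
  · have a1 := g2 j
    have a2 := floor_ex q J
    have a3 := one_le_ex (show -(b / 16) ≤ 0 by linarith) J
    have p := ex_pos (-(b / 16)) J
    calc (3 + |d.Ez (v j)|) / 2 ^ ⌊q * J⌋₊ = (3 + |d.Ez (v j)|) * (1 / 2 ^ ⌊q * J⌋₊) := by ring
      _ ≤ (4 * ex (-(b / 16)) J) * (2 * ex q J) :=
          mul_le_mul (by linarith) a2 (by positivity) (by positivity)
      _ = 8 * ex (q - b / 16) J := by
          rw [show q - b / 16 = -(b / 16) + q by ring, ex_add]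
          ring
      _ ≤ ex (q - b) J := by
          refine mul_ex_le (le_trans ?_ (K₁₀.trans (ex_le ?_ J)))
          · norm_num
          · linarith
  · have a0 : 0 ≤ ex he J := (ex_pos _ _).le
    have a1 : ((2 : ℝ) ^ ⌊N.w1 * J⌋₊ / 2 ^ ⌊N.w0 * J⌋₊) ^ D ≤
        2 ^ D * ex (-(D * (N.w1 - N.w0))) J := by
      calc _ ≤ (2 * ex (-(N.w1 - N.w0)) J) ^ D := pow_le_pow_left₀ (by positivity) pww D
        _ = _ := by
            rw [mul_pow, ex_pow]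
            congr 2
            ring
    have a2 : ex he J ≤ ex (he - D * (N.w1 - N.w0) - b / 4) J := by
      refine ex_le ?_ J
      have : 0 ≤ (D : ℝ) * (N.w1 - N.w0) := mul_nonneg (Nat.cast_nonneg D) (by linarith)
      linarith
    have a3 : C₁ * (2 ^ ⌊N.w1 * J⌋₊ / 2 ^ ⌊N.w0 * J⌋₊) ^ D * (ex (-(b / 4)) J * ex he J) ≤
        (C₁ * 2 ^ D) * ex (he - D * (N.w1 - N.w0) - b / 4) J := by
      have p1 := ex_pos (-(b / 4)) J
      have p2 := ex_pos he J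
      calc _ ≤ C₁ * (2 ^ D * ex (-(D * (N.w1 - N.w0))) J) * (ex (-(b / 4)) J * ex he J) :=
            mul_le_mul_of_nonneg_right (mul_le_mul_of_nonneg_left a1 (by linarith))
              (by positivity)
        _ = _ := by
            rw [show he - D * (N.w1 - N.w0) - b / 4 =
              -(D * (N.w1 - N.w0)) + (-(b / 4) + he) by ring, ex_add, ex_add]
            ring
    calc ex (b / 8) J * (ex (-(b / 4)) J * (C₁ * (2 ^ ⌊N.w1 * J⌋₊ / 2 ^ ⌊N.w0 * J⌋₊) ^ D *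
          (ex (-(b / 4)) J * ex he J) + 2 * ex he J)) ≤
        ex (b / 8) J * (ex (-(b / 4)) J *
          ((C₁ * 2 ^ D + 2) * ex (he - D * (N.w1 - N.w0) - b / 4) J)) := by
          refine mul_le_mul_of_nonneg_left (mul_le_mul_of_nonneg_left ?_ (ex_pos _ _).le)
            (ex_pos _ _).le
          linarith
      _ = (C₁ * 2 ^ D + 2) * ex (he - D * (N.w1 - N.w0) - 3 * b / 8) J := by
          rw [show he - D * (N.w1 - N.w0) - 3 * b / 8 =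
            b / 8 + (-(b / 4) + (he - D * (N.w1 - N.w0) - b / 4)) by ring, ex_add, ex_add]
          ring
      _ ≤ ex (he - D * (N.w1 - N.w0) - b) J :=
          mul_ex_le (K₁₃.trans (ex_le (by linarith) J))
  · have a1 := Nat.floor_le (mul_nonneg h0 hJ0.le)
    have a2 : ((⌊N.w0 * J⌋₊ + ⌊q * J⌋₊ : ℕ) : ℝ) ≤ J := by
      push_cast
      have a3 := mul_le_mul_of_nonneg_right hwq hJ0.le
      linarith
    exact_mod_cast a2
  · have a1 : |d.pl (v j) 2| ≤ Real.exp (φ * J) := d.siz0 (v j) hvA 2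
    have a2 := exp_le_ex hφ.le J
    have a3 := one_le_ex (show -(2 * φ) ≤ 0 by linarith) J
    have a4 := (abs_le.1 d.numz).2
    have a5 : (2 : ℝ) ^ (d.G0 + ⌊q * J⌋₊) ≤ ex (-(N.g0 1 + φ + q)) J := by
      refine two_le_ex ?_
      push_cast
      linarith
    have p := ex_pos (-(2 * φ)) J
    calc (1 + |d.pl (v j) 2|) * 2 ^ (d.G0 + ⌊q * J⌋₊) ≤
          (2 * ex (-(2 * φ)) J) * ex (-(N.g0 1 + φ + q)) J :=
          mul_le_mul (by linarith) a5 (by positivity) (by positivity)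
      _ = 2 * ex (-(N.g0 1 + q + 3 * φ)) J := by
          rw [show -(N.g0 1 + q + 3 * φ) = -(2 * φ) + -(N.g0 1 + φ + q) by ring, ex_add]
          ring
      _ ≤ ex (-1) J := mul_ex_le (K₁₄.trans (ex_le (by linarith) J))
      _ = 2 ^ J := ex_neg_one J
  · refine Dmt.up (Dmt.mono (g4 i j hij) pw) ?_
    rw [hexp]
    refine mul_ex_le (K₁₁.trans (ex_le ?_ J))
    linarith

end Pool.PLN
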