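import Pool.Agent.H81.PLN.PolS

/-!
# Lemma PLANE: the times of a line in a window are dense
-/

set_option autoImplicit false

namespace Pool.PLN

open Finset Real MvPolynomial Pool.JMN Pool.JMS
open Pool.Agent.H49.Ent Pool.Agent.H32.Dense Pool.STK Pool.KA Pool.KSAT Pool.K2S Pool.PB Pool.STAT
  Pool.GEN Pool.S6C Pool.M3F Pool.CLO37 Pool.KAF Pool.KS3 Pool.EXS
open Pool.KAL (Psi)
open Pool.IEN (sp sp_nonneg le_sp)

theorem win_fam (K' : ℕ) : ∃ C : ℝ, 1 ≤ C ∧ ∀ {m J : ℕ} {N : Nums} {φ : ℝ} {K : ℕ}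
    {F : Fam m J} {c : ℕ → Fin m} {A : F.Ω → Prop} (d : Dat N φ K F c A),
    ⌊N.w1 * J⌋₊ ≤ J → IsLaw (pA F A) → ∀ {h H : ℝ}, 0 < h →
    C * Real.exp h ≤ ((2 ^ (J - ⌊N.w1 * J⌋₊) : ℕ) : ℝ) → C * Real.exp h ≤ H →
    Pe (pA F A) (fun ω => ¬ d.Win K' H ω) ≤
      C * ((Real.log ((2 ^ (J - ⌊N.w1 * J⌋₊) : ℕ) : ℝ) -
        CH (pA F A) (fun ω => tdg ⌊N.w1 * J⌋₊ J (K2S.Fam.pt F ω)) (slam F ⌊N.w1 * J⌋₊)) + 1) /
        h := by
  classical
  obtain ⟨C₁, hC₁, htim⟩ := IEN.tim_ev K'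
  obtain ⟨C₂, hC₂, hgro⟩ := gro_pow K'
  have hK0 : (0 : ℝ) ≤ K' := Nat.cast_nonneg K'
  have h3K : (1 : ℝ) ≤ 3 ^ K' := one_le_pow₀ (by norm_num)
  refine ⟨2 * (K' + 1) * C₁ + 2 * (C₂ * 3 ^ K'), by nlinarith, ?_⟩
  intro m J N φ K F c A d hWJ hP h H hh hCM hCH
  haveI : Nonempty F.Ω := by
    by_contra hne
    rw [not_nonempty_iff] at hne
    have := hP.sum_one
    simp at this
  obtain ⟨W, hW⟩ : ∃ W, W = ⌊N.w1 * J⌋₊ := ⟨_, rfl⟩
  obtain ⟨M, hM⟩ : ∃ M : ℕ, M = 2 ^ (J - ⌊N.w1 * J⌋₊) := ⟨_, rfl⟩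
  rw [← hM] at hCM ⊢
  have hexp := Real.exp_pos h
  have hC₂3 : 1 ≤ C₂ * 3 ^ K' := one_le_mul_of_one_le_of_one_le hC₂ h3K
  have hM0 : (0 : ℝ) < M := lt_of_lt_of_le (by positivity) hCM
  have hpW : (0 : ℝ) < 2 ^ W := by positivity
  -- the maximum over the samples of a line
  obtain ⟨mu, hmu⟩ : ∃ mu : LnT F → Polynomial ℝ → ℝ, mu = fun s p =>
      mx (fun ω' => A ω' ∧ 0 < F.p ω' ∧ slam F W ω' = s) (fun ω' => |p.eval (F.t ω')|) :=
    ⟨_, rfl⟩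
  have hmu0 : ∀ s p, 0 ≤ mu s p := by
    intro s p
    rw [hmu]
    exact mx_nonneg fun _ => abs_nonneg _
  obtain ⟨Bd, hBd⟩ : ∃ Bd : LnT F → Polynomial ℝ → Prop, Bd = fun s p => p.natDegree ≤ K' ∧
      ∃ t : ℝ, |2 ^ W * t - s.2.2| ≤ 3 ∧ H * mu s p < |p.eval t| := ⟨_, rfl⟩
  obtain ⟨pc, hpc⟩ : ∃ pc : LnT F → Polynomial ℝ, pc = fun s =>
      if h : ∃ p, Bd s p then Classical.choose h else 0 := ⟨_, rfl⟩
  have hpcs : ∀ s, (∃ p, Bd s p) → Bd s (pc s) := by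
    intro s h
    rw [hpc]
    simp only [dif_pos h]
    exact Classical.choose_spec h
  have hpcd : ∀ s, (pc s).natDegree ≤ K' := by
    intro s
    by_cases h : ∃ p, Bd s p
    · have h1 := hpcs s h
      rw [hBd] at h1
      exact h1.1
    · rw [hpc]
      simp only [dif_neg h, Polynomial.natDegree_zero, Nat.zero_le]
  obtain ⟨g, hg⟩ : ∃ g : LnT F → Polynomial ℝ, g = fun s =>
      (pc s).comp (Polynomial.C ((s.2.2 : ℝ) / 2 ^ W) + Polynomial.C (1 / 2 ^ W) *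
        Polynomial.X) := ⟨_, rfl⟩
  have hgev : ∀ s τ, (g s).eval τ = (pc s).eval (((s.2.2 : ℝ) + τ) / 2 ^ W) := by
    intro s τ
    rw [hg]
    simp only [Polynomial.eval_comp, Polynomial.eval_add, Polynomial.eval_mul, Polynomial.eval_C,
      Polynomial.eval_X]
    congr 1
    ring
  have hgd : ∀ s, (g s).natDegree ≤ K' := by
    intro s
    rw [hg]
    refine Polynomial.natDegree_comp_le.trans ?_
    have h3 : (Polynomial.C ((s.2.2 : ℝ) / 2 ^ W) + Polynomial.C (1 / 2 ^ W) *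
        Polynomial.X : Polynomial ℝ).natDegree ≤ 1 := by
      refine (Polynomial.natDegree_add_le _ _).trans (max_le ?_ ?_)
      · rw [Polynomial.natDegree_C]
        exact Nat.zero_le _
      · exact (Polynomial.natDegree_C_mul_le _ _).trans Polynomial.natDegree_X_le
    calc _ ≤ K' * 1 := Nat.mul_le_mul (hpcd s) h3
      _ = K' := mul_one _
  have h1 := htim F.Ω (LnT F) (pA F A) (slam F ⌊N.w1 * J⌋₊)
    (fun ω => tdg ⌊N.w1 * J⌋₊ J (K2S.Fam.pt F ω)) M g h hP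
    (fun ω _ => by rw [hM]; exact tdg_lt F _ ω) (fun ω _ => hgd _) hh
    (le_trans (mul_le_mul_of_nonneg_right (by nlinarith) hexp.le) hCM)
  have e1 : (∑ v, (open Classical in
      if 0 < sp (g (slam F ⌊N.w1 * J⌋₊ v)) ∧ |(g (slam F ⌊N.w1 * J⌋₊ v)).eval
        ((tdg ⌊N.w1 * J⌋₊ J (K2S.Fam.pt F v) : ℝ) / M)| ≤
          1 / 2 * (Real.exp (-h) * sp (g (slam F ⌊N.w1 * J⌋₊ v))) then pA F A v else 0)) =
      Pe (pA F A) (fun v => 0 < sp (g (slam F ⌊N.w1 * J⌋₊ v)) ∧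
        |(g (slam F ⌊N.w1 * J⌋₊ v)).eval ((tdg ⌊N.w1 * J⌋₊ J (K2S.Fam.pt F v) : ℝ) / M)| ≤
          1 / 2 * (Real.exp (-h) * sp (g (slam F ⌊N.w1 * J⌋₊ v)))) := by
    rw [← ms_pe]
    exact (IEN.ms_eq _ _ _).symm
  rw [e1] at h1
  have hdef : 0 ≤ Real.log M - CH (pA F A) (fun ω => tdg ⌊N.w1 * J⌋₊ J (K2S.Fam.pt F ω))
      (slam F ⌊N.w1 * J⌋₊) := by
    have h1 := CH_le_H hP (fun ω => tdg ⌊N.w1 * J⌋₊ J (K2S.Fam.pt F ω)) (slam F ⌊N.w1 * J⌋₊)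
    have h2 := H_le_log_card hP.nonneg hP.sum_one
      (fun ω => tdg ⌊N.w1 * J⌋₊ J (K2S.Fam.pt F ω)) (Finset.range M)
      (fun v hv => Finset.mem_range.mpr (by rw [hM]; exact tdg_lt F _ v))
    rw [Finset.card_range] at h2
    linarith
  refine (pe_mono hP.nonneg fun ω hω hbad => ?_).trans (h1.trans ?_)
  · obtain ⟨hA, hp⟩ := Dat.pA_pos hω
    obtain ⟨s, hs⟩ : ∃ s, s = slam F ⌊N.w1 * J⌋₊ ω := ⟨_, rfl⟩
    have hT := T1_real F hWJ ω
    have hs2 : (s.2.2 : ℝ) = F.T1 ⌊N.w1 * J⌋₊ ω := by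
      rw [hs]
      rfl
    rw [← hW] at hT
    have hex : ∃ p, Bd s p := by
      unfold Dat.Win at hbad
      push Not at hbad
      obtain ⟨p, hp1, t, ht, hlt⟩ := hbad
      refine ⟨p, ?_⟩
      rw [hBd]
      refine ⟨hp1, t, ?_, ?_⟩
      · rw [hs2, ← hW]
        rw [← hW, le_div_iff₀ hpW, ← abs_of_pos hpW, ← abs_mul] at ht
        have a1 : 2 ^ W * t - (F.T1 W ω : ℝ) = (t - F.t ω) * 2 ^ W +
            (2 ^ W * F.t ω - F.T1 W ω) := by ring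
        rw [a1]
        refine (abs_add_le _ _).trans ?_
        have a2 : |2 ^ W * F.t ω - (F.T1 W ω : ℝ)| ≤ 1 := by
          rw [abs_le]
          constructor <;> linarith [hT.1, hT.2]
        linarith
      · rw [hmu]
        rw [hs, hW]
        exact hlt
    have hB := hpcs s hex
    rw [hBd] at hB
    obtain ⟨-, t, ht, hlt⟩ := hB
    -- the value at the sample
    have a1 : (g s).eval ((tdg ⌊N.w1 * J⌋₊ J (K2S.Fam.pt F ω) : ℝ) / M) =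
        (pc s).eval (F.t ω) := by
      rw [hgev, hs2]
      congr 1
      have a2 := tim_ex F hWJ ω
      rw [← hM, ← hW] at a2
      rw [← hW]
      rw [div_eq_iff hpW.ne']
      linarith
    have a2 : |(pc s).eval (F.t ω)| ≤ mu s (pc s) := by
      rw [hmu]
      refine le_mx (P := fun ω' => A ω' ∧ 0 < F.p ω' ∧ slam F W ω' = s)
        (f := fun ω' => |(pc s).eval (F.t ω')|) ⟨hA, hp, ?_⟩
      rw [hs, hW]
    have a3 : |(pc s).eval t| ≤ C₂ * 3 ^ K' * sp (g s) := by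
      have b1 := hgro (g s) 3 (2 ^ W * t - s.2.2) (sp (g s)) (hgd s) (by norm_num) ht
        (fun x hx => le_sp (g s) hx)
      rw [hgev] at b1
      have b2 : ((s.2.2 : ℝ) + (2 ^ W * t - s.2.2)) / 2 ^ W = t := by
        field_simp
        ring
      rwa [b2] at b1
    have a4 := hmu0 s (pc s)
    have hH0 : 0 < H := lt_of_lt_of_le (by positivity) hCH
    have a5 : 0 < |(pc s).eval t| := lt_of_le_of_lt (mul_nonneg hH0.le a4) hlt
    have a6 : 0 < sp (g s) := by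
      by_contra hneg
      have : C₂ * 3 ^ K' * sp (g s) ≤ 0 := mul_nonpos_of_nonneg_of_nonpos (by positivity)
        (not_lt.1 hneg)
      linarith
    rw [← hs]
    refine ⟨a6, ?_⟩
    rw [a1]
    refine a2.trans ?_
    have a7 : 2 * (C₂ * 3 ^ K') * Real.exp h * mu s (pc s) ≤ C₂ * 3 ^ K' * sp (g s) := by
      refine le_trans ?_ (hlt.le.trans a3)
      refine mul_le_mul_of_nonneg_right (le_trans ?_ hCH) a4
      exact mul_le_mul_of_nonneg_right (by nlinarith) hexp.le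
    have a8 : 2 * Real.exp h * mu s (pc s) ≤ sp (g s) := by
      have : (C₂ * 3 ^ K') * (2 * Real.exp h * mu s (pc s)) ≤ (C₂ * 3 ^ K') * sp (g s) := by
        linarith
      exact le_of_mul_le_mul_left this (by positivity)
    have a9 : Real.exp (-h) * Real.exp h = 1 := by
      rw [← Real.exp_add, neg_add_cancel, Real.exp_zero]
    have a10 := mul_le_mul_of_nonneg_left a8 (Real.exp_pos (-h)).le
    have a11 : Real.exp (-h) * (2 * Real.exp h * mu s (pc s)) = 2 * mu s (pc s) := by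
      linear_combination (2 * mu s (pc s)) * a9
    rw [a11] at a10
    linarith
  · refine div_le_div_of_nonneg_right ?_ hh.le
    obtain ⟨x, hx⟩ : ∃ x, x = Real.log M - CH (pA F A)
      (fun ω => tdg ⌊N.w1 * J⌋₊ J (K2S.Fam.pt F ω)) (slam F ⌊N.w1 * J⌋₊) := ⟨_, rfl⟩
    rw [← hx] at hdef ⊢
    have b1 : 2 * ((K' : ℝ) + 1) * (x + C₁) ≤ 2 * ((K' : ℝ) + 1) * (C₁ * (x + 1)) := by
      refine mul_le_mul_of_nonneg_left ?_ (by positivity)
      nlinarith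
    have b2 : 0 ≤ 2 * (C₂ * 3 ^ K') * (x + 1) := by positivity
    nlinarith

/-- **The windows.** -/
theorem winS {m : ℕ} {S : PCl m}
    (hmem : ∀ (τ : ℝ) (J : ℕ) (F : Fam m J) (A : F.Ω → Prop), S.St τ J F A →
      F.Tr ∧ F.Tm (τ * J) ∧ F.Rb (τ * J) ∧ Real.exp (-(τ * J)) ≤ Pe F.p A)
    {c : ℕ → Fin m} {N : Nums} {K K' : ℕ} {b c₀ : ℝ} (h0 : 0 ≤ N.w1) (h1 : N.w1 < 1)
    (hb : 0 < b) (hc₀ : 0 < c₀) : WinS S c N K K' b c₀ := by
  obtain ⟨C, hC, hwin⟩ := win_fam K'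
  have hC0 : 0 < C := by linarith
  have hlog : 0 < Real.log 2 := Real.log_pos one_lt_two
  obtain ⟨β, hβ⟩ : ∃ β : ℝ, β = min (b / 2) ((1 - N.w1) / 2) := ⟨_, rfl⟩
  have hβ0 : 0 < β := by
    rw [hβ]
    exact lt_min (by linarith) (by linarith)
  have hβ1 : β ≤ b / 2 := hβ ▸ min_le_left _ _
  have hβ2 : β ≤ (1 - N.w1) / 2 := hβ ▸ min_le_right _ _
  obtain ⟨δ, hδe⟩ : ∃ δ : ℝ, δ = c₀ * (β * Real.log 2) / (2 * C) := ⟨_, rfl⟩
  have hδ : 0 < δ := by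
    rw [hδe]
    positivity
  obtain ⟨τ, hτ, J₁, H₁⟩ := tdg_w hmem N.w1 hδ
  obtain ⟨J₂, H₂⟩ := const_le_ex C (show 0 < b / 2 by linarith)
  obtain ⟨J₃, H₃⟩ := const_le_ex C (show 0 < (1 - N.w1) / 2 by linarith)
  obtain ⟨J₄, H₄⟩ := exists_nat_gt (2 * C / (c₀ * (β * Real.log 2)))
  refine ⟨1, one_pos, τ, hτ, J₁ + J₂ + J₃ + J₄, ?_⟩
  intro J hJ F A hS d
  have G₂ := H₂ J (by omega)
  have G₃ := H₃ J (by omega)
  have j₄ : J₄ ≤ J := by omega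
  have hJ4 : (J₄ : ℝ) ≤ J := by exact_mod_cast j₄
  have hJ0 : (0 : ℝ) < J := by
    have h3 : 0 < 2 * C / (c₀ * (β * Real.log 2)) := by positivity
    linarith
  obtain ⟨hTr, hTm, hRb, hPe⟩ := hmem τ J F A hS
  have hA : 0 < Pe F.p A := lt_of_lt_of_le (Real.exp_pos _) hPe
  have hpl : IsLaw (pA F A) := isLaw_cond F.isLaw hA
  have hWJ : ⌊N.w1 * J⌋₊ ≤ J := by
    have h2 : N.w1 * J ≤ J := by nlinarith
    have h3 := Nat.floor_mono h2
    rwa [Nat.floor_natCast] at h3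
  have G₁ := H₁ J (by omega) F A hS J hWJ le_rfl
  obtain ⟨h, hh⟩ : ∃ h : ℝ, h = β * Real.log 2 * J := ⟨_, rfl⟩
  have hh0 : 0 < h := by
    rw [hh]
    positivity
  have hexp : Real.exp h = ex (-β) J := by
    rw [hh]
    unfold ex
    congr 1
    ring
  have a1 : C * Real.exp h ≤ ((2 ^ (J - ⌊N.w1 * J⌋₊) : ℕ) : ℝ) := by
    rw [hexp]
    push_cast
    have a1 : ex (-(1 - N.w1)) J ≤ (2 : ℝ) ^ (J - ⌊N.w1 * J⌋₊) := by
      refine ex_le_two ?_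
      have a2 := Nat.floor_le (mul_nonneg h0 hJ0.le)
      rw [Nat.cast_sub hWJ]
      linarith
    refine le_trans (mul_ex_le (G₃.trans (ex_le ?_ J))) a1
    linarith
  have a2 : C * Real.exp h ≤ ex (-b) J := by
    rw [hexp]
    refine mul_ex_le (G₂.trans (ex_le ?_ J))
    linarith
  refine (hwin d hWJ hpl hh0 a1 a2).trans ?_
  rw [div_le_iff₀ hh0]
  refine le_trans (mul_le_mul_of_nonneg_left (show _ ≤ δ * J + 1 by linarith [G₁]) hC0.le) ?_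
  have a3 : C * (δ * J) = c₀ * h / 2 := by
    rw [hδe, hh]
    field_simp
  have a4 : C ≤ c₀ * h / 2 := by
    have h3 := H₄.trans_le hJ4
    rw [div_lt_iff₀ (by positivity)] at h3
    rw [hh]
    linarith
  linarith

end Pool.PLN
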