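import Pool.Agent.H81.PLN.Lin

/-!
# Lemma PLANE: the polynomial of two samples, deterministic part
-/

set_option autoImplicit false

namespace Pool.PLN

open Finset Real MvPolynomial Pool.JMN Pool.JMS
open Pool.Agent.H49.Ent Pool.Agent.H32.Dense Pool.STK Pool.KA Pool.KSAT Pool.K2S Pool.PB Pool.STAT
  Pool.GEN Pool.S6C Pool.M3F Pool.CLO37 Pool.KAF Pool.KS3 Pool.EXS
open Pool.KAL (Psi exists_line)

variable {m J : ℕ}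

/-- An affine polynomial on a segment. -/
theorem aff_seg {σ : Type} {P : MvPolynomial σ ℝ} (hP : P.totalDegree ≤ 1) (b b' : σ → ℝ)
    (t : ℝ) : eval (fun i => b i + t * (b' i - b i)) P =
      (1 - t) * eval b P + t * eval b' P := by
  obtain ⟨q, hq, h⟩ := exists_line P b (fun i => b' i - b i)
  obtain ⟨α, β, hqe⟩ := Polynomial.exists_eq_X_add_C_of_natDegree_le_one (hq.trans hP)
  have h0 := h 0
  have h1 := h 1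
  have e0 : (fun i => b i + 0 * (b' i - b i)) = b := by
    funext i
    ring
  have e1 : (fun i => b i + 1 * (b' i - b i)) = b' := by
    funext i
    ring
  rw [e0] at h0
  rw [e1] at h1
  rw [h t, h0, h1, hqe]
  simp only [Polynomial.eval_add, Polynomial.eval_mul, Polynomial.eval_C, Polynomial.eval_X]
  ring

/-- Equal floors. -/
theorem fl_cl {k : ℕ} {x y : ℝ} (h : ⌊(2 : ℝ) ^ k * x⌋ = ⌊(2 : ℝ) ^ k * y⌋) :
    |x - y| ≤ 1 / 2 ^ k := by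
  have p : (0 : ℝ) < 2 ^ k := by positivity
  have a1 := Int.floor_le ((2 : ℝ) ^ k * x)
  have a2 := Int.lt_floor_add_one ((2 : ℝ) ^ k * x)
  have a3 := Int.floor_le ((2 : ℝ) ^ k * y)
  have a4 := Int.lt_floor_add_one ((2 : ℝ) ^ k * y)
  rw [h] at a1 a2
  rw [le_div_iff₀ p, ← abs_of_pos p, ← abs_mul, abs_le]
  constructor <;> nlinarith

namespace Dat

variable {N : Nums} {φ : ℝ} {K : ℕ} {F : Fam m J} {c : ℕ → Fin m} {A : F.Ω → Prop}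
  (d : Dat N φ K F c A)

theorem bx_dist (hN : d.Nms) {ω : F.Ω} (hω : A ω) {b : ℕ → ℝ} {δ : ℝ}
    (hb : ∀ l < 3, |b l - px c (ptr F J ω) l| ≤ δ) {i : ℕ} (hi : i < 3) :
    |b i - eval b (d.P (d.κ ω) i)| ≤ 1 / 2 ^ wid ⌊N.w1 * J⌋₊ d.g' i + (1 + 3 * d.L) * δ := by
  have h1 := d.pos_bx hN hω i hi
  have h2 : |eval b (d.P (d.κ ω) i) - eval (px c (ptr F J ω)) (d.P (d.κ ω) i)| ≤
      3 * d.L * δ :=
    pn_mv ((d.lab.tri _ i).trans (Finset.range_mono hi.le)) hb d.L0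
      (fun t _ l _ => d.aff_le hN hω hi l _)
  have h5 := hb i hi
  have e1 : b i - eval b (d.P (d.κ ω) i) = (b i - px c (ptr F J ω) i) +
      (px c (ptr F J ω) i - eval (px c (ptr F J ω)) (d.P (d.κ ω) i)) -
      (eval b (d.P (d.κ ω) i) - eval (px c (ptr F J ω)) (d.P (d.κ ω) i)) := by ring
  rw [e1]
  refine (abs_sub _ _).trans ?_
  have h6 := abs_add_le (b i - px c (ptr F J ω) i)
    (px c (ptr F J ω) i - eval (px c (ptr F J ω)) (d.P (d.κ ω) i))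
  linarith

theorem rel_aff (ω : F.Ω) (s η ζ s' η' ζ' t : ℝ) (i : ℕ) :
    d.rel ω (s + t * (s' - s)) (η + t * (η' - η)) (ζ + t * (ζ' - ζ)) i =
      d.rel ω s η ζ i + t * (d.rel ω s' η' ζ' i - d.rel ω s η ζ i) := by
  unfold rel
  simp only
  split_ifs <;> ring

/-- The relative box in the box of the leaf. -/
theorem box2 (hN : d.Nms) {ω : F.Ω} (hω : A ω) {lam lam₀ : ℝ} (hl : 0 < lam)
    (hll : 8 * lam ≤ lam₀) (hB : d.Box lam₀ ω) {s η ζ : ℝ} (hs : |s - d.s ω| ≤ lam)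
    (hη : |η| ≤ lam) (hζ : |ζ| ≤ lam) :
    CLO.Bxr 2 (wid ⌊N.w1 * J⌋₊ d.g') (d.P (d.κ ω)) 3 (d.rel ω s η ζ) := by
  intro i hi
  obtain ⟨θ, hθ⟩ : ∃ θ : ℝ, θ = lam / lam₀ := ⟨_, rfl⟩
  have hl0 : 0 < lam₀ := by linarith
  have hθ0 : 0 < θ := by
    rw [hθ]
    positivity
  have hθ8 : θ ≤ 1 / 8 := by
    rw [hθ, div_le_div_iff₀ hl0 (by norm_num)]
    linarith
  have hθl : θ * lam₀ = lam := by
    rw [hθ]
    field_simp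
  have hsc : ∀ x : ℝ, |x| ≤ lam → |x / θ| ≤ lam₀ := by
    intro x hx
    rw [abs_div, abs_of_pos hθ0, div_le_iff₀ hθ0, mul_comm, hθl]
    exact hx
  have h2 := hB (d.s ω + (s - d.s ω) / θ) (η / θ) (ζ / θ)
    (by rw [add_sub_cancel_left]; exact hsc _ hs) (hsc _ hη) (hsc _ hζ) i hi
  have h1 : |d.rel ω (d.s ω) 0 0 i - eval (d.rel ω (d.s ω) 0 0) (d.P (d.κ ω) i)| ≤
      1 / 2 ^ wid ⌊N.w1 * J⌋₊ d.g' i + (1 + 3 * d.L) * (1 / 2 ^ J) := by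
    refine d.bx_dist hN hω (fun l hl => ?_) hi
    have e1 : ((F.T1 ⌊N.w0 * J⌋₊ ω : ℝ) + d.s ω) / 2 ^ ⌊N.w0 * J⌋₊ = F.t ω := by
      unfold Dat.s
      field_simp
      ring
    rw [rel_eq]
    interval_cases l
    · rw [reg_zero, px_t, e1, sub_self, abs_zero]
      positivity
    · rw [reg_one, e1, abs_sub_comm]
      have e2 : (F.l ω).1 (c 0) + F.t ω * (F.l ω).2 (c 0) + 0 / 2 ^ ⌊N.w0 * J⌋₊ = F.x ω (c 0) := by
        rw [zero_div, add_zero]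
        rfl
      rw [e2]
      exact px_x c ω 0
    · rw [reg_two, e1, abs_sub_comm]
      have e2 : (F.l ω).1 (c 1) + F.t ω * (F.l ω).2 (c 1) + d.pl ω 2 * 0 / 2 ^ ⌊N.w0 * J⌋₊ +
          0 / 2 ^ d.G0 = F.x ω (c 1) := by
        rw [mul_zero, zero_div, zero_div, add_zero, add_zero]
        rfl
      rw [e2]
      exact px_x c ω 1
  have e3 : ∀ l, d.rel ω s η ζ l = d.rel ω (d.s ω) 0 0 l +
      θ * (d.rel ω (d.s ω + (s - d.s ω) / θ) (η / θ) (ζ / θ) l - d.rel ω (d.s ω) 0 0 l) := by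
    intro l
    rw [← rel_aff]
    congr 1 <;> field_simp <;> ring
  have e4 : d.rel ω s η ζ = fun l => d.rel ω (d.s ω) 0 0 l +
      θ * (d.rel ω (d.s ω + (s - d.s ω) / θ) (η / θ) (ζ / θ) l - d.rel ω (d.s ω) 0 0 l) :=
    funext e3
  have e5 : d.rel ω s η ζ i - eval (d.rel ω s η ζ) (d.P (d.κ ω) i) =
      (1 - θ) * (d.rel ω (d.s ω) 0 0 i - eval (d.rel ω (d.s ω) 0 0) (d.P (d.κ ω) i)) +
      θ * (d.rel ω (d.s ω + (s - d.s ω) / θ) (η / θ) (ζ / θ) i -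
        eval (d.rel ω (d.s ω + (s - d.s ω) / θ) (η / θ) (ζ / θ)) (d.P (d.κ ω) i)) := by
    rw [e4, aff_seg (d.dg _ i hi)]
    ring
  have p1 : (0 : ℝ) < 2 ^ wid ⌊N.w1 * J⌋₊ d.g' i := by positivity
  have p2 : (0 : ℝ) < 2 ^ J := by positivity
  have h4 : (1 + 3 * d.L) * (1 / 2 ^ J) ≤ 1 / 2 / 2 ^ wid ⌊N.w1 * J⌋₊ d.g' i := by
    have h3 := hN.gJ i hi
    rw [mul_div_assoc', div_le_div_iff₀ p2 p1]
    linarith
  rw [e5]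
  refine (abs_add_le _ _).trans ?_
  rw [abs_mul, abs_mul, abs_of_pos hθ0, abs_of_nonneg (by linarith : (0 : ℝ) ≤ 1 - θ)]
  have h5 : (1 - θ) * |d.rel ω (d.s ω) 0 0 i - eval (d.rel ω (d.s ω) 0 0) (d.P (d.κ ω) i)| ≤
      1 * (1 / 2 ^ wid ⌊N.w1 * J⌋₊ d.g' i + 1 / 2 / 2 ^ wid ⌊N.w1 * J⌋₊ d.g' i) :=
    mul_le_mul (by linarith) (h1.trans (by linarith)) (abs_nonneg _) zero_le_one
  have h6 : θ * |d.rel ω (d.s ω + (s - d.s ω) / θ) (η / θ) (ζ / θ) i -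
      eval (d.rel ω (d.s ω + (s - d.s ω) / θ) (η / θ) (ζ / θ)) (d.P (d.κ ω) i)| ≤
      1 / 8 * (4 / 2 ^ wid ⌊N.w1 * J⌋₊ d.g' i) :=
    mul_le_mul hθ8 h2 (abs_nonneg _) (by norm_num)
  have e6 : (2 : ℝ) / 2 ^ wid ⌊N.w1 * J⌋₊ d.g' i =
      1 * (1 / 2 ^ wid ⌊N.w1 * J⌋₊ d.g' i + 1 / 2 / 2 ^ wid ⌊N.w1 * J⌋₊ d.g' i) +
      1 / 8 * (4 / 2 ^ wid ⌊N.w1 * J⌋₊ d.g' i) := by ring
  rw [e6]
  exact add_le_add h5 h6

/-- **(a)** -/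
theorem fr_a (hN : d.Nms) {ω : F.Ω} (hω : A ω) {D q : ℕ} {lam lam₀ H₀ : ℝ} (hl : 0 < lam)
    (hll : 8 * lam ≤ lam₀) (hB : d.Box lam₀ ω) (hH : 0 ≤ H₀) (hL : d.Lr D q H₀ ω)
    {Q : MvPolynomial (Option (Fin 3)) ℝ} (hQ : Q.totalDegree ≤ D)
    (h1 : ∀ ω', A ω' → 0 < F.p ω' → d.κ ω' = d.κ ω → Psi Q d.h0 (d.zs ω') ≤ 1) (x : ℝ)
    (ζ : Fin 2 → ℝ) (hx : |x - d.s ω| ≤ lam) (hζ : ∀ i, 0 ≤ ζ i ∧ ζ i ≤ lam) :
    |eval (Fin.cons x ζ : Fin (2 + 1) → ℝ) (d.fr ω (d.κ ω) Q)| ≤ H₀ := by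
  haveI : Nonempty F.Ω := ⟨ω⟩
  have e1 : ζ = ![ζ 0, ζ 1] := by
    funext i
    fin_cases i <;> rfl
  have ha : ∀ i, |ζ i| ≤ lam := fun i => by
    rw [abs_of_nonneg (hζ i).1]
    exact (hζ i).2
  rw [e1, eval_fr]
  refine (KAL.abs_eval_le_Psi Q d.h0 _).trans ?_
  refine (hL Q hQ _ (d.box2 hN hω hl hll hB hx (ha 0) (ha 1))).trans ?_
  calc _ ≤ H₀ * 1 := mul_le_mul_of_nonneg_left
        (mx_le zero_le_one fun ω' h => h1 ω' h.1 h.2.1 h.2.2.1) hH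
    _ = H₀ := mul_one _

theorem lf_congr (κ : d.V) {b b' : ℕ → ℝ} (h : ∀ i < 3, b i = b' i) : d.lf κ b = d.lf κ b' := by
  have h1 : tr3 b = tr3 b' := by
    funext i
    by_cases hi : i < 3
    · rw [tr3_lt hi, tr3_lt hi, h i hi]
    · unfold tr3 unF
      rw [dif_neg hi, dif_neg hi]
  funext o
  cases o with
  | none =>
    show 2 ^ ⌊N.w1 * J⌋₊ * eval b (d.P κ 3) = 2 ^ ⌊N.w1 * J⌋₊ * eval b' (d.P κ 3)
    rw [← eval_tr3 (d.lab.tri κ 3), h1, eval_tr3 (d.lab.tri κ 3)]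
  | some i =>
    show 2 ^ ⌊N.w1 * J⌋₊ * b i.val = 2 ^ ⌊N.w1 * J⌋₊ * b' i.val
    rw [h i.val i.2]

/-- **(b)** -/
theorem fr_b (hN : d.Nms) {ω : F.Ω} (hω : A ω) {D q : ℕ} {H ε : ℝ} (hH : 1 ≤ H) (hε : 0 ≤ ε)
    (hHε : 32 * H * ε ≤ 1) (hL : d.Lr D q H ω) {Q : MvPolynomial (Option (Fin 3)) ℝ}
    (hQ : Q.totalDegree ≤ D)
    (hvar : ∀ ω', A ω' → 0 < F.p ω' → d.κ ω' = d.κ ω →
      Psi Q d.h0 (d.zs ω') ≤ |eval (d.zs ω') Q| + ε)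
    (hbig : ∃ ω', A ω' ∧ 0 < F.p ω' ∧ d.κ ω' = d.κ ω ∧ 1 / 2 ≤ |eval (d.zs ω') Q|)
    (hWq : ⌊N.w0 * J⌋₊ + q ≤ J) (hGq : (1 + |d.pl ω 2|) * 2 ^ (d.G0 + q) ≤ 2 ^ J) :
    ∃ x η ζ : ℝ, |x - d.s ω| ≤ 1 / 2 ^ q ∧ |η| ≤ 3 / 2 ^ q ∧ |ζ| ≤ (2 + |d.Ez ω|) / 2 ^ q ∧
      1 / (16 * H) ≤ |eval (Fin.cons x ![η, ζ] : Fin (2 + 1) → ℝ) (d.fr ω (d.κ ω) Q)| := by
  haveI : Nonempty F.Ω := ⟨ω⟩
  have hH0 : 0 < H := by linarith
  have hpx0 : ∀ ω' : F.Ω, ∀ l < 3, |px c (ptr F J ω') l - px c (ptr F J ω') l| ≤ 2 / 2 ^ J := by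
    intro ω' l _
    rw [sub_self, abs_zero]
    positivity
  obtain ⟨ω₁, hA1, hp1, hκ1, hb1⟩ := hbig
  -- a sample in the cell
  have h1 : ∃ ω', (A ω' ∧ 0 < F.p ω' ∧ d.κ ω' = d.κ ω ∧ d.cel q ω' = d.cel q ω) ∧
      1 / (8 * H) < Psi Q d.h0 (d.zs ω') := by
    by_contra hcon
    push Not at hcon
    have a1 := psi_var Q d.h0_pos (x := d.zs ω₁) (y := d.lf (d.κ ω₁) (px c (ptr F J ω₁)))
      (d.lf_near hN hA1 (hpx0 ω₁)) (hvar ω₁ hA1 hp1 hκ1)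
    have a2 := hL Q hQ (px c (ptr F J ω₁)) (by
      rw [← hκ1]
      exact (d.pos_bx hN hA1).mono (by norm_num) le_rfl)
    rw [← hκ1] at a2
    have a3 := KAL.abs_eval_le_Psi Q d.h0 (d.lf (d.κ ω₁) (px c (ptr F J ω₁)))
    have a4 : mx (fun ω' => A ω' ∧ 0 < F.p ω' ∧ d.κ ω' = d.κ ω₁ ∧
        d.cel q ω' = d.cel q ω) (fun ω' => Psi Q d.h0 (d.zs ω')) ≤ 1 / (8 * H) := by
      refine mx_le (by positivity) fun ω' h => ?_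
      rw [hκ1] at h
      exact hcon ω' h
    have a5 := mul_le_mul_of_nonneg_left a4 hH0.le
    have e1 : H * (1 / (8 * H)) = 1 / 8 := by field_simp
    rw [e1] at a5
    have a6 := abs_sub_abs_le_abs_sub (eval (d.zs ω₁) Q)
      (eval (d.lf (d.κ ω₁) (px c (ptr F J ω₁))) Q)
    rw [abs_sub_comm] at a6
    have a7 : ε ≤ 1 / 32 := by nlinarith
    linarith
  obtain ⟨ω', ⟨hA', hp', hκ', hcel⟩, hbig'⟩ := h1
  have hv' := hvar ω' hA' hp' hκ'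
  have b1 := psi_var Q d.h0_pos (x := d.zs ω') (y := d.lf (d.κ ω') (px c (ptr F J ω')))
    (d.lf_near hN hA' (hpx0 ω')) hv'
  have b2 := abs_sub_abs_le_abs_sub (eval (d.zs ω') Q)
    (eval (d.lf (d.κ ω') (px c (ptr F J ω'))) Q)
  rw [abs_sub_comm] at b2
  have b3 : 2 * ε ≤ 1 / (16 * H) := by
    rw [le_div_iff₀ (by positivity)]
    linarith
  have e0 : 1 / (8 * H) = 1 / (16 * H) + 1 / (16 * H) := by
    field_simp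
    norm_num
  have b4 : 1 / (16 * H) ≤ |eval (d.lf (d.κ ω') (px c (ptr F J ω'))) Q| := by linarith
  -- the relative coordinates
  have hpl : d.pl ω' = d.pl ω := by
    unfold pl
    rw [d.prz ω' hA', d.prz ω hω]
    have : d.z (ptr F J ω') = d.z (ptr F J ω) := hκ'
    rw [this]
  unfold cel at hcel
  rw [Prod.mk.injEq, Prod.mk.injEq] at hcel
  obtain ⟨c1, c2, c3⟩ := hcel
  have c1 := fl_cl c1
  have c2 := fl_cl c2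
  have c3 := fl_cl c3
  rw [hpl] at c3
  rw [px_t, px_t] at c1 c3
  have hd0 := F.dir ω (c 0)
  obtain ⟨t', ht'⟩ : ∃ t', t' = F.t ω' := ⟨_, rfl⟩
  obtain ⟨t, ht⟩ : ∃ t, t = F.t ω := ⟨_, rfl⟩
  obtain ⟨y', hy'⟩ : ∃ y', y' = px c (ptr F J ω') 1 := ⟨_, rfl⟩
  obtain ⟨z', hz'⟩ : ∃ z', z' = px c (ptr F J ω') 2 := ⟨_, rfl⟩
  obtain ⟨y, hy⟩ : ∃ y, y = px c (ptr F J ω) 1 := ⟨_, rfl⟩
  obtain ⟨z, hz⟩ : ∃ z, z = px c (ptr F J ω) 2 := ⟨_, rfl⟩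
  have r1 : |y - F.x ω (c 0)| ≤ 1 / 2 ^ J := by
    rw [hy]
    exact px_x c ω 0
  have r2 : |z - F.x ω (c 1)| ≤ 1 / 2 ^ J := by
    rw [hz]
    exact px_x c ω 1
  have hx0 : F.x ω (c 0) = F.u ω (c 0) + t * F.d ω (c 0) := by
    rw [ht]
    rfl
  have hx1 : F.x ω (c 1) = F.u ω (c 1) + t * F.d ω (c 1) := by
    rw [ht]
    rfl
  rw [hx0] at r1
  rw [hx1] at r2
  rw [← ht', ← ht] at c1
  rw [← hy', ← hy] at c2
  rw [← ht', ← ht, ← hy', ← hy, ← hz', ← hz] at c3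
  have p0 : (0 : ℝ) < 2 ^ ⌊N.w0 * J⌋₊ := by positivity
  have pG : (0 : ℝ) < 2 ^ d.G0 := by positivity
  have pq : (0 : ℝ) < 2 ^ q := by positivity
  have pJ : (0 : ℝ) < 2 ^ J := by positivity
  rw [pow_add] at c1 c2 c3 hGq
  obtain ⟨η, hη⟩ : ∃ η : ℝ, η = 2 ^ ⌊N.w0 * J⌋₊ * (y' - (F.u ω (c 0) + t' * F.d ω (c 0))) :=
    ⟨_, rfl⟩
  obtain ⟨ζ, hζ⟩ : ∃ ζ : ℝ, ζ = 2 ^ d.G0 * (z' - (F.u ω (c 1) + t' * F.d ω (c 1)) -
    d.pl ω 2 * (y' - (F.u ω (c 0) + t' * F.d ω (c 0)))) := ⟨_, rfl⟩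
  refine ⟨2 ^ ⌊N.w0 * J⌋₊ * t' - F.T1 ⌊N.w0 * J⌋₊ ω, η, ζ, ?_, ?_, ?_, ?_⟩
  · have e1 : 2 ^ ⌊N.w0 * J⌋₊ * t' - (F.T1 ⌊N.w0 * J⌋₊ ω : ℝ) - d.s ω =
        2 ^ ⌊N.w0 * J⌋₊ * (t' - t) := by
      unfold s
      rw [ht]
      ring
    rw [e1, abs_mul, abs_of_pos p0]
    calc _ ≤ 2 ^ ⌊N.w0 * J⌋₊ * (1 / (2 ^ ⌊N.w0 * J⌋₊ * 2 ^ q)) :=
          mul_le_mul_of_nonneg_left c1 p0.le
      _ = 1 / 2 ^ q := by field_simp
  · rw [hη, abs_mul, abs_of_pos p0]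
    have e1 : y' - (F.u ω (c 0) + t' * F.d ω (c 0)) = (y' - y) +
        (y - (F.u ω (c 0) + t * F.d ω (c 0))) - (t' - t) * F.d ω (c 0) := by ring
    have e2 : |(t' - t) * F.d ω (c 0)| ≤ 1 / (2 ^ ⌊N.w0 * J⌋₊ * 2 ^ q) := by
      rw [abs_mul]
      calc _ ≤ 1 / (2 ^ ⌊N.w0 * J⌋₊ * 2 ^ q) * 1 :=
            mul_le_mul c1 hd0 (abs_nonneg _) (by positivity)
        _ = _ := mul_one _
    have e3 : |y' - (F.u ω (c 0) + t' * F.d ω (c 0))| ≤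
        1 / (2 ^ ⌊N.w0 * J⌋₊ * 2 ^ q) + 1 / 2 ^ J + 1 / (2 ^ ⌊N.w0 * J⌋₊ * 2 ^ q) := by
      rw [e1]
      refine (abs_sub _ _).trans (add_le_add ((abs_add_le _ _).trans (add_le_add c2 r1)) e2)
    have e4 : (1 : ℝ) / 2 ^ J ≤ 1 / (2 ^ ⌊N.w0 * J⌋₊ * 2 ^ q) := by
      rw [← pow_add]
      exact div_le_div_of_nonneg_left zero_le_one (by positivity)
        (pow_le_pow_right₀ one_le_two hWq)
    calc _ ≤ 2 ^ ⌊N.w0 * J⌋₊ * (3 * (1 / (2 ^ ⌊N.w0 * J⌋₊ * 2 ^ q))) :=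
          mul_le_mul_of_nonneg_left (e3.trans (by linarith)) p0.le
      _ = 3 / 2 ^ q := by field_simp
  · have e1 : ζ = 2 ^ d.G0 * ((z' - af (d.pl ω) t' y') - (z - af (d.pl ω) t y)) +
        2 ^ d.G0 * ((z - (F.u ω (c 1) + t * F.d ω (c 1))) -
          d.pl ω 2 * (y - (F.u ω (c 0) + t * F.d ω (c 0)))) -
        2 ^ ⌊N.w0 * J⌋₊ * (t' - t) * d.Ez ω := by
      rw [hζ]
      unfold Ez af
      field_simp
      ring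
    have e2 : |2 ^ d.G0 * ((z' - af (d.pl ω) t' y') - (z - af (d.pl ω) t y))| ≤ 1 / 2 ^ q := by
      rw [abs_mul, abs_of_pos pG]
      calc _ ≤ 2 ^ d.G0 * (1 / (2 ^ d.G0 * 2 ^ q)) := mul_le_mul_of_nonneg_left c3 pG.le
        _ = _ := by field_simp
    have e3 : |2 ^ d.G0 * ((z - (F.u ω (c 1) + t * F.d ω (c 1))) -
          d.pl ω 2 * (y - (F.u ω (c 0) + t * F.d ω (c 0))))| ≤ 1 / 2 ^ q := by
      rw [abs_mul, abs_of_pos pG]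
      have a1 : |(z - (F.u ω (c 1) + t * F.d ω (c 1))) -
          d.pl ω 2 * (y - (F.u ω (c 0) + t * F.d ω (c 0)))| ≤
          1 / 2 ^ J + |d.pl ω 2| * (1 / 2 ^ J) := by
        refine (abs_sub _ _).trans (add_le_add r2 ?_)
        rw [abs_mul]
        exact mul_le_mul_of_nonneg_left r1 (abs_nonneg _)
      refine (mul_le_mul_of_nonneg_left a1 pG.le).trans ?_
      rw [le_div_iff₀ pq]
      have a2 : 2 ^ d.G0 * (1 / 2 ^ J + |d.pl ω 2| * (1 / 2 ^ J)) * 2 ^ q =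
          (1 + |d.pl ω 2|) * (2 ^ d.G0 * 2 ^ q) / 2 ^ J := by ring
      rw [a2, div_le_one pJ]
      exact hGq
    have e4 : |2 ^ ⌊N.w0 * J⌋₊ * (t' - t) * d.Ez ω| ≤ |d.Ez ω| / 2 ^ q := by
      rw [abs_mul, abs_mul, abs_of_pos p0]
      calc _ ≤ 2 ^ ⌊N.w0 * J⌋₊ * (1 / (2 ^ ⌊N.w0 * J⌋₊ * 2 ^ q)) * |d.Ez ω| :=
            mul_le_mul_of_nonneg_right (mul_le_mul_of_nonneg_left c1 p0.le) (abs_nonneg _)
        _ = _ := by field_simp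
    have e5 : (2 + |d.Ez ω|) / 2 ^ q = 1 / 2 ^ q + 1 / 2 ^ q + |d.Ez ω| / 2 ^ q := by ring
    rw [e1, e5]
    exact (abs_sub _ _).trans (add_le_add ((abs_add_le _ _).trans (add_le_add e2 e3)) e4)
  · rw [eval_fr]
    have e1 : d.lf (d.κ ω) (d.rel ω (2 ^ ⌊N.w0 * J⌋₊ * t' - F.T1 ⌊N.w0 * J⌋₊ ω) η ζ) =
        d.lf (d.κ ω') (px c (ptr F J ω')) := by
      rw [hκ']
      refine d.lf_congr _ fun i hi => ?_
      have e2 : ((F.T1 ⌊N.w0 * J⌋₊ ω : ℝ) + (2 ^ ⌊N.w0 * J⌋₊ * t' - F.T1 ⌊N.w0 * J⌋₊ ω)) /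
          2 ^ ⌊N.w0 * J⌋₊ = t' := by
        field_simp
        ring
      rw [rel_eq]
      interval_cases i
      · rw [reg_zero, e2, px_t, ht']
      · rw [reg_one, e2, hη, ← hy']
        show F.u ω (c 0) + t' * F.d ω (c 0) + _ = _
        field_simp
        ring
      · rw [reg_two, e2, hη, hζ, ← hz']
        show F.u ω (c 1) + t' * F.d ω (c 1) + _ + _ = _
        field_simp
        ring
    rw [e1]
    exact b4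

end Dat

end Pool.PLN
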