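import Pool.Agent.H81.PLN.Lrc

/-!
# The cells of a leaf: the chart, the entropy
-/

set_option autoImplicit false

namespace Pool.PLN

open Finset Real MvPolynomial Pool.JMN Pool.JMS
open Pool.Agent.H49.Ent Pool.Agent.H32.Dense Pool.STK Pool.KA Pool.KSAT Pool.K2S Pool.PB Pool.STAT
  Pool.GEN Pool.S6C Pool.M3F Pool.CLO37 Pool.KAF Pool.KS3 Pool.EXS Pool.IEN Pool.KJA
open Pool.KAL (Psi)

namespace Dat

variable {m J : ℕ} {N : Nums} {φ : ℝ} {K : ℕ} {F : Fam m J} {c : ℕ → Fin m} {A : F.Ω → Prop}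
  (d : Dat N φ K F c A)

theorem wid_le (hW : ⌊N.w1 * J⌋₊ ≤ d.g' 2) {i : ℕ} (hi : i < 3) :
    wid ⌊N.w1 * J⌋₊ d.g' i ≤ d.g' 2 := by
  interval_cases i
  · exact hW
  · exact d.srt 0 (by norm_num)
  · exact d.srt 1 (by norm_num)

/-- The points over the box of the label are in the threefold chart. -/
theorem lf_chart (hW : ⌊N.w1 * J⌋₊ ≤ d.g' 2) (κ : d.V) {b : ℕ → ℝ}
    (hb : CLO.Bxr 2 (wid ⌊N.w1 * J⌋₊ d.g') (d.P κ) 3 b) :
    ∃ u ∈ bcube 3, cpt (chw 3 ⌊N.w1 * J⌋₊ (d.g' 2) d.g' (d.P κ)) u = d.lf κ b := by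
  have hP := d.lab.tri κ
  obtain ⟨W, hWe⟩ : ∃ W, W = ⌊N.w1 * J⌋₊ := ⟨_, rfl⟩
  obtain ⟨P₀, hP₀⟩ : ∃ P₀, P₀ = d.g' 2 := ⟨_, rfl⟩
  have hw : ∀ i < 3, wid W d.g' i ≤ P₀ := fun i hi => by
    rw [hWe, hP₀]
    exact d.wid_le hW hi
  unfold lf
  rw [← hWe] at hb hW ⊢
  rw [← hP₀] at hW ⊢
  obtain ⟨y, hy⟩ : ∃ y : Fin 3 → ℝ, y = fun i => 2 ^ W * b i.val := ⟨_, rfl⟩
  have hM0 : (0 : ℝ) < ((2 ^ (P₀ - W) : ℕ) : ℝ) := by positivity
  have hN0 : ∀ i, (0 : ℝ) < ngw W P₀ d.g' 3 i := fun i => by exact_mod_cast ngw_pos W P₀ d.g' 3 i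
  have hrp : ∀ i, rpos (2 ^ (P₀ - W)) (ngw W P₀ d.g' 3) (gsh 3 W P₀ d.g' (d.P κ)) 0 y i =
      (y i - 2 ^ W * eval (unF 3 W y) (d.P κ i)) *
      ((2 ^ (P₀ - W) : ℕ) : ℝ) / ngw W P₀ d.g' 3 i + 1 / 2 := by
    intro i
    have := hN0 i
    unfold rpos
    rw [eval_gsh]
    simp only [Pi.zero_apply, Int.cast_zero, zero_mul, zero_div, sub_zero]
    field_simp
    ring
  refine ⟨rpos (2 ^ (P₀ - W)) (ngw W P₀ d.g' 3) (gsh 3 W P₀ d.g' (d.P κ)) 0 y, ?_, ?_⟩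
  · intro i
    have e1 : eval (unF 3 W y) (d.P κ i) = eval b (d.P κ i) :=
      (eval_eq_unF ((hP i).trans (Finset.range_mono i.2.le)) fun l => by rw [hy]).symm
    have e2 : y i = 2 ^ W * b i.val := by rw [hy]
    rw [hrp, e1, e2, ← mul_sub]
    have h1 := hb i.val i.2
    have h2 := ngw_half (W := W) (P₀ := P₀) (g := d.g') i hW (hw i.val i.2)
    have pW : (0 : ℝ) < 2 ^ W := by positivity
    have h3 : |2 ^ W * (b i.val - eval b (d.P κ i.val))| ≤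
        (ngw W P₀ d.g' 3 i : ℝ) / ((2 ^ (P₀ - W) : ℕ) : ℝ) := by
      rw [abs_mul, abs_of_pos pW]
      have e3 : (ngw W P₀ d.g' 3 i : ℝ) / ((2 ^ (P₀ - W) : ℕ) : ℝ) =
          2 * ((ngw W P₀ d.g' 3 i : ℝ) / (2 * ((2 ^ (P₀ - W) : ℕ) : ℝ))) := by
        field_simp
      rw [e3, h2]
      have h4 : 2 ^ W * |b i.val - eval b (d.P κ i.val)| ≤ 2 ^ W * (2 / 2 ^ wid W d.g' i) :=
        mul_le_mul_of_nonneg_left h1 pW.le
      have h5 : 0 < 1 / ((2 ^ (P₀ - W) : ℕ) : ℝ) := by positivity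
      have e4 : 2 ^ W * (2 / 2 ^ wid W d.g' i.val) =
          2 * ((2 : ℝ) ^ W / 2 ^ wid W d.g' i.val) := by ring
      rw [e4] at h4
      linarith
    have h6 : |2 ^ W * (b i.val - eval b (d.P κ i.val)) * ((2 ^ (P₀ - W) : ℕ) : ℝ) /
        ngw W P₀ d.g' 3 i| ≤ 1 := by
      rw [abs_div, abs_mul, abs_of_pos hM0, abs_of_pos (hN0 i), div_le_one (hN0 i)]
      rwa [le_div_iff₀ hM0] at h3
    rw [abs_le] at h6
    constructor <;> linarith [h6.1, h6.2]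
  · rw [cpt_chw hP]
    have e1 : cbw 3 W P₀ d.g' (d.P κ)
        (rpos (2 ^ (P₀ - W)) (ngw W P₀ d.g' 3) (gsh 3 W P₀ d.g' (d.P κ)) 0 y) = y :=
      nchi_rpos Nat.one_le_two_pow (ngw_pos W P₀ d.g' 3) (triP_gsh hP) y
    rw [e1]
    funext o
    cases o with
    | none =>
      show eval y (toF 3 W (d.P κ 3)) = 2 ^ W * eval b (d.P κ 3)
      rw [eval_toF]
      congr 1
      exact (eval_eq_unF (hP 3) fun l => by rw [hy]).symm
    | some i =>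
      show y i = 2 ^ W * b i.val
      rw [hy]

/-- The entropy of the cell given the label. -/
theorem cel_ch (hN : d.Nms) (hP : IsLaw (pA F A)) (q : ℕ)
    (hG : ∀ ω, A ω → (1 + |d.pl ω 2|) * 2 ^ d.G0 ≤ 2 ^ J) :
    CH (pA F A) (d.cel q) (fun ω => d.z (K2S.Fam.pt F ω)) ≤
      3 * (q * Real.log 2 + Real.log 21 + d.kap * Real.log 2 + Real.log (1 + d.L)) := by
  have hL := d.L0
  obtain ⟨Lc, hLc⟩ : ∃ Lc : ℝ, Lc = 2 ^ q * (2 * 2 ^ d.kap + 3 * d.L + 4) + 1 := ⟨_, rfl⟩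
  have hk1 : (1 : ℝ) ≤ 2 ^ d.kap := one_le_pow₀ one_le_two
  have hq1 : (1 : ℝ) ≤ 2 ^ q := one_le_pow₀ one_le_two
  have hLc0 : 0 ≤ Lc := by
    rw [hLc]
    positivity
  have hfl : ∀ x y : ℝ, |((⌊x⌋ - ⌊y⌋ : ℤ) : ℝ)| ≤ |x - y| + 1 := by
    intro x y
    have a1 := Int.floor_le x
    have a2 := Int.lt_floor_add_one x
    have a3 := Int.floor_le y
    have a4 := Int.lt_floor_add_one y
    have a5 := abs_le.1 (le_refl |x - y|)
    push_cast
    rw [abs_le]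
    constructor <;> linarith [a5.1, a5.2]
  have hcell : ∀ ω ω', 0 < pA F A ω → 0 < pA F A ω' →
      d.z (K2S.Fam.pt F ω) = d.z (K2S.Fam.pt F ω') → ∀ k : Fin 3,
      |(((![(d.cel q ω).1, (d.cel q ω).2.1, (d.cel q ω).2.2] : Fin 3 → ℤ) k -
        (![(d.cel q ω').1, (d.cel q ω').2.1, (d.cel q ω').2.2] : Fin 3 → ℤ) k : ℤ) : ℝ)| ≤ Lc := by
    intro ω ω' hω hω' hz
    have hA := (pA_pos hω).1
    have hA' := (pA_pos hω').1
    have hκ : d.κ ω = d.κ ω' := hz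
    have hpl : d.pl ω = d.pl ω' := by
      unfold pl
      rw [d.prz ω hA, d.prz ω' hA']
      have : d.z (ptr F J ω) = d.z (ptr F J ω') := hκ
      rw [this]
    have ht := t_win F hN.w1J (d.T1_κ hA hA' hκ)
    have p0 : (0 : ℝ) < 2 ^ ⌊N.w0 * J⌋₊ := by positivity
    have p1 : (0 : ℝ) < 2 ^ ⌊N.w1 * J⌋₊ := by positivity
    have pG : (0 : ℝ) < 2 ^ d.G0 := by positivity
    have pJ : (0 : ℝ) < 2 ^ J := by positivity
    have p01 : (2 : ℝ) ^ ⌊N.w0 * J⌋₊ ≤ 2 ^ ⌊N.w1 * J⌋₊ := pow_le_pow_right₀ one_le_two hN.w01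
    have w01 : (2 : ℝ) ^ ⌊N.w0 * J⌋₊ / 2 ^ ⌊N.w1 * J⌋₊ ≤ 1 := (div_le_one p1).2 p01
    have c1 : |(2 : ℝ) ^ (⌊N.w0 * J⌋₊ + q) * px c (ptr F J ω) 0 -
        (2 : ℝ) ^ (⌊N.w0 * J⌋₊ + q) * px c (ptr F J ω') 0| ≤ 2 ^ q := by
      rw [px_t, px_t, ← mul_sub, abs_mul, abs_of_pos (by positivity), pow_add]
      calc 2 ^ ⌊N.w0 * J⌋₊ * 2 ^ q * |F.t ω - F.t ω'| ≤
            2 ^ ⌊N.w0 * J⌋₊ * 2 ^ q * (1 / 2 ^ ⌊N.w1 * J⌋₊) :=
            mul_le_mul_of_nonneg_left ht (by positivity)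
        _ = 2 ^ q * (2 ^ ⌊N.w0 * J⌋₊ / 2 ^ ⌊N.w1 * J⌋₊) := by ring
        _ ≤ 2 ^ q * 1 := mul_le_mul_of_nonneg_left w01 (by positivity)
        _ = _ := mul_one _
    have c2 : |(2 : ℝ) ^ (⌊N.w0 * J⌋₊ + q) * px c (ptr F J ω) 1 -
        (2 : ℝ) ^ (⌊N.w0 * J⌋₊ + q) * px c (ptr F J ω') 1| ≤
        2 ^ q * (2 * 2 ^ d.kap + 3 * d.L) := by
      rw [← mul_sub, abs_mul, abs_of_pos (by positivity), pow_add]
      have a1 := d.pos_bx hN hA 1 (by norm_num)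
      have a2 := d.pos_bx hN hA' 1 (by norm_num)
      rw [hκ] at a1
      have a3 : |eval (px c (ptr F J ω)) (d.P (d.κ ω') 1) -
          eval (px c (ptr F J ω')) (d.P (d.κ ω') 1)| ≤ 3 * d.L * (1 / 2 ^ ⌊N.w1 * J⌋₊) := by
        obtain ⟨b, hb⟩ : ∃ b : ℕ → ℝ, b = fun l => if l = 0 then px c (ptr F J ω) 0 else
          px c (ptr F J ω') l := ⟨_, rfl⟩
        have b1 : eval (px c (ptr F J ω)) (d.P (d.κ ω') 1) = eval b (d.P (d.κ ω') 1) := by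
          refine eval₂Hom_congr' rfl ?_ rfl
          intro l hl _
          have hl' := Finset.mem_range.1 (d.lab.tri _ 1 hl)
          have : l = 0 := by omega
          rw [hb, this]
          simp
        rw [b1]
        refine pn_mv ((d.lab.tri _ 1).trans (Finset.range_mono (by norm_num)))
          (fun l hl => ?_) hL (fun t _ l _ => d.aff_le hN hA' (by norm_num) l _)
        rw [hb]
        by_cases h0 : l = 0
        · simp only [h0, if_true]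
          rw [px_t, px_t]
          exact ht
        · simp only [h0, if_false, sub_self, abs_zero]
          positivity
      have a4 : |px c (ptr F J ω) 1 - px c (ptr F J ω') 1| ≤
          2 * (1 / 2 ^ d.g' 0) + 3 * d.L * (1 / 2 ^ ⌊N.w1 * J⌋₊) := by
        have e1 : wid ⌊N.w1 * J⌋₊ d.g' 1 = d.g' 0 := rfl
        rw [e1] at a1 a2
        rw [abs_le] at a1 a2 a3 ⊢
        constructor <;> linarith [a1.1, a1.2, a2.1, a2.2, a3.1, a3.2]
      have a5 : (2 : ℝ) ^ ⌊N.w0 * J⌋₊ / 2 ^ d.g' 0 ≤ 2 ^ d.kap := by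
        rw [div_le_iff₀ (by positivity), ← pow_add]
        refine pow_le_pow_right₀ one_le_two ?_
        have h1 := d.win 1 (by norm_num)
        have e1 : wid ⌊N.w1 * J⌋₊ d.g' 1 = d.g' 0 := rfl
        rw [e1] at h1
        have h2 := hN.w01
        omega
      calc 2 ^ ⌊N.w0 * J⌋₊ * 2 ^ q * |px c (ptr F J ω) 1 - px c (ptr F J ω') 1| ≤
            2 ^ ⌊N.w0 * J⌋₊ * 2 ^ q *
              (2 * (1 / 2 ^ d.g' 0) + 3 * d.L * (1 / 2 ^ ⌊N.w1 * J⌋₊)) :=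
            mul_le_mul_of_nonneg_left a4 (by positivity)
        _ = 2 ^ q * (2 * (2 ^ ⌊N.w0 * J⌋₊ / 2 ^ d.g' 0) +
              3 * d.L * (2 ^ ⌊N.w0 * J⌋₊ / 2 ^ ⌊N.w1 * J⌋₊)) := by ring
        _ ≤ 2 ^ q * (2 * 2 ^ d.kap + 3 * d.L * 1) := by
            refine mul_le_mul_of_nonneg_left (add_le_add ?_ ?_) (by positivity)
            · exact mul_le_mul_of_nonneg_left a5 (by norm_num)
            · exact mul_le_mul_of_nonneg_left w01 (by positivity)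
        _ = _ := by rw [mul_one]
    have hr : ∀ ω, A ω → |px c (ptr F J ω) 2 -
        af (d.pl ω) (px c (ptr F J ω) 0) (px c (ptr F J ω) 1)| ≤ 2 / 2 ^ d.G0 := by
      intro ω hω
      have a1 := d.pos0 ω hω
      have a2 := px_x c ω 1
      have a3 := px_x c ω 0
      have e1 : px c (ptr F J ω) 2 - af (d.pl ω) (px c (ptr F J ω) 0) (px c (ptr F J ω) 1) =
          (px c (ptr F J ω) (1 + 1) - F.x ω (c 1)) - d.pl ω 2 *
          (px c (ptr F J ω) (0 + 1) - F.x ω (c 0)) +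
          (F.x ω (c 1) - af (d.a (d.zz (ptr F J ω))) (F.t ω) (F.x ω (c 0))) := by
        rw [px_t]
        unfold af pl
        ring
      rw [e1]
      have a4 : |(px c (ptr F J ω) (1 + 1) - F.x ω (c 1)) - d.pl ω 2 *
          (px c (ptr F J ω) (0 + 1) - F.x ω (c 0))| ≤ 1 / 2 ^ d.G0 := by
        have b1 : |(px c (ptr F J ω) (1 + 1) - F.x ω (c 1)) - d.pl ω 2 *
            (px c (ptr F J ω) (0 + 1) - F.x ω (c 0))| ≤ 1 / 2 ^ J + |d.pl ω 2| * (1 / 2 ^ J) := by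
          refine (abs_sub _ _).trans (add_le_add a2 ?_)
          rw [abs_mul]
          exact mul_le_mul_of_nonneg_left a3 (abs_nonneg _)
        refine b1.trans ?_
        rw [le_div_iff₀ pG]
        have b2 : (1 / 2 ^ J + |d.pl ω 2| * (1 / 2 ^ J)) * 2 ^ d.G0 =
            (1 + |d.pl ω 2|) * 2 ^ d.G0 / 2 ^ J := by ring
        rw [b2, div_le_one pJ]
        exact hG ω hω
      have e2 : (2 : ℝ) / 2 ^ d.G0 = 1 / 2 ^ d.G0 + 1 / 2 ^ d.G0 := by ring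
      rw [e2]
      exact (abs_add_le _ _).trans (add_le_add a4 a1)
    have c3 : |(2 : ℝ) ^ (d.G0 + q) * (px c (ptr F J ω) 2 -
        af (d.pl ω) (px c (ptr F J ω) 0) (px c (ptr F J ω) 1)) -
        (2 : ℝ) ^ (d.G0 + q) * (px c (ptr F J ω') 2 -
        af (d.pl ω') (px c (ptr F J ω') 0) (px c (ptr F J ω') 1))| ≤ 2 ^ q * 4 := by
      rw [← mul_sub, abs_mul, abs_of_pos (by positivity), pow_add]
      have a1 := (abs_sub (px c (ptr F J ω) 2 -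
        af (d.pl ω) (px c (ptr F J ω) 0) (px c (ptr F J ω) 1)) (px c (ptr F J ω') 2 -
        af (d.pl ω') (px c (ptr F J ω') 0) (px c (ptr F J ω') 1))).trans
        (add_le_add (hr ω hA) (hr ω' hA'))
      calc _ ≤ 2 ^ d.G0 * 2 ^ q * (2 / 2 ^ d.G0 + 2 / 2 ^ d.G0) :=
            mul_le_mul_of_nonneg_left a1 (by positivity)
        _ = _ := by
            field_simp
            ring
    have hx : (2 : ℝ) ^ q * (2 * 2 ^ d.kap + 3 * d.L + 4) =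
        2 ^ q * (2 * 2 ^ d.kap + 3 * d.L) + 2 ^ q * 4 := by ring
    have hy0 : 0 ≤ (2 : ℝ) ^ q * (2 * 2 ^ d.kap + 3 * d.L) := by positivity
    intro k
    fin_cases k
    · exact (hfl _ _).trans (by rw [hLc]; linarith)
    · exact (hfl _ _).trans (by rw [hLc]; linarith)
    · exact (hfl _ _).trans (by rw [hLc]; linarith)
  have h1 := CH_le_vec hP.nonneg hP.sum_one
    (fun ω => (![(d.cel q ω).1, (d.cel q ω).2.1, (d.cel q ω).2.2] : Fin 3 → ℤ))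
    (fun ω => d.z (K2S.Fam.pt F ω)) (fun _ => Lc) hcell
  have h2 : CH (pA F A) (d.cel q) (fun ω => d.z (K2S.Fam.pt F ω)) =
      CH (pA F A) (fun ω => (![(d.cel q ω).1, (d.cel q ω).2.1, (d.cel q ω).2.2] : Fin 3 → ℤ))
        (fun ω => d.z (K2S.Fam.pt F ω)) := by
    refine CH_congr hP.nonneg ?_ ?_ (fun _ _ _ _ h => h) (fun _ _ _ _ h => h)
    · intro ω ω' _ _ h
      have e1 : d.cel q ω = d.cel q ω' := (Prod.ext_iff.1 h).1
      simp only [e1]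
    · intro ω ω' _ _ h
      have e1 := congrFun (Prod.ext_iff.1 h).1 0
      have e2 := congrFun (Prod.ext_iff.1 h).1 1
      have e3 := congrFun (Prod.ext_iff.1 h).1 2
      exact Prod.ext e1 (Prod.ext e2 e3)
  rw [h2]
  refine h1.trans ?_
  rw [Ex_const hP.sum_one]
  push_cast
  refine mul_le_mul_of_nonneg_left ?_ (by norm_num)
  have h3 : 2 * Lc + 1 ≤ 2 ^ q * 21 * 2 ^ d.kap * (1 + d.L) := by
    rw [hLc]
    have b1 : (1 : ℝ) ≤ 2 ^ q * 2 ^ d.kap := one_le_mul_of_one_le_of_one_le hq1 hk1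
    have b2 : (2 : ℝ) ^ q ≤ 2 ^ q * 2 ^ d.kap := le_mul_of_one_le_right (by positivity) hk1
    have b3 : (2 : ℝ) ^ q * d.L ≤ 2 ^ q * 2 ^ d.kap * d.L :=
      mul_le_mul_of_nonneg_right b2 hL
    nlinarith
  have h4 : 0 < 2 * Lc + 1 := by linarith
  calc Real.log (2 * Lc + 1) ≤ Real.log (2 ^ q * 21 * 2 ^ d.kap * (1 + d.L)) :=
        Real.log_le_log h4 h3
    _ = _ := by
        rw [Real.log_mul (by positivity) (by positivity),
          Real.log_mul (by positivity) (by positivity),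
          Real.log_mul (by positivity) (by positivity), Real.log_pow, Real.log_pow]

end Dat

end Pool.PLN
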