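import Pool.Agent.H81.PLN.Det

/-!
# Lemma PLANE: (POLY) for a member, and the typical times
-/

set_option autoImplicit false

namespace Pool.PLN

open Finset Real MvPolynomial Pool.JMN Pool.JMS
open Pool.Agent.H49.Ent Pool.Agent.H32.Dense Pool.STK Pool.KA Pool.KSAT Pool.K2S Pool.PB Pool.STAT
  Pool.GEN Pool.S6C Pool.M3F Pool.CLO37 Pool.KAF Pool.KS3 Pool.EXS
open Pool.KAL (Psi exists_line)

/-- **(POLY)**, the deterministic part. -/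
theorem pol_det (D K' : ℕ) : ∃ C : ℝ, 1 ≤ C ∧ ∀ {m J : ℕ} {N : Nums} {φ : ℝ} {K : ℕ}
    {F : Fam m J} {c : ℕ → Fin m} {A : F.Ω → Prop} (d : Dat N φ K F c A), d.Nms →
    ∀ {n : ℕ} {Q : MvPolynomial (Option (Fin 3)) ℝ} {ε H₀ Hq Hd H' lam lam₀ rho B₀ εf ν : ℝ}
    {q₀ q : ℕ} {v : Fin (n + 1) → F.Ω} {i j : Fin (n + 1)},
    (K + 1) * D ≤ K' → D ≤ K' → 0 < lam → 8 * lam ≤ lam₀ →
    lam ≤ 2 ^ ⌊N.w0 * J⌋₊ / 2 ^ ⌊N.w1 * J⌋₊ → 0 ≤ H₀ → 1 ≤ Hq → 0 ≤ ε → 32 * Hq * ε ≤ 1 →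
    0 ≤ H' → 0 < ν → ν * (C * H₀) ≤ 1 → B₀ ≤ ν / (16 * Hq) →
    (3 + |d.Ez (v j)|) / 2 ^ q ≤ rho →
    ν * (H' * (C * (2 ^ ⌊N.w1 * J⌋₊ / 2 ^ ⌊N.w0 * J⌋₊) ^ D * (H' * ε) + 2 * ε)) ≤ εf →
    ⌊N.w0 * J⌋₊ + q ≤ J → (1 + |d.pl (v j) 2|) * 2 ^ (d.G0 + q) ≤ 2 ^ J →
    0 < pn F A ⌊N.w0 * J⌋₊ n v → d.Box lam₀ (v j) → d.Lr D q₀ H₀ (v j) →
    d.Lr D q Hq (v j) → Q.totalDegree ≤ D →
    (∀ ω, A ω → 0 < F.p ω → d.κ ω = d.κ (v i) → Psi Q d.h0 (d.zs ω) ≤ ε) →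
    (∀ ω, A ω → 0 < F.p ω → d.κ ω = d.κ (v j) → Psi Q d.h0 (d.zs ω) ≤ 1 ∧
      Psi Q d.h0 (d.zs ω) ≤ |eval (d.zs ω) Q| + ε) →
    (∃ ω, A ω ∧ 0 < F.p ω ∧ d.κ ω = d.κ (v j) ∧ 1 / 2 ≤ |eval (d.zs ω) Q|) →
    Dmt K' Hd lam (d.fr (v j) (d.κ (v j)) Q) (d.s (v j)) →
    d.Pol K' lam rho Hd H' B₀ εf v i j := by
  obtain ⟨C₁, hC₁, hpa⟩ := pol_a 2 K'
  obtain ⟨C₂, hC₂, hcc⟩ := pol_cc D
  refine ⟨C₁ + C₂, by linarith, ?_⟩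
  intro m J N φ K F c A d hN n Q ε H₀ Hq Hd H' lam lam₀ rho B₀ εf ν q₀ q v i j hK hDK hlam hll
    hl1 hH0 hHq hε hHε hH' hν hνH hB₀ hrho hεf hWq hGq hv hbox hL0 hLq hQ hsm hvar hbig hdmt
  have hp0 : ∀ ω, 0 ≤ pA F A ω := cond_nonneg F.isLaw.nonneg A True
  have hvA : A (v j) := (Dat.pA_pos (Pool.KSM.iid_pos hp0 hv j).1).1
  set f := d.fr (v j) (d.κ (v j)) Q with hf
  have hfd : f.totalDegree ≤ K' := d.fr_deg _ _ hQ hK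
  have hEv : ∀ x η ζ : ℝ, Ev (fun a => Polynomial.C ν * slp K' f a) x η ζ =
      ν * eval (Fin.cons x ![η, ζ] : Fin (2 + 1) → ℝ) f := by
    intro x η ζ
    rw [← Ev_slp hfd]
    unfold Ev
    rw [Finset.mul_sum]
    refine Finset.sum_congr rfl fun a _ => ?_
    rw [Polynomial.eval_mul, Polynomial.eval_C]
    ring
  have hq0 : (0 : ℝ) < 2 ^ q := by positivity
  refine ⟨fun a => Polynomial.C ν * slp K' f a, ?_, ?_, ?_, ?_, ?_⟩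
  · intro a
    exact (Polynomial.natDegree_C_mul_le _ _).trans (slp_deg K' f a)
  · intro a x hx
    have h1 := hpa f (d.s (v j)) lam H₀ hfd hlam (fun x ζ hx hζ =>
      d.fr_a hN hvA hlam hll hbox hH0 hL0 hQ (fun ω' h1 h2 h3 => (hvar ω' h1 h2 h3).1) x ζ hx hζ)
      a x hx
    have e1 : JMN.tdg a = (a 0 : ℕ) + a 1 := by
      unfold JMN.tdg
      rw [Fin.sum_univ_two]
    rw [e1] at h1
    show |(Polynomial.C ν * slp K' f a).eval x| * _ ≤ 1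
    rw [Polynomial.eval_mul, Polynomial.eval_C, abs_mul, abs_of_pos hν, mul_assoc]
    refine (mul_le_mul_of_nonneg_left h1 hν.le).trans (le_trans ?_ hνH)
    refine mul_le_mul_of_nonneg_left (mul_le_mul_of_nonneg_right ?_ hH0) hν.le
    linarith
  · obtain ⟨x, η, ζ, h1, h2, h3, h4⟩ := d.fr_b hN hvA hHq hε hHε hLq hQ
      (fun ω' a1 a2 a3 => (hvar ω' a1 a2 a3).2) hbig hWq hGq
    have hE := abs_nonneg (d.Ez (v j))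
    refine ⟨x, η, ζ, h1.trans (le_trans ?_ hrho), h2.trans (le_trans ?_ hrho),
      h3.trans (le_trans ?_ hrho), ?_⟩
    · exact div_le_div_of_nonneg_right (by linarith) hq0.le
    · exact div_le_div_of_nonneg_right (by linarith) hq0.le
    · exact div_le_div_of_nonneg_right (by linarith) hq0.le
    · rw [hEv, abs_mul, abs_of_pos hν]
      refine hB₀.trans ?_
      calc ν / (16 * Hq) = ν * (1 / (16 * Hq)) := by ring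
        _ ≤ _ := mul_le_mul_of_nonneg_left h4 hν.le
  · intro a x hx
    show |(Polynomial.C ν * slp K' f a).eval x| ≤
      Hd * |(Polynomial.C ν * slp K' f a).eval (d.s (v j))|
    rw [Polynomial.eval_mul, Polynomial.eval_C, abs_mul, Polynomial.eval_mul, Polynomial.eval_C,
      abs_mul]
    have h1 := mul_le_mul_of_nonneg_left (hdmt a x hx) (abs_nonneg ν)
    linarith
  · intro u hu hwi hwj hκi hκj k hpt x hx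
    rw [hEv, abs_mul, abs_of_pos hν]
    have h1 := hcc d hN hQ hK hDK hε hH' hv hu hsm (fun ω a1 a2 a3 => (hvar ω a1 a2 a3).2)
      hwi hwj hκi hκj hpt (hx.trans hl1)
    refine (mul_le_mul_of_nonneg_left h1 hν.le).trans (le_trans ?_ hεf)
    refine mul_le_mul_of_nonneg_left (mul_le_mul_of_nonneg_left ?_ hH') hν.le
    have h2 : 0 ≤ (2 ^ ⌊N.w1 * J⌋₊ / 2 ^ ⌊N.w0 * J⌋₊ : ℝ) ^ D * (H' * ε) := by positivity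
    nlinarith

/-! ### (d) -/

variable {m J : ℕ}

/-- The time in the window, exactly. -/
theorem tim_ex (F : Fam m J) {W : ℕ} (hW : W ≤ J) (ω : F.Ω) :
    2 ^ W * F.t ω = (F.T1 W ω : ℝ) + (tdg W J (K2S.Fam.pt F ω) : ℝ) / ((2 ^ (J - W) : ℕ) : ℝ) := by
  have h1 : F.T ω = 2 ^ (J - W) * F.T1 W ω + tdg W J (K2S.Fam.pt F ω) := by
    have h2 : tdg W J (K2S.Fam.pt F ω) = F.T ω % 2 ^ (J - W) := by
      show F.T ω / 2 ^ (J - J) % 2 ^ (J - W) = _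
      rw [Nat.sub_self, pow_zero, Nat.div_one]
    rw [h2]
    exact (Nat.div_add_mod _ _).symm
  have h3 : (F.T ω : ℝ) = 2 ^ (J - W) * F.T1 W ω + tdg W J (K2S.Fam.pt F ω) := by
    exact_mod_cast h1
  unfold Fam.t
  rw [h3]
  have h4 : (2 : ℝ) ^ J = 2 ^ (J - W) * 2 ^ W := by
    rw [← pow_add]
    congr 1
    omega
  rw [h4]
  push_cast
  field_simp

theorem ms_pe {Ω : Type} [Fintype Ω] (p : Ω → ℝ) (A : Ω → Prop) : IEN.ms p A = Pe p A := by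
  classical
  rw [Pe_eq]
  exact IEN.ms_eq _ _ _

theorem tdg_lt (F : Fam m J) (W : ℕ) (ω : F.Ω) : tdg W J (K2S.Fam.pt F ω) < 2 ^ (J - W) :=
  Nat.mod_lt _ (by positivity)

open Pool.KSM in
/-- **(d)** for a member. -/
theorem dmt_fam (D K' : ℕ) : ∃ C : ℝ, 1 ≤ C ∧ ∀ {m J : ℕ} {N : Nums} {φ : ℝ} {K : ℕ}
    {F : Fam m J} {c : ℕ → Fin m} {A : F.Ω → Prop} (d : Dat N φ K F c A), d.Nms →
    IsLaw (pA F A) → ∀ {n : ℕ} (Qc : d.V → d.V → MvPolynomial (Option (Fin 3)) ℝ)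
    {i j : Fin (n + 1)} {h : ℝ}, i ≠ j →
    (∀ κ κ', (Qc κ κ').totalDegree ≤ D) → (K + 1) * D ≤ K' → 0 < h →
    C * Real.exp h ≤ ((2 ^ (J - ⌊N.w1 * J⌋₊) : ℕ) : ℝ) →
    Pe (pn F A ⌊N.w0 * J⌋₊ n) (fun v =>
      ¬ Dmt K' (C * Real.exp h) (2 ^ ⌊N.w0 * J⌋₊ / 2 ^ ⌊N.w1 * J⌋₊)
        (d.fr (v j) (d.κ (v j)) (Qc (d.κ (v i)) (d.κ (v j)))) (d.s (v j))) ≤
      C * ((Real.log ((2 ^ (J - ⌊N.w1 * J⌋₊) : ℕ) : ℝ) -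
        CH (pA F A) (fun ω => tdg ⌊N.w1 * J⌋₊ J (K2S.Fam.pt F ω)) (slam F ⌊N.w1 * J⌋₊)) + 1) / h := by
  obtain ⟨C, hC, hpd⟩ := pol_d 2 K'
  refine ⟨C, hC, ?_⟩
  intro m J N φ K F c A d hN hP n Qc i j h hij hQc hK hh hCh
  -- two samples at least
  obtain ⟨n', rfl⟩ : ∃ n', n = n' + 1 := by
    rcases n with _ | n'
    · exact absurd (Fin.ext (by omega)) hij
    · exact ⟨n', rfl⟩
  obtain ⟨i', hi'⟩ : ∃ i', j.succAbove i' = i := Fin.exists_succAbove_eq hij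
  have hp0 := hP.nonneg
  have hdet : Det (pA F A) (slam F ⌊N.w1 * J⌋₊) (slam F ⌊N.w0 * J⌋₊) := by
    intro a b _ _ h
    have e1 : F.l a = F.l b := (Prod.ext_iff.1 h).1
    have e2 : F.Z a = F.Z b := (Prod.ext_iff.1 (Prod.ext_iff.1 h).2).1
    have e3 : F.T1 ⌊N.w1 * J⌋₊ a = F.T1 ⌊N.w1 * J⌋₊ b :=
      (Prod.ext_iff.1 (Prod.ext_iff.1 h).2).2
    have e4 := T1_of F hN.w01 hN.w1J e3
    unfold slam
    rw [e1, e2, e4]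
  have hch := iid_CH hP j (fun ω => tdg ⌊N.w1 * J⌋₊ J (K2S.Fam.pt F ω))
    (slam F ⌊N.w1 * J⌋₊) hdet
  obtain ⟨X, hX⟩ : ∃ X, ⌊N.w1 * J⌋₊ = ⌊N.w0 * J⌋₊ + X := ⟨_, (Nat.add_sub_cancel' hN.w01).symm⟩
  obtain ⟨f, hf⟩ : ∃ f : LnT F × (Fin (n' + 1) → F.Ω) → MvPolynomial (Fin (2 + 1)) ℝ,
      f = fun γ => frq c ⌊N.w1 * J⌋₊ ⌊N.w0 * J⌋₊ d.G0 γ.1.1 (γ.1.2.2 / 2 ^ X)
        (d.a (d.pr (d.z' γ.1))) (d.P (d.z' γ.1) 3)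
        (Qc (d.κ (γ.2 i')) (d.z' γ.1)) := ⟨_, rfl⟩
  obtain ⟨cc, hcc⟩ : ∃ cc : (Fin (n' + 1 + 1) → F.Ω) → LnT F × (Fin (n' + 1) → F.Ω),
      cc = fun w => (slam F ⌊N.w1 * J⌋₊ (w j), oth j w) := ⟨_, rfl⟩
  have hvA : ∀ v, 0 < pn F A ⌊N.w0 * J⌋₊ (n' + 1) v → ∀ a, A (v a) := fun v hv a =>
    (Dat.pA_pos (Pool.KSM.iid_pos hp0 hv a).1).1
  have hfc : ∀ v, 0 < pn F A ⌊N.w0 * J⌋₊ (n' + 1) v → f (cc v) =
      d.fr (v j) (d.κ (v j)) (Qc (d.κ (v i)) (d.κ (v j))) := by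
    intro v hv
    have e1 : d.z' (slam F ⌊N.w1 * J⌋₊ (v j)) = d.κ (v j) := (d.lab.cls _ (hvA v hv j)).symm
    have e2 : F.T1 ⌊N.w1 * J⌋₊ (v j) / 2 ^ X = F.T1 ⌊N.w0 * J⌋₊ (v j) := by
      have h1 := hN.w1J
      rw [hX] at h1 ⊢
      exact (T1_div F h1 (v j)).symm
    have e3 : d.a (d.pr (d.κ (v j))) = d.pl (v j) := by
      unfold Dat.pl Dat.κ
      rw [d.prz _ (hvA v hv j)]
    have e4 : oth j v i' = v i := by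
      unfold oth
      rw [hi']
    rw [hf, hcc]
    show frq c ⌊N.w1 * J⌋₊ ⌊N.w0 * J⌋₊ d.G0 (F.l (v j)) (F.T1 ⌊N.w1 * J⌋₊ (v j) / 2 ^ X)
      (d.a (d.pr (d.z' (slam F ⌊N.w1 * J⌋₊ (v j))))) (d.P (d.z' (slam F ⌊N.w1 * J⌋₊ (v j))) 3)
      (Qc (d.κ (oth j v i')) (d.z' (slam F ⌊N.w1 * J⌋₊ (v j)))) = _
    rw [e1, e2, e3, e4]
    rfl
  have hMs : ∀ γ : LnT F × (Fin (n' + 1) → F.Ω), (f γ).totalDegree ≤ K' := by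
    intro γ
    rw [hf]
    exact frq_deg (hQc _ _) (d.lab.deg _ 3) hK
  have h1 := hpd (Fin (n' + 1 + 1) → F.Ω) (LnT F × (Fin (n' + 1) → F.Ω))
    (pn F A ⌊N.w0 * J⌋₊ (n' + 1)) cc
    (fun v => tdg ⌊N.w1 * J⌋₊ J (K2S.Fam.pt F (v j))) (2 ^ (J - ⌊N.w1 * J⌋₊)) f
    (fun γ => 2 ^ ⌊N.w0 * J⌋₊ * ((γ.1.2.2 : ℝ) / 2 ^ ⌊N.w1 * J⌋₊) -
      ((γ.1.2.2 / 2 ^ X : ℕ) : ℝ))
    (fun _ => 2 ^ ⌊N.w0 * J⌋₊ / 2 ^ ⌊N.w1 * J⌋₊) h (iid_law hP)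
    (fun v _ => tdg_lt F _ _) (fun v _ => hMs _) (fun v _ => by positivity) hh hCh
  have e5 : CH (pn F A ⌊N.w0 * J⌋₊ (n' + 1)) (fun v => tdg ⌊N.w1 * J⌋₊ J (K2S.Fam.pt F (v j)))
      cc = CH (pA F A) (fun ω => tdg ⌊N.w1 * J⌋₊ J (K2S.Fam.pt F ω)) (slam F ⌊N.w1 * J⌋₊) := by
    rw [hcc]
    exact hch
  rw [e5, ms_pe] at h1
  refine le_trans ?_ h1
  refine pe_mono (iid_nonneg hp0) fun v hv hnot => ?_
  rw [hfc v hv]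
  have e6 : 2 ^ ⌊N.w0 * J⌋₊ * (((cc v).1.2.2 : ℝ) / 2 ^ ⌊N.w1 * J⌋₊) -
      (((cc v).1.2.2 / 2 ^ X : ℕ) : ℝ) + 2 ^ ⌊N.w0 * J⌋₊ / 2 ^ ⌊N.w1 * J⌋₊ *
      ((tdg ⌊N.w1 * J⌋₊ J (K2S.Fam.pt F (v j)) : ℝ) / ((2 ^ (J - ⌊N.w1 * J⌋₊) : ℕ) : ℝ)) =
      d.s (v j) := by
    have e7 : (cc v).1.2.2 = F.T1 ⌊N.w1 * J⌋₊ (v j) := by
      rw [hcc]
      rfl
    have e8 : F.T1 ⌊N.w1 * J⌋₊ (v j) / 2 ^ X = F.T1 ⌊N.w0 * J⌋₊ (v j) := by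
      have h1 := hN.w1J
      rw [hX] at h1 ⊢
      exact (T1_div F h1 (v j)).symm
    have e9 := tim_ex F hN.w1J (v j)
    rw [e7, e8]
    unfold Dat.s
    have p1 : (2 : ℝ) ^ ⌊N.w1 * J⌋₊ ≠ 0 := by positivity
    have e10 : F.t (v j) = ((F.T1 ⌊N.w1 * J⌋₊ (v j) : ℝ) +
        (tdg ⌊N.w1 * J⌋₊ J (K2S.Fam.pt F (v j)) : ℝ) /
          ((2 ^ (J - ⌊N.w1 * J⌋₊) : ℕ) : ℝ)) / 2 ^ ⌊N.w1 * J⌋₊ := by
      rw [← e9]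
      field_simp
    rw [e10]
    ring
  rw [e6]
  exact hnot

end Pool.PLN
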