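import Pool.Agent.H81.PLN.Pre

/-!
# Lemma PLANE: the polynomial of a leaf in relative coordinates
-/

set_option autoImplicit false

namespace Pool.PLN

open Finset Real MvPolynomial Pool.JMN Pool.JMS
open Pool.Agent.H49.Ent Pool.Agent.H32.Dense Pool.STK Pool.KA Pool.KSAT Pool.K2S Pool.PB Pool.STAT
  Pool.GEN Pool.S6C Pool.M3F Pool.CLO37 Pool.KAF Pool.KS3 Pool.EXS
open Pool.KAL (Psi)

variable {m J : ℕ}

/-- The point with the relative coordinates `s, η, ζ` about the line `l`. -/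
noncomputable def reg (c : ℕ → Fin m) (W0 G0 : ℕ) (l : (Fin m → ℝ) × (Fin m → ℝ)) (T : ℕ)
    (a : Fin 3 → ℝ) (s η ζ : ℝ) (i : ℕ) : ℝ :=
  let t := ((T : ℝ) + s) / 2 ^ W0
  if i = 0 then t else if i = 1 then l.1 (c 0) + t * l.2 (c 0) + η / 2 ^ W0 else
    if i = 2 then l.1 (c 1) + t * l.2 (c 1) + a 2 * η / 2 ^ W0 + ζ / 2 ^ G0 else 0

variable {c : ℕ → Fin m} {W0 G0 : ℕ} {l : (Fin m → ℝ) × (Fin m → ℝ)} {T : ℕ}
  {a : Fin 3 → ℝ}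

theorem reg_zero (s η ζ : ℝ) : reg c W0 G0 l T a s η ζ 0 = ((T : ℝ) + s) / 2 ^ W0 := by
  unfold reg
  simp

theorem reg_one (s η ζ : ℝ) : reg c W0 G0 l T a s η ζ 1 =
    l.1 (c 0) + ((T : ℝ) + s) / 2 ^ W0 * l.2 (c 0) + η / 2 ^ W0 := by
  unfold reg
  simp only [one_ne_zero, if_false, if_true]

theorem reg_two (s η ζ : ℝ) : reg c W0 G0 l T a s η ζ 2 =
    l.1 (c 1) + ((T : ℝ) + s) / 2 ^ W0 * l.2 (c 1) + a 2 * η / 2 ^ W0 + ζ / 2 ^ G0 := by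
  unfold reg
  norm_num

/-- The leaf `P3` in the relative coordinates. -/
noncomputable def frq (c : ℕ → Fin m) (W1 W0 G0 : ℕ) (l : (Fin m → ℝ) × (Fin m → ℝ)) (T : ℕ)
    (a : Fin 3 → ℝ) (P3 : PN) (Q : MvPolynomial (Option (Fin 3)) ℝ) :
    MvPolynomial (Fin (2 + 1)) ℝ :=
  rph Q (toF 3 W1 P3) (fun i : Fin (2 + 1) => 2 ^ W1 * reg c W0 G0 l T a 0 0 0 i.val)
    (fun i => 2 ^ W1 * (reg c W0 G0 l T a 1 0 0 i.val - reg c W0 G0 l T a 0 0 0 i.val))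
    (fun j i => 2 ^ W1 * (reg c W0 G0 l T a 0 (if j = 0 then 1 else 0) (if j = 0 then 0 else 1)
      i.val - reg c W0 G0 l T a 0 0 0 i.val))

theorem rpt_reg (W1 : ℕ) (s η ζ : ℝ) (i : Fin (2 + 1)) :
    rpt (fun i : Fin (2 + 1) => 2 ^ W1 * reg c W0 G0 l T a 0 0 0 i.val)
      (fun i => 2 ^ W1 * (reg c W0 G0 l T a 1 0 0 i.val - reg c W0 G0 l T a 0 0 0 i.val))
      (fun j i => 2 ^ W1 * (reg c W0 G0 l T a 0 (if j = 0 then 1 else 0)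
        (if j = 0 then 0 else 1) i.val - reg c W0 G0 l T a 0 0 0 i.val))
      (Fin.cons s ![η, ζ] : Fin (2 + 1) → ℝ) i = 2 ^ W1 * reg c W0 G0 l T a s η ζ i.val := by
  unfold rpt
  rw [Fin.cons_zero, Fin.sum_univ_two, Fin.cons_succ, Fin.cons_succ]
  simp only [Matrix.cons_val_zero, Matrix.cons_val_one, if_true]
  have h10 : ((1 : Fin 2) = 0) = False := by simp
  simp only [h10, if_false]
  fin_cases i
  · simp only [Fin.zero_eta, Fin.val_zero, reg_zero]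
    ring
  · simp only [Fin.mk_one, Fin.val_one, reg_one]
    ring
  · simp only [Fin.reduceFinMk, Fin.val_two, reg_two]
    ring

theorem eval_frq {W1 : ℕ} {P3 : PN} (hP : P3.vars ⊆ range 3)
    (Q : MvPolynomial (Option (Fin 3)) ℝ) (s η ζ : ℝ) :
    eval (Fin.cons s ![η, ζ] : Fin (2 + 1) → ℝ) (frq c W1 W0 G0 l T a P3 Q) =
      eval (fun o : Option (Fin 3) => o.elim
        (2 ^ W1 * eval (reg c W0 G0 l T a s η ζ) P3)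
        (fun i => 2 ^ W1 * reg c W0 G0 l T a s η ζ i.val)) Q := by
  unfold frq
  rw [eval_rph]
  congr 2
  funext o
  have h1 := rpt_reg (c := c) (W0 := W0) (G0 := G0) (l := l) (T := T) (a := a) W1 s η ζ
  cases o with
  | none =>
    show eval _ (toF 3 W1 P3) = 2 ^ W1 * _
    rw [eval_toF]
    congr 1
    exact (eval_eq_unF hP fun i => h1 i).symm
  | some i => exact h1 i

theorem frq_deg {W1 : ℕ} {P3 : PN} {Q : MvPolynomial (Option (Fin 3)) ℝ} {D K K' : ℕ}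
    (hQ : Q.totalDegree ≤ D) (hP : P3.totalDegree ≤ K) (hK : (K + 1) * D ≤ K') :
    (frq c W1 W0 G0 l T a P3 Q).totalDegree ≤ K' :=
  (rph_deg hQ ((deg_toF P3).trans hP)).trans hK

namespace Dat

variable {N : Nums} {φ : ℝ} {K : ℕ} {F : Fam m J} {A : F.Ω → Prop}
  (d : Dat N φ K F c A)

theorem rel_eq (ω : F.Ω) : d.rel ω = reg c ⌊N.w0 * J⌋₊ d.G0 (F.l ω) (F.T1 ⌊N.w0 * J⌋₊ ω)
    (d.pl ω) := rfl

/-- The polynomial of the leaf `κ` in the relative coordinates of `ω`. -/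
noncomputable def fr (ω : F.Ω) (κ : d.V) (Q : MvPolynomial (Option (Fin 3)) ℝ) :
    MvPolynomial (Fin (2 + 1)) ℝ :=
  frq c ⌊N.w1 * J⌋₊ ⌊N.w0 * J⌋₊ d.G0 (F.l ω) (F.T1 ⌊N.w0 * J⌋₊ ω) (d.pl ω) (d.P κ 3) Q

theorem eval_fr (ω : F.Ω) (κ : d.V) (Q : MvPolynomial (Option (Fin 3)) ℝ) (s η ζ : ℝ) :
    eval (Fin.cons s ![η, ζ] : Fin (2 + 1) → ℝ) (d.fr ω κ Q) =
      eval (d.lf κ (d.rel ω s η ζ)) Q := by
  unfold fr
  rw [eval_frq (d.lab.tri κ 3)]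
  rfl

theorem fr_deg (ω : F.Ω) (κ : d.V) {Q : MvPolynomial (Option (Fin 3)) ℝ} {D K' : ℕ}
    (hQ : Q.totalDegree ≤ D) (hK : (K + 1) * D ≤ K') : (d.fr ω κ Q).totalDegree ≤ K' :=
  frq_deg hQ (d.lab.deg κ 3) hK

/-! ### The laws -/

theorem pA_pos {A : F.Ω → Prop} {ω : F.Ω} (h : 0 < pA F A ω) : A ω ∧ 0 < F.p ω := by
  classical
  have h1 : A ω := by
    by_contra h2
    unfold pA Pool.Agent.H49.Ent.cond at h
    rw [if_neg (by simpa using h2)] at h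
    exact lt_irrefl _ h
  refine ⟨h1, ?_⟩
  by_contra h2
  have h3 : F.p ω = 0 := le_antisymm (not_lt.1 h2) (F.isLaw.nonneg ω)
  unfold pA Pool.Agent.H49.Ent.cond at h
  rw [h3] at h
  simp at h

/-! ### Rounding -/

theorem px_t (c : ℕ → Fin m) (ω : F.Ω) : px c (ptr F J ω) 0 = F.t ω := if_pos rfl

theorem px_x (c : ℕ → Fin m) (ω : F.Ω) (i : ℕ) :
    |px c (ptr F J ω) (i + 1) - F.x ω (c i)| ≤ 1 / 2 ^ J := by
  have h1 : px c (ptr F J ω) (i + 1) = ((⌊(2 : ℝ) ^ J * F.x ω (c i)⌋ : ℤ) : ℝ) / 2 ^ J := by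
    unfold px
    rw [if_neg (Nat.succ_ne_zero i)]
    rfl
  have h2 : (0 : ℝ) < 2 ^ J := by positivity
  rw [h1]
  have h3 := Int.floor_le ((2 : ℝ) ^ J * F.x ω (c i))
  have h4 := Int.lt_floor_add_one ((2 : ℝ) ^ J * F.x ω (c i))
  have h5 : ((⌊(2 : ℝ) ^ J * F.x ω (c i)⌋ : ℤ) : ℝ) / 2 ^ J - F.x ω (c i) =
      (((⌊(2 : ℝ) ^ J * F.x ω (c i)⌋ : ℤ) : ℝ) - 2 ^ J * F.x ω (c i)) / 2 ^ J := by
    field_simp
  rw [h5, abs_div, abs_of_pos h2]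
  refine div_le_div_of_nonneg_right ?_ h2.le
  rw [abs_le]
  constructor <;> linarith

/-- The numbers of a member. -/
structure Nms (d : Dat N φ K F c A) : Prop where
  w01 : ⌊N.w0 * J⌋₊ ≤ ⌊N.w1 * J⌋₊
  w1J : ⌊N.w1 * J⌋₊ ≤ J
  gJ : ∀ i < 3, (1 + 3 * d.L) * (2 * 2 ^ wid ⌊N.w1 * J⌋₊ d.g' i) ≤ 2 ^ J

theorem h0_ge : (8 + 12 * d.L) * (2 ^ ⌊N.w1 * J⌋₊ / 2 ^ d.g' 2) ≤ d.h0 := by
  have hL := d.L0
  obtain ⟨k, hk⟩ : ∃ k, k = d.kap := ⟨_, rfl⟩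
  obtain ⟨L, hLe⟩ : ∃ L, L = d.L := ⟨_, rfl⟩
  obtain ⟨W, hW⟩ : ∃ W, W = ⌊N.w1 * J⌋₊ := ⟨_, rfl⟩
  obtain ⟨g, hg⟩ : ∃ g, g = d.g' 2 := ⟨_, rfl⟩
  have h1 := d.win 2 (by norm_num)
  have h2 := d.srt 1 (by norm_num)
  have h3 : wid ⌊N.w1 * J⌋₊ d.g' 2 = d.g' 1 := by
    unfold wid
    norm_num
  rw [h3] at h1
  unfold h0 clC
  rw [← hk, ← hLe, ← hW, ← hg]
  rw [← hk, ← hW] at h1
  rw [← hg] at h2
  rw [← hLe] at hL
  have hWg : W ≤ g + k := by omega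
  have hk1 : (1 : ℝ) ≤ 2 ^ k := one_le_pow₀ one_le_two
  push_cast
  norm_num
  have e1 : (2 : ℝ) ^ (k + 2) = 4 * 2 ^ k := by ring
  rw [e1]
  have h4 : (1 : ℝ) ≤ 1 + 3 * L := by linarith
  have h5 : 1 + 3 * L ≤ (1 + 3 * L) ^ 4 := by
    calc 1 + 3 * L = (1 + 3 * L) ^ 1 := (pow_one _).symm
      _ ≤ _ := pow_le_pow_right₀ h4 (by norm_num)
  have h6 : 1 ≤ 4 * 2 ^ k * (1 + 3 * L) ^ 4 := by nlinarith
  have h7 : 4 * 2 ^ k * (1 + 3 * L) ≤ (4 * 2 ^ k * (1 + 3 * L) ^ 4) ^ 2 := by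
    have h8 : 4 * 2 ^ k * (1 + 3 * L) ≤ 4 * 2 ^ k * (1 + 3 * L) ^ 4 :=
      mul_le_mul_of_nonneg_left h5 (by positivity)
    nlinarith
  have h8 : (8 + 12 * L) * 2 ^ k ≤ 7 * (4 * 2 ^ k * (1 + 3 * L) ^ 4) ^ 2 + 2 := by
    nlinarith
  rcases le_or_gt W g with hc | hc
  · rw [pow_sub₀ _ two_ne_zero hc]
    have h9 : (2 : ℝ) ^ W / 2 ^ g = 1 / (2 ^ g * (2 ^ W)⁻¹) := by field_simp
    rw [h9, mul_one_div]
    refine div_le_div_of_nonneg_right ?_ (by positivity)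
    nlinarith
  · have h9 : g - W = 0 := by omega
    rw [h9, pow_zero, div_one]
    refine le_trans ?_ h8
    refine mul_le_mul_of_nonneg_left ?_ (by positivity)
    rw [div_le_iff₀ (by positivity), ← pow_add]
    exact pow_le_pow_right₀ one_le_two (by omega)

theorem h0_pos : 0 < d.h0 := by
  refine lt_of_lt_of_le ?_ d.h0_ge
  have := d.L0
  positivity

theorem T_ge : (2 : ℝ) ^ ⌊N.w1 * J⌋₊ / 2 ^ J ≤ 2 ^ ⌊N.w1 * J⌋₊ / 2 ^ d.g' 2 :=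
  div_le_div_of_nonneg_left (by positivity) (by positivity)
    (pow_le_pow_right₀ one_le_two d.top)

end Dat

end Pool.PLN
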