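import Pool.Agent.H81.PLN.Pol
import Pool.Agent.H37.CLO.Lne
import Pool.Agent.H37.CLO.Lrp
import Pool.Agent.H86.IE.Var

/-!
# The leaf norm: on the whole leaf, and on the lines of the leaf

`sup_nu`: outside of a small set a polynomial is bounded on the whole chart of the leaf by its
largest jet size at the samples of the leaf. `lin_nu`: the same on the whole long window of the
line.
-/

set_option autoImplicit false

namespace Pool.PLN

open Finset Real Pool.JMN Pool.JMS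
open Pool.Agent.H49.Ent Pool.Agent.H32.Dense Pool.STK Pool.KAF Pool.KAL Pool.KS3 Pool.M3F
open Pool.IEN Pool.EXS Pool.KJA Pool.CLO37

/-- The size of a polynomial at the samples with the same label. -/
noncomputable def nu {σ Ω Ξ Z : Type} [Fintype σ] (p : Ω → ℝ) (x : Ω → Ξ) (z : Ξ → σ → ℝ)
    (zx : Ξ → Z) (h₀ : ℝ) (ω : Ω) (F : MvPolynomial σ ℝ) : ℝ :=
  mx (fun ω' => 0 < p ω' ∧ zx (x ω') = zx (x ω)) fun ω' => Psi F h₀ (z (x ω'))

theorem nu_nonneg {σ Ω Ξ Z : Type} [Fintype σ] [Fintype Ω] (p : Ω → ℝ) (x : Ω → Ξ)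
    (z : Ξ → σ → ℝ) (zx : Ξ → Z) (h₀ : ℝ) (ω : Ω) (F : MvPolynomial σ ℝ) :
    0 ≤ nu p x z zx h₀ ω F := mx_nonneg fun _ => Psi_nonneg _ _ _

theorem le_nu {σ Ω Ξ Z : Type} [Fintype σ] [Fintype Ω] {p : Ω → ℝ} {x : Ω → Ξ}
    {z : Ξ → σ → ℝ} {zx : Ξ → Z} {h₀ : ℝ} {ω ω' : Ω} (h : 0 < p ω')
    (h' : zx (x ω') = zx (x ω)) (F : MvPolynomial σ ℝ) :
    Psi F h₀ (z (x ω')) ≤ nu p x z zx h₀ ω F :=
  le_mx (f := fun ω' => Psi F h₀ (z (x ω'))) (show 0 < p ω' ∧ zx (x ω') = zx (x ω) from ⟨h, h'⟩)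

/-- **On the whole chart**, three times enlarged. -/
theorem sup_nu (σ : Type) [Fintype σ] (d D k₀ : ℕ) : ∃ C : ℝ, 1 ≤ C ∧
    ∀ (C₀ : ℝ) (Ω Λ Ξ Z : Type) [Fintype Ω] (p : Ω → ℝ) (lam : Ω → Λ)
      (x : Ω → Ξ) (T : Ξ → ℕ) (z : Ξ → σ → ℝ) (A B : Λ → σ → ℝ) (zx : Ξ → Z) (zl : Λ → Z)
      (Yb : Ξ → Fin d → ℕ) (Ng : Z → Fin d → ℕ) (Φ : Z → σ → MvPolynomial (Fin d) ℝ)
      (M N : ℕ) (μ e₁ h : ℝ),
      1 ≤ C₀ → 1 ≤ M → IsLaw p → CLeaf k₀ C₀ M p lam x T z A B zx zl Yb Ng Φ →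
      MxC N μ p lam x (fun ξ => ∑ i, Real.log (Ng (zx ξ) i)) Yb → 0 ≤ μ →
      Real.log M - CH p (fun ω => T (x ω)) lam ≤ e₁ → 0 ≤ e₁ → 0 < h →
      ms p (fun ω => ¬ ∀ F : MvPolynomial σ ℝ, F.totalDegree ≤ D → ∀ u ∈ bcube d,
        |MvPolynomial.eval (cpt (Φ (zx (x ω))) u) F| ≤
          C * (Real.exp h * nu p x z zx (C₀ / M) ω F)) ≤
        C * ((N + 1) * (e₁ + 1) + μ) / h := by
  classical
  obtain ⟨C₁, hC₁, hlrp⟩ := lrp σ d D k₀
  obtain ⟨C₂, hC₂, hbig⟩ := big_cube d (k₀ * D)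
  refine ⟨C₁ + C₂, by linarith, ?_⟩
  intro C₀ Ω Λ Ξ Z _ p lam x T z A B zx zl Yb Ng Φ M N μ e₁ h hC₀ hM hp hL hmx hμ he₁ he₁0 hh
  have hp0 := hp.nonneg
  have h1 := hlrp C₀ Ω Λ Ξ Z Ω Unit p lam x T z A B zx zl Yb Ng Φ M N μ e₁ h p x (fun _ => ())
    hC₀ hM hL hmx hμ he₁ he₁0 hh hp (fun _ => rfl)
  have h2 : CH p (fun _ : Ω => ()) (fun ω => zx (x ω)) = 0 := CH_eq_zero hp0 (by
    intro ω ω' _ _ _
    rfl)
  rw [h2, mul_zero, zero_add] at h1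
  refine le_trans ?_ (h1.trans ?_)
  · refine Finset.sum_le_sum fun ω _ => ?_
    rcases (hp0 ω).eq_or_lt with hω | hω
    · rw [← hω, ite_self, ite_self]
    by_cases b : ∃ (F : MvPolynomial σ ℝ) (u : Fin d → ℝ), F ≠ 0 ∧ F.totalDegree ≤ D ∧
        u ∈ ucube d ∧ ∀ v', 0 < p v' → zx (x v') = zx (x ω) → () = () →
          Real.exp h * Psi F (C₀ / M) (z (x v')) < Psi F (C₀ / M) (cpt (Φ (zx (x ω))) u)
    · rw [if_pos b]
      split_ifs
      · exact le_rfl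
      · exact hω.le
    · have a : ∀ F : MvPolynomial σ ℝ, F.totalDegree ≤ D → ∀ u ∈ bcube d,
          |MvPolynomial.eval (cpt (Φ (zx (x ω))) u) F| ≤
            (C₁ + C₂) * (Real.exp h * nu p x z zx (C₀ / M) ω F) := by
        intro F hF u hu
        have hnu := nu_nonneg p x z zx (C₀ / M) ω F
        have hb : 0 ≤ Real.exp h * nu p x z zx (C₀ / M) ω F := mul_nonneg (Real.exp_pos h).le hnu
        rcases eq_or_ne F 0 with h0 | h0
        · rw [h0, map_zero, abs_zero, ← h0]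
          have : 0 ≤ C₁ + C₂ := by linarith
          positivity
        have hcs : cs (fun _ => 0) 1 (MvPolynomial.bind₁ (Φ (zx (x ω))) F) ≤
            Real.exp h * nu p x z zx (C₀ / M) ω F := by
          refine SML.cs_le _ hb fun y hy => ?_
          rw [eval_bind]
          by_contra hcon
          push Not at hcon
          refine b ⟨F, y, h0, hF, fun i => ?_, fun v' hv' hz _ => ?_⟩
          · have := hy i
            exact ⟨by linarith [this.1], by linarith [this.2]⟩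
          · have h3 := le_nu (h₀ := C₀ / M) (z := z) hv' hz F
            have h4 := abs_eval_le_Psi F (C₀ / M) (cpt (Φ (zx (x ω))) y)
            have h5 := mul_le_mul_of_nonneg_left h3 (Real.exp_pos h).le
            linarith
        have hdeg : (MvPolynomial.bind₁ (Φ (zx (x ω))) F).totalDegree ≤ k₀ * D :=
          (SML.totalDegree_bind_le _ k₀ (hL.chart ω hω).deg F).trans (Nat.mul_le_mul_left _ hF)
        have h3 := (hbig _ hdeg).1 u hu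
        rw [eval_bind] at h3
        calc _ ≤ _ := h3
          _ ≤ C₂ * (Real.exp h * nu p x z zx (C₀ / M) ω F) :=
              mul_le_mul_of_nonneg_left hcs (by linarith)
          _ ≤ _ := mul_le_mul_of_nonneg_right (by linarith) hb
      rw [if_neg (not_not.2 a), if_neg b]
  · refine div_le_div_of_nonneg_right ?_ hh.le
    have h3 : 0 ≤ ((N : ℝ) + 1) * (e₁ + 1) + μ := by positivity
    exact mul_le_mul_of_nonneg_right (by linarith) h3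

/-- **On the long window of the line.** `lam₁`: the short window, `lam₀`: the long one; `T₀`: the
time in the long window, `M₀` its length; `M`: the length of the short one. -/
theorem lin_nu (σ : Type) [Fintype σ] (D : ℕ) : ∃ C : ℝ, 1 ≤ C ∧
    ∀ (Ω Λ₀ Λ₁ Ξ Z : Type) [Fintype Ω] (p : Ω → ℝ) (lam₀ : Ω → Λ₀) (lam₁ : Ω → Λ₁) (x : Ω → Ξ)
      (T T₀ : Ξ → ℕ) (z : Ξ → σ → ℝ) (A₀ B₀ : Λ₀ → σ → ℝ) (zx : Ξ → Z)
      (M M₀ : ℕ) (h₀ e₁ h : ℝ),
      IsLaw p → 1 ≤ M → M ≤ M₀ → 0 < h₀ → 0 < h → C * Real.exp h ≤ M →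
      (∀ ω, 0 < p ω → T (x ω) < M ∧ T₀ (x ω) < M₀) →
      (∀ ω ω', 0 < p ω → 0 < p ω' → lam₁ ω = lam₁ ω' → lam₀ ω = lam₀ ω' ∧ zx (x ω) = zx (x ω') ∧
        (T₀ (x ω) = T₀ (x ω') → T (x ω) = T (x ω'))) →
      (∀ ω, 0 < p ω → ∀ i, |z (x ω) i - (A₀ (lam₀ ω) i + (T₀ (x ω) : ℝ) * B₀ (lam₀ ω) i)| ≤ h₀) →
      (∀ ω, 0 < p ω → ∀ i, |B₀ (lam₀ ω) i| ≤ h₀) →
      Real.log M - CH p (fun ω => T (x ω)) lam₁ ≤ e₁ → 0 ≤ e₁ →
      ms p (fun ω => ¬ ∀ F : MvPolynomial σ ℝ, F.totalDegree ≤ D → ∀ τ : ℝ, 0 ≤ τ → τ ≤ M₀ →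
        Psi F h₀ (fun i => A₀ (lam₀ ω) i + τ * B₀ (lam₀ ω) i) ≤
          C * (Real.exp h * (M₀ / M)) ^ D * nu p x z zx h₀ ω F) ≤ (e₁ + 1) / h := by
  classical
  obtain ⟨K, hK, H⟩ := psi_line σ D
  have hp2 : (1 : ℝ) ≤ 2 ^ D := one_le_pow₀ one_le_two
  obtain ⟨a, ha⟩ : ∃ a : ℝ, a = 2 * ((D : ℝ) + 1) := ⟨_, rfl⟩
  have ha1 : 1 ≤ a := by
    rw [ha]
    have : (0 : ℝ) ≤ D := Nat.cast_nonneg D
    linarith
  have haD : 1 ≤ a ^ D := one_le_pow₀ ha1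
  obtain ⟨C, hC⟩ : ∃ C : ℝ, C = a + 2 ^ D * K * 2 ^ D * a ^ D := ⟨_, rfl⟩
  have hC0 : (0 : ℝ) ≤ 2 ^ D * K * 2 ^ D * a ^ D := by positivity
  refine ⟨C, by rw [hC]; linarith, ?_⟩
  intro Ω Λ₀ Λ₁ Ξ Z _ p lam₀ lam₁ x T T₀ z A₀ B₀ zx M M₀ h₀ e₁ h hp hM hMM hh₀ hh hCM hT hlam hz
    hB he₁ he₁0
  have hp0 := hp.nonneg
  have hexp := Real.exp_pos h
  have hM0 : (0 : ℝ) < M := by exact_mod_cast hM
  have hM₀ : (0 : ℝ) < M₀ := by exact_mod_cast (hM.trans hMM)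
  have hexp1 : 1 ≤ Real.exp h := Real.one_le_exp hh.le
  have haM : a * Real.exp h ≤ M := by
    refine le_trans (mul_le_mul_of_nonneg_right ?_ hexp.le) hCM
    rw [hC]
    linarith
  -- the number of times
  obtain ⟨R, hR⟩ : ∃ R : ℝ, R = a * Real.exp h := ⟨_, rfl⟩
  have hR1 : 1 ≤ R := by
    rw [hR]
    nlinarith
  have hRM : R ≤ M := by rw [hR]; exact haM
  have hR0 : 0 < R := by linarith
  obtain ⟨s, hs⟩ : ∃ s, s = ⌈(M : ℝ) / R⌉₊ := ⟨_, rfl⟩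
  have hs1 : 1 ≤ s := by
    rw [hs]
    exact Nat.ceil_pos.2 (by positivity)
  have hsR : (M : ℝ) ≤ R * s := by
    have := Nat.le_ceil ((M : ℝ) / R)
    rw [← hs, div_le_iff₀ hR0] at this
    linarith
  obtain ⟨Bd, hBd⟩ : ∃ Bd : Ω → Prop, Bd = fun ω =>
    (tms p lam₀ x T₀ zx (lam₀ ω) (zx (x ω))).card ≤ s * (D + 1) := ⟨_, rfl⟩
  obtain ⟨S, hS⟩ : ∃ S : Λ₁ → Finset ℕ, S = fun l =>
      (Finset.univ.filter fun ω => 0 < p ω ∧ lam₁ ω = l).image fun ω => T (x ω) := ⟨_, rfl⟩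
  have hfew := few_ev hp (fun ω => T (x ω)) (n := s * (D + 1)) lam₁ Bd S
    (fun ω hω => (hT ω hω).1) (fun ω hω hb => by
      have hb' : (tms p lam₀ x T₀ zx (lam₀ ω) (zx (x ω))).card ≤ s * (D + 1) := by
        rw [hBd] at hb
        exact hb
      refine ⟨?_, ?_⟩
      · rw [hS]
        exact Finset.mem_image.2 ⟨ω, Finset.mem_filter.2 ⟨Finset.mem_univ _, hω, rfl⟩, rfl⟩
      · refine le_trans ?_ hb'
        -- the times `T` are images of the times `T₀`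
        obtain ⟨Sf, hSf⟩ : ∃ Sf : Finset Ω, Sf = Finset.univ.filter fun ω' => 0 < p ω' ∧
          lam₁ ω' = lam₁ ω := ⟨_, rfl⟩
        have h1 : S (lam₁ ω) = Sf.image fun ω => T (x ω) := by rw [hS, hSf]
        have h2 : (Sf.image fun ω => T₀ (x ω)) ⊆ tms p lam₀ x T₀ zx (lam₀ ω) (zx (x ω)) := by
          intro n hn
          obtain ⟨ω', w1, w2⟩ := Finset.mem_image.1 hn
          rw [hSf] at w1
          obtain ⟨w3, w4⟩ := (Finset.mem_filter.1 w1).2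
          obtain ⟨w5, w6, -⟩ := hlam ω' ω w3 hω w4
          exact mem_tms.2 ⟨ω', w3, w5, w6, w2⟩
        refine le_trans ?_ (Finset.card_le_card h2)
        rw [h1]
        -- choose a preimage
        have h3 : ∀ n ∈ Sf.image fun ω => T (x ω), ∃ ω' ∈ Sf, T (x ω') = n := fun n hn =>
          Finset.mem_image.1 hn
        haveI : Nonempty Ω := ⟨ω⟩
        choose! g hg1 hg2 using h3
        refine Finset.card_le_card_of_injOn (fun n => T₀ (x (g n))) (fun n hn => ?_) ?_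
        · exact Finset.mem_coe.2 (Finset.mem_image_of_mem _ (hg1 n hn))
        · intro n hn n' hn' he
          have u1 := hg1 n hn
          have u2 := hg1 n' hn'
          rw [hSf] at u1 u2
          obtain ⟨v1, v2⟩ := (Finset.mem_filter.1 u1).2
          obtain ⟨v3, v4⟩ := (Finset.mem_filter.1 u2).2
          rw [← hg2 n hn, ← hg2 n' hn']
          exact (hlam _ _ v1 v3 (v2.trans v4.symm)).2.2 he) he₁
  have hlog : h ≤ Real.log M - Real.log ((s * (D + 1) : ℕ) : ℝ) := by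
    have h1 := log_few hR1 hRM D
    rw [← hs, hR, Real.log_mul (by positivity) (by positivity), Real.log_exp, ha] at h1
    linarith
  have hl2 : Real.log 2 ≤ 1 := by
    have := Real.log_two_lt_d9
    linarith
  have hms : ms p Bd = Pool.K2S.Pe p Bd := by
    rw [Pool.K2S.Pe_eq]
    rfl
  have hms0 : 0 ≤ ms p Bd := ms_nonneg hp0 _
  have hfin : ms p Bd ≤ (e₁ + 1) / h := by
    rw [le_div_iff₀ hh]
    rw [← hms] at hfew
    have := mul_le_mul_of_nonneg_left hlog hms0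
    linarith
  refine (ms_le hp0 ?_).trans hfin
  intro ω hω hnot
  by_contra hb
  rw [hBd] at hb
  refine hnot fun F hF τ hτ0 hτ1 => ?_
  obtain ⟨mm, hmm⟩ : ∃ mm, mm = nu p x z zx h₀ ω F := ⟨_, rfl⟩
  rw [← hmm]
  have hmm0 : 0 ≤ mm := by
    rw [hmm]
    exact nu_nonneg _ _ _ _ _ _ _
  have h2D : (2 : ℝ) ^ F.totalDegree ≤ 2 ^ D := pow_le_pow_right₀ one_le_two hF
  obtain ⟨R', hR'⟩ : ∃ R' : ℝ, R' = R * (M₀ / M) := ⟨_, rfl⟩
  have hR'0 : 0 ≤ R' := by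
    rw [hR']
    positivity
  have h1 := H F h₀ (A₀ (lam₀ ω)) (B₀ (lam₀ ω))
    (tms p lam₀ x T₀ zx (lam₀ ω) (zx (x ω))) s ⌊τ⌋₊ R' (2 ^ D * mm) hF hs1 (by
      have h2 : s * D ≤ s * (D + 1) := Nat.mul_le_mul_left s (Nat.le_succ D)
      push Not at hb
      omega) (by
      intro e he
      obtain ⟨ω', w1, w2, w3, w4⟩ := mem_tms.1 he
      have h2 := (hT ω' w1).2
      rw [w4] at h2
      have h4 : (e : ℝ) < M₀ := by exact_mod_cast h2
      have h5 : (⌊τ⌋₊ : ℝ) ≤ M₀ := (Nat.floor_le hτ0).trans hτ1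
      have h6 : (0 : ℝ) ≤ e := Nat.cast_nonneg e
      have h7 : (0 : ℝ) ≤ ⌊τ⌋₊ := Nat.cast_nonneg _
      have h8 : (M₀ : ℝ) ≤ R' * s := by
        rw [hR']
        calc (M₀ : ℝ) = M * (M₀ / M) := by field_simp
          _ ≤ (R * s) * (M₀ / M) := mul_le_mul_of_nonneg_right hsR (by positivity)
          _ = _ := by ring
      rw [abs_le]
      constructor <;> linarith) (by
      intro e he
      obtain ⟨ω', w1, w2, w3, w4⟩ := mem_tms.1 he
      have h2 := hz ω' w1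
      rw [w2, w4] at h2
      have h3 := Psi_le_of_near F h₀ hh₀.le (z (x ω'))
        (fun i => A₀ (lam₀ ω) i + (e : ℝ) * B₀ (lam₀ ω) i) (fun i => by
          rw [abs_sub_comm]
          exact h2 i)
      refine h3.trans (mul_le_mul h2D ?_ (Psi_nonneg _ _ _) (by positivity))
      rw [hmm]
      exact le_nu w1 w3 F) hR'0
  have h2 : Psi F h₀ (fun i => A₀ (lam₀ ω) i + τ * B₀ (lam₀ ω) i) ≤ 2 ^ D *
      Psi F h₀ (fun i => A₀ (lam₀ ω) i + (⌊τ⌋₊ : ℝ) * B₀ (lam₀ ω) i) := by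
    have h3 := Psi_le_of_near F h₀ hh₀.le
      (fun i => A₀ (lam₀ ω) i + (⌊τ⌋₊ : ℝ) * B₀ (lam₀ ω) i)
      (fun i => A₀ (lam₀ ω) i + τ * B₀ (lam₀ ω) i) (fun i => by
        have h4 : A₀ (lam₀ ω) i + τ * B₀ (lam₀ ω) i -
          (A₀ (lam₀ ω) i + (⌊τ⌋₊ : ℝ) * B₀ (lam₀ ω) i) = (τ - ⌊τ⌋₊) * B₀ (lam₀ ω) i := by ring
        rw [h4, abs_mul]
        have h5 : |τ - ⌊τ⌋₊| ≤ 1 := by
          rw [abs_le]
          constructor <;> linarith [Nat.floor_le hτ0, Nat.lt_floor_add_one τ]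
        calc |τ - ⌊τ⌋₊| * |B₀ (lam₀ ω) i| ≤ 1 * h₀ :=
              mul_le_mul h5 (hB ω hω i) (abs_nonneg _) zero_le_one
          _ = h₀ := one_mul _)
    exact h3.trans (mul_le_mul_of_nonneg_right h2D (Psi_nonneg _ _ _))
  calc Psi F h₀ (fun i => A₀ (lam₀ ω) i + τ * B₀ (lam₀ ω) i) ≤
        2 ^ D * (K * R' ^ D * (2 ^ D * mm)) :=
        h2.trans (mul_le_mul_of_nonneg_left h1 (by positivity))
    _ = (2 ^ D * K * 2 ^ D * a ^ D) * (Real.exp h * (M₀ / M)) ^ D * mm := by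
        rw [hR', hR, mul_pow, mul_pow, mul_pow]
        ring
    _ ≤ C * (Real.exp h * (M₀ / M)) ^ D * mm := by
        refine mul_le_mul_of_nonneg_right ?_ hmm0
        refine mul_le_mul_of_nonneg_right ?_ (by positivity)
        rw [hC]
        linarith

end Pool.PLN
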