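import Pool.Agent.H60.KSM.Iid
import Pool.Agent.H15.KM7.Pair

/-!
# Entropy of one of the independent samples, given the others
-/

set_option autoImplicit false

namespace Pool.PLN

open Finset Real
open Pool.Agent.H49.Ent Pool.Agent.H32.Dense Pool.STK Pool.KSM Pool.KM7

variable {Ω Ξ S T : Type} [Fintype Ω] {n : ℕ} {P : Ω → ℝ} {W : Ω → Ξ}

/-- The other samples. -/
def oth (j : Fin (n + 2)) (w : Fin (n + 2) → Ω) : Fin (n + 1) → Ω := fun i => w (j.succAbove i)

theorem law_iid (hP : IsLaw P) (s : Ξ) :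
    law (iid P W n) (fun o => W (o 0)) s = law P W s := by
  exact (iid_zero (n := n) (W := W) hP.nonneg).law W s

theorem iid_glue (hP : IsLaw P) (j : Fin (n + 2)) (w : Fin (n + 2) → Ω) :
    iid P W (n + 1) w = glue (iid P W n) P (fun o => W (o 0)) W (oth j w, w j) := by
  classical
  have hp := hP.nonneg
  rw [iid_base hp w (j.succAbove 0), Fin.prod_univ_succAbove _ j]
  unfold glue
  by_cases h : W (w (j.succAbove 0)) = W (w j)
  · rw [if_pos (show (fun o : Fin (n + 1) → Ω => W (o 0)) (oth j w, w j).1 = W (oth j w, w j).2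
      from h)]
    have e4 : law (iid P W n) (fun o => W (o 0)) ((fun o : Fin (n + 1) → Ω => W (o 0))
        (oth j w, w j).1) = law P W (W (w (j.succAbove 0))) := law_iid hP _
    rw [e4]
    have e2 : Pool.Agent.H49.Ent.cond P W (W (w (j.succAbove 0))) (w j) = P (w j) / law P W (W (w (j.succAbove 0))) := by
      unfold Pool.Agent.H49.Ent.cond
      rw [if_pos h.symm]
    have e3 : iid P W n (oth j w) = law P W (W (w (j.succAbove 0))) *
        ∏ i, Pool.Agent.H49.Ent.cond P W (W (w (j.succAbove 0))) (w (j.succAbove i)) := rfl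
    show _ = iid P W n (oth j w) * P (w j) / _
    rw [e2, e3]
    ring
  · rw [if_neg (show ¬ (fun o : Fin (n + 1) → Ω => W (o 0)) (oth j w, w j).1 =
      W (oth j w, w j).2 from h)]
    have e2 : Pool.Agent.H49.Ent.cond P W (W (w (j.succAbove 0))) (w j) = 0 := by
      unfold Pool.Agent.H49.Ent.cond
      rw [if_neg fun h' => h h'.symm]
    rw [e2]
    ring

theorem iid_psh (hP : IsLaw P) (j : Fin (n + 2)) :
    Psh (iid P W (n + 1)) (fun w => (oth j w, w j))
      (glue (iid P W n) P (fun o => W (o 0)) W) := by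
  classical
  rintro ⟨o, ω⟩
  unfold law
  obtain ⟨w₀, hw₀⟩ : ∃ w₀ : Fin (n + 2) → Ω, w₀ = Fin.insertNth (α := fun _ => Ω) j ω o :=
    ⟨_, rfl⟩
  rw [Finset.sum_eq_single w₀]
  · have h1 : oth j w₀ = o := by
      funext i
      rw [hw₀]
      exact Fin.insertNth_apply_succAbove (α := fun _ => Ω) j ω o i
    have h2 : w₀ j = ω := by
      rw [hw₀]
      exact Fin.insertNth_apply_same (α := fun _ => Ω) j ω o
    rw [if_pos (show (oth j w₀, w₀ j) = (o, ω) by rw [h1, h2]), iid_glue hP j, h1, h2]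
  · intro b _ hb
    refine if_neg fun h => hb ?_
    have h1 : oth j b = o := (Prod.ext_iff.mp h).1
    have h2 : b j = ω := (Prod.ext_iff.mp h).2
    rw [hw₀]
    funext i
    refine Fin.succAboveCases j ?_ (fun i => ?_) i
    · exact h2.trans (Fin.insertNth_apply_same (α := fun _ => Ω) j ω o).symm
    · exact (congrFun h1 i).trans (Fin.insertNth_apply_succAbove (α := fun _ => Ω) j ω o i).symm
  · intro h
    exact absurd (Finset.mem_univ _) h

/-- **One sample given its label and the other samples.** -/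
theorem iid_CH (hP : IsLaw P) (j : Fin (n + 2)) (X : Ω → S) (Z : Ω → T) (hZ : Det P Z W) :
    CH (iid P W (n + 1)) (fun w => X (w j)) (fun w => (Z (w j), oth j w)) = CH P X Z := by
  have hp := hP.nonneg
  have hn := iid_nonneg (n := n) (W := W) hp
  have hn' := iid_nonneg (n := n + 1) (W := W) hp
  have hl : ∀ z, law (iid P W n) (fun o => W (o 0)) z = law P W z := law_iid hP
  have d1 : Det (iid P W n) (fun o : Fin (n + 1) → Ω => o) (fun o => W (o 0)) :=
    fun a b _ _ h => by
      have h' : a = b := h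
      rw [h']
  have d2 : Det P (fun ω => (X ω, Z ω)) W := fun a b ha hb h =>
    hZ a b ha hb (Prod.ext_iff.mp h).2
  have h1 := H_glue_pair (p₁ := iid P W n) (p₂ := P) (Z₁ := fun o => W (o 0)) (Z₂ := W) hn hp hl
    d1 d2
  have h2 := H_glue_pair (p₁ := iid P W n) (p₂ := P) (Z₁ := fun o => W (o 0)) (Z₂ := W) hn hp hl
    d1 hZ
  have h3 := (iid_psh (W := W) hP j).H_eq (fun w => (w.1, (X w.2, Z w.2)))
  have h4 := (iid_psh (W := W) hP j).H_eq (fun w => (w.1, Z w.2))
  have h5 : H (iid P W (n + 1)) (fun w => (X (w j), (Z (w j), oth j w))) =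
      H (iid P W (n + 1)) (fun w => (oth j w, (X (w j), Z (w j)))) := by
    refine H_congr hn' ?_ ?_
    · intro a b _ _ h
      have e1 := (Prod.ext_iff.mp h).1
      have e2 := (Prod.ext_iff.mp h).2
      exact Prod.ext (Prod.ext_iff.mp e2).1 (Prod.ext (Prod.ext_iff.mp e2).2 e1)
    · intro a b _ _ h
      have e1 := (Prod.ext_iff.mp h).1
      have e2 := (Prod.ext_iff.mp h).2
      exact Prod.ext (Prod.ext_iff.mp e2).2 (Prod.ext e1 (Prod.ext_iff.mp e2).1)
  have h6 : H (iid P W (n + 1)) (fun w => (Z (w j), oth j w)) =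
      H (iid P W (n + 1)) (fun w => (oth j w, Z (w j))) := by
    refine H_congr hn' ?_ ?_
    · intro a b _ _ h
      exact Prod.ext (Prod.ext_iff.mp h).2 (Prod.ext_iff.mp h).1
    · intro a b _ _ h
      exact Prod.ext (Prod.ext_iff.mp h).2 (Prod.ext_iff.mp h).1
  unfold CH
  rw [h5, h6, h3, h4, h1, h2]
  ring

end Pool.PLN
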