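import Pool.Agent.H81.PLN.Mov

/-!
# Lemma PLANE: the lines through one point on which the polynomial is small
-/

set_option autoImplicit false

namespace Pool.PLN

open Finset Real MvPolynomial Pool.JMN Pool.JMS
open Pool.Agent.H49.Ent Pool.Agent.H32.Dense Pool.STK Pool.KA Pool.KSAT Pool.K2S Pool.PB Pool.STAT
  Pool.GEN Pool.S6C Pool.M3F Pool.CLO37 Pool.KAF Pool.KS3 Pool.EXS
open Pool.KAL (Psi exists_line)

variable {m J : ℕ}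

theorem T1_of (F : Fam m J) {w w' : ℕ} (h : w ≤ w') (h' : w' ≤ J) {ω ω' : F.Ω}
    (e : F.T1 w' ω = F.T1 w' ω') : F.T1 w ω = F.T1 w ω' := by
  obtain ⟨K, rfl⟩ := Nat.exists_eq_add_of_le h
  rw [T1_div F h' ω, T1_div F h' ω', e]

/-- Two times in one window. -/
theorem t_win (F : Fam m J) {w : ℕ} (h : w ≤ J) {ω ω' : F.Ω} (e : F.T1 w ω = F.T1 w ω') :
    |F.t ω - F.t ω'| ≤ 1 / 2 ^ w := by
  have h1 := T1_real F h ω
  have h2 := T1_real F h ω'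
  rw [e] at h1
  have p1 : (0 : ℝ) < 2 ^ w := by positivity
  rw [le_div_iff₀ p1, ← abs_of_pos p1, ← abs_mul, abs_le]
  constructor <;> nlinarith

/-- A polynomial on a line, as a polynomial of the time. -/
theorem pol_line (f : MvPolynomial (Fin (2 + 1)) ℝ) (a b e w s : ℝ) : ∃ p : Polynomial ℝ,
    p.natDegree ≤ f.totalDegree ∧ ∀ t : ℝ, p.eval t =
      eval (Fin.cons (a * t + b) ![e * (a * t + b - s), w * (a * t + b - s)] : Fin (2 + 1) → ℝ)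
        f := by
  obtain ⟨q, hq, h⟩ := exists_line f
    (Fin.cons b ![e * (b - s), w * (b - s)] : Fin (2 + 1) → ℝ)
    (Fin.cons a ![e * a, w * a] : Fin (2 + 1) → ℝ)
  refine ⟨q, hq, fun t => ?_⟩
  rw [← h t]
  congr 2
  funext i
  fin_cases i
  · simp only [Fin.zero_eta, Fin.cons_zero]
    ring
  · show _ + t * _ = _
    simp only [Fin.mk_one]
    show e * (b - s) + t * (e * a) = e * (a * t + b - s)
    ring
  · show w * (b - s) + t * (w * a) = w * (a * t + b - s)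
    ring

namespace Dat

variable {N : Nums} {φ : ℝ} {K : ℕ} {F : Fam m J} {c : ℕ → Fin m} {A : F.Ω → Prop}
  (d : Dat N φ K F c A)

/-- Equal labels at the window `w1`: the same first digits of the time. -/
theorem T1_κ {ω ω' : F.Ω} (hω : A ω) (hω' : A ω') (h : d.κ ω = d.κ ω') :
    F.T1 ⌊N.w1 * J⌋₊ ω = F.T1 ⌊N.w1 * J⌋₊ ω' := by
  have h1 := d.lab.zero ω hω
  have h2 := d.lab.zero ω' hω'
  have h3 : d.P (d.z (ptr F J ω)) 0 = d.P (d.z (ptr F J ω')) 0 := by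
    show d.P (d.κ ω) 0 = d.P (d.κ ω') 0
    rw [h]
  rw [h1, h2] at h3
  have h4 := MvPolynomial.C_injective ℕ ℝ h3
  have p1 : (2 : ℝ) ^ ⌊N.w1 * J⌋₊ ≠ 0 := by positivity
  rw [div_left_inj' p1] at h4
  exact_mod_cast h4

theorem κ_slam {ω ω' : F.Ω} (hω : A ω) (hω' : A ω')
    (h : slam F ⌊N.w1 * J⌋₊ ω = slam F ⌊N.w1 * J⌋₊ ω') : d.κ ω = d.κ ω' := by
  unfold κ
  rw [d.lab.cls ω hω, d.lab.cls ω' hω', h]

/-- The polynomial is small on the line. -/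
theorem small_line (hN : d.Nms) {ω₁ : F.Ω} (hω₁ : A ω₁) {Q : MvPolynomial (Option (Fin 3)) ℝ}
    {K' : ℕ} {H' ε : ℝ} (hQ : Q.totalDegree ≤ K') (hε : 0 ≤ ε) (hH : 0 ≤ H')
    (hwin : d.Win K' H' ω₁)
    (hsm : ∀ ω, A ω → 0 < F.p ω → d.κ ω = d.κ ω₁ → Psi Q d.h0 (d.zs ω) ≤ ε) {t : ℝ}
    (ht : |t - F.t ω₁| ≤ 2 / 2 ^ ⌊N.w1 * J⌋₊) : |eval (d.ln (F.l ω₁) t) Q| ≤ H' * ε := by
  haveI : Nonempty F.Ω := ⟨ω₁⟩
  obtain ⟨p, hp, hpe⟩ := exists_line Q (d.ln (F.l ω₁) 0)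
    (fun o => d.ln (F.l ω₁) 1 o - d.ln (F.l ω₁) 0 o)
  have he : ∀ t, p.eval t = eval (d.ln (F.l ω₁) t) Q := by
    intro t
    rw [← hpe t, d.ln_aff _ t]
  rw [← he]
  refine (hwin p (hp.trans hQ) t ht).trans (mul_le_mul_of_nonneg_left ?_ hH)
  refine mx_le hε fun ω' hω' => ?_
  obtain ⟨h1, h2, h3⟩ := hω'
  rw [he]
  have h4 : F.l ω₁ = F.l ω' := (Prod.ext_iff.1 h3).1.symm
  rw [h4]
  exact (KAL.abs_eval_le_Psi_of_near Q d.h0 d.h0_pos.le (d.zs ω') _ d.ln_near).trans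
    (hsm ω' h1 h2 (d.κ_slam h1 hω₁ h3))

end Dat

/-- **(c)** -/
theorem pol_cc (D : ℕ) : ∃ C : ℝ, 1 ≤ C ∧ ∀ {m J : ℕ} {N : Nums} {φ : ℝ} {K : ℕ} {F : Fam m J}
    {c : ℕ → Fin m} {A : F.Ω → Prop} (d : Dat N φ K F c A), d.Nms → ∀ {K' n : ℕ}
    {Q : MvPolynomial (Option (Fin 3)) ℝ} {ε H' : ℝ} {v u : Fin (n + 1) → F.Ω}
    {i j k : Fin (n + 1)} {x : ℝ}, Q.totalDegree ≤ D → (K + 1) * D ≤ K' → D ≤ K' → 0 ≤ ε →
    0 ≤ H' → 0 < pn F A ⌊N.w0 * J⌋₊ n v → 0 < pn F A ⌊N.w0 * J⌋₊ n u →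
    (∀ ω, A ω → 0 < F.p ω → d.κ ω = d.κ (v i) → Psi Q d.h0 (d.zs ω) ≤ ε) →
    (∀ ω, A ω → 0 < F.p ω → d.κ ω = d.κ (v j) →
      Psi Q d.h0 (d.zs ω) ≤ |eval (d.zs ω) Q| + ε) →
    d.Win K' H' (u i) → d.Win K' H' (u j) → d.κ (u i) = d.κ (v i) → d.κ (u j) = d.κ (v j) →
    ptr F J (u k) = ptr F J (v k) → |x - d.s (v j)| ≤ 2 ^ ⌊N.w0 * J⌋₊ / 2 ^ ⌊N.w1 * J⌋₊ →
    |eval (Fin.cons x ![(F.d (u k) (c 0) - F.d (v k) (c 0)) * (x - d.s (v k)),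
      (d.Ez (u k) - d.Ez (v k)) * (x - d.s (v k))] : Fin (2 + 1) → ℝ)
      (d.fr (v j) (d.κ (v j)) Q)| ≤
      H' * (C * (2 ^ ⌊N.w1 * J⌋₊ / 2 ^ ⌊N.w0 * J⌋₊) ^ D * (H' * ε) + 2 * ε) := by
  obtain ⟨C, hC, hgro⟩ := gro_int D
  refine ⟨C, hC, ?_⟩
  intro m J N φ K F c A d hN K' n Q ε H' v u i j k x hQ hK hDK hε hH hv hu hsm hvar hwi hwj
    hκi hκj hpt hx
  haveI : Nonempty F.Ω := ⟨v 0⟩
  obtain ⟨W0, hW0⟩ : ∃ W, W = ⌊N.w0 * J⌋₊ := ⟨_, rfl⟩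
  obtain ⟨W1, hW1⟩ : ∃ W, W = ⌊N.w1 * J⌋₊ := ⟨_, rfl⟩
  have hp0 : ∀ ω, 0 ≤ pA F A ω := cond_nonneg F.isLaw.nonneg A True
  have hvA : ∀ a, A (v a) := fun a => (Dat.pA_pos (Pool.KSM.iid_pos hp0 hv a).1).1
  have huA : ∀ a, A (u a) := fun a => (Dat.pA_pos (Pool.KSM.iid_pos hp0 hu a).1).1
  have hvs : ∀ a b, slam F ⌊N.w0 * J⌋₊ (v a) = slam F ⌊N.w0 * J⌋₊ (v b) := fun a b =>
    (Pool.KSM.iid_pos hp0 hv a).2.trans (Pool.KSM.iid_pos hp0 hv b).2.symm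
  have hus : ∀ a b, slam F ⌊N.w0 * J⌋₊ (u a) = slam F ⌊N.w0 * J⌋₊ (u b) := fun a b =>
    (Pool.KSM.iid_pos hp0 hu a).2.trans (Pool.KSM.iid_pos hp0 hu b).2.symm
  have hvl : ∀ a b, F.l (v a) = F.l (v b) := fun a b => (Prod.ext_iff.1 (hvs a b)).1
  have hul : ∀ a b, F.l (u a) = F.l (u b) := fun a b => (Prod.ext_iff.1 (hus a b)).1
  have hvT : ∀ a b, F.T1 ⌊N.w0 * J⌋₊ (v a) = F.T1 ⌊N.w0 * J⌋₊ (v b) := fun a b =>
    (Prod.ext_iff.1 (Prod.ext_iff.1 (hvs a b)).2).2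
  have huT : ∀ a b, F.T1 ⌊N.w0 * J⌋₊ (u a) = F.T1 ⌊N.w0 * J⌋₊ (u b) := fun a b =>
    (Prod.ext_iff.1 (Prod.ext_iff.1 (hus a b)).2).2
  have hpl : ∀ a b, d.pl (v a) = d.pl (v b) := fun a b => by
    unfold Dat.pl
    rw [d.lab0.cls _ (hvA a), d.lab0.cls _ (hvA b), hvs a b]
  have hplk : d.pl (u k) = d.pl (v k) := by
    unfold Dat.pl
    rw [hpt]
  have hTk : F.T (u k) = F.T (v k) := (Prod.ext_iff.1 (Prod.ext_iff.1 hpt).2).1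
  have htk : F.t (u k) = F.t (v k) := by
    unfold Fam.t
    rw [hTk]
  have hTuv : F.T1 ⌊N.w0 * J⌋₊ (u j) = F.T1 ⌊N.w0 * J⌋₊ (v j) :=
    T1_of F hN.w01 hN.w1J (d.T1_κ (huA j) (hvA j) hκj)
  have p0 : (0 : ℝ) < 2 ^ ⌊N.w0 * J⌋₊ := by positivity
  have p1 : (0 : ℝ) < 2 ^ ⌊N.w1 * J⌋₊ := by positivity
  have pJ : (0 : ℝ) < 2 ^ J := by positivity
  have p01 : (2 : ℝ) ^ ⌊N.w0 * J⌋₊ ≤ 2 ^ ⌊N.w1 * J⌋₊ := pow_le_pow_right₀ one_le_two hN.w01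
  -- the polynomial on the exact line
  have hline : ∀ t : ℝ, |t - F.t (u i)| ≤ 2 / 2 ^ ⌊N.w0 * J⌋₊ →
      |eval (d.ln (F.l (u i)) t) Q| ≤
        C * (2 ^ ⌊N.w1 * J⌋₊ / 2 ^ ⌊N.w0 * J⌋₊) ^ D * (H' * ε) := by
    intro t ht
    obtain ⟨p, hp, hpe⟩ := exists_line Q (d.ln (F.l (u i)) 0)
      (fun o => d.ln (F.l (u i)) 1 o - d.ln (F.l (u i)) 0 o)
    have he : ∀ t, p.eval t = eval (d.ln (F.l (u i)) t) Q := by
      intro t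
      rw [← hpe t, d.ln_aff _ t]
    have h1 := hgro p (F.t (u i)) (2 / 2 ^ ⌊N.w1 * J⌋₊) (2 / 2 ^ ⌊N.w0 * J⌋₊) t (H' * ε)
      (hp.trans hQ) (by positivity) (div_le_div_of_nonneg_left zero_le_two p0 p01) ht
      (fun y hy => by
        rw [he]
        exact d.small_line hN (huA i) (hQ.trans hDK) hε hH hwi
          (fun ω h1 h2 h3 => hsm ω h1 h2 (h3.trans hκi)) hy)
    rw [he] at h1
    have e1 : (2 : ℝ) / 2 ^ ⌊N.w0 * J⌋₊ / (2 / 2 ^ ⌊N.w1 * J⌋₊) =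
        2 ^ ⌊N.w1 * J⌋₊ / 2 ^ ⌊N.w0 * J⌋₊ := by field_simp
    rwa [e1] at h1
  -- the polynomial of the shifted line
  set e : ℝ := F.d (u k) (c 0) - F.d (v k) (c 0) with he
  set w : ℝ := d.Ez (u k) - d.Ez (v k) with hw
  set f := d.fr (v j) (d.κ (v j)) Q with hf
  obtain ⟨p, hp, hpe⟩ := pol_line f (2 ^ ⌊N.w0 * J⌋₊) (-(F.T1 ⌊N.w0 * J⌋₊ (v j) : ℝ)) e w
    (d.s (v k))
  have hpd : p.natDegree ≤ K' := hp.trans (d.fr_deg _ _ hQ hK)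
  obtain ⟨t, htx⟩ : ∃ t : ℝ, t = ((F.T1 ⌊N.w0 * J⌋₊ (v j) : ℝ) + x) / 2 ^ ⌊N.w0 * J⌋₊ := ⟨_, rfl⟩
  have hxt : 2 ^ ⌊N.w0 * J⌋₊ * t + -(F.T1 ⌊N.w0 * J⌋₊ (v j) : ℝ) = x := by
    rw [htx]
    field_simp
    ring
  have h0 := hpe t
  rw [hxt] at h0
  rw [← h0]
  have ht : |t - F.t (u j)| ≤ 2 / 2 ^ ⌊N.w1 * J⌋₊ := by
    have h1 : |t - F.t (v j)| ≤ 1 / 2 ^ ⌊N.w1 * J⌋₊ := by
      have e1 : t - F.t (v j) = (x - d.s (v j)) / 2 ^ ⌊N.w0 * J⌋₊ := by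
        rw [htx]
        unfold Dat.s
        field_simp
        ring
      rw [e1, abs_div, abs_of_pos p0, div_le_iff₀ p0]
      calc _ ≤ _ := hx
        _ = _ := by ring
    have h2 := t_win F hN.w1J (d.T1_κ (hvA j) (huA j) hκj.symm)
    have e1 : t - F.t (u j) = (t - F.t (v j)) + (F.t (v j) - F.t (u j)) := by ring
    have e2 : (2 : ℝ) / 2 ^ ⌊N.w1 * J⌋₊ = 1 / 2 ^ ⌊N.w1 * J⌋₊ + 1 / 2 ^ ⌊N.w1 * J⌋₊ := by ring
    rw [e1, e2]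
    exact (abs_add_le _ _).trans (add_le_add h1 h2)
  refine (hwj p hpd t ht).trans (mul_le_mul_of_nonneg_left ?_ hH)
  have hb0 : 0 ≤ C * (2 ^ ⌊N.w1 * J⌋₊ / 2 ^ ⌊N.w0 * J⌋₊) ^ D * (H' * ε) := by positivity
  refine mx_le (by positivity) fun ω' hω' => ?_
  obtain ⟨h1, h2, h3⟩ := hω'
  have h4 : F.l ω' = F.l (u j) := (Prod.ext_iff.1 h3).1
  have h5 : F.T1 ⌊N.w1 * J⌋₊ ω' = F.T1 ⌊N.w1 * J⌋₊ (u j) :=
    (Prod.ext_iff.1 (Prod.ext_iff.1 h3).2).2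
  have h6 : d.κ ω' = d.κ (v j) := (d.κ_slam h1 (huA j) h3).trans hκj
  have hT0 : F.T1 ⌊N.w0 * J⌋₊ ω' = F.T1 ⌊N.w0 * J⌋₊ (u j) := T1_of F hN.w01 hN.w1J h5
  -- the value on the exact line
  have h7 := hline (F.t ω') (by
    refine (t_win F (hN.w01.trans hN.w1J) (hT0.trans (huT j i))).trans ?_
    exact div_le_div_of_nonneg_right one_le_two p0.le)
  rw [hul i j, ← h4] at h7
  have h8 := psi_var Q d.h0_pos (x := d.zs ω') (y := d.ln (F.l ω') (F.t ω')) d.ln_near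
    (hvar ω' h1 h2 h6)
  -- the value on the leaf
  obtain ⟨y, hy⟩ : ∃ y : ℝ, y = 2 ^ ⌊N.w0 * J⌋₊ * F.t ω' + -(F.T1 ⌊N.w0 * J⌋₊ (v j) : ℝ) :=
    ⟨_, rfl⟩
  rw [hpe, ← hy, hf, Dat.eval_fr]
  have hyt : ((F.T1 ⌊N.w0 * J⌋₊ (v j) : ℝ) + y) / 2 ^ ⌊N.w0 * J⌋₊ = F.t ω' := by
    rw [hy]
    field_simp
    ring
  have hys : (y - d.s (v k)) / 2 ^ ⌊N.w0 * J⌋₊ = F.t ω' - F.t (v k) := by
    rw [hy]
    unfold Dat.s
    rw [hvT k j]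
    field_simp
    ring
  have hsh : ∀ i, |F.x (v k) (c i) - F.x (u k) (c i)| ≤ 1 / 2 ^ J := by
    intro i
    have e1 : ⌊(2 : ℝ) ^ J * F.x (u k) (c i)⌋ = ⌊(2 : ℝ) ^ J * F.x (v k) (c i)⌋ :=
      congrFun (Prod.ext_iff.1 hpt).1 (c i)
    have a1 := Int.floor_le ((2 : ℝ) ^ J * F.x (u k) (c i))
    have a2 := Int.lt_floor_add_one ((2 : ℝ) ^ J * F.x (u k) (c i))
    have a3 := Int.floor_le ((2 : ℝ) ^ J * F.x (v k) (c i))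
    have a4 := Int.lt_floor_add_one ((2 : ℝ) ^ J * F.x (v k) (c i))
    rw [e1] at a1 a2
    rw [le_div_iff₀ pJ, ← abs_of_pos pJ, ← abs_mul, abs_le]
    constructor <;> nlinarith
  have hbn : ∀ l < 3, |d.rel (v j) y (e * (y - d.s (v k))) (w * (y - d.s (v k))) l -
      px c (ptr F J ω') l| ≤ 2 / 2 ^ J := by
    have e2 : (2 : ℝ) / 2 ^ J = 1 / 2 ^ J + 1 / 2 ^ J := by ring
    intro l hl
    rw [Dat.rel_eq]
    have hlj : F.l ω' = F.l (u k) := h4.trans (hul j k)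
    have hu' : ∀ i, F.u ω' i = F.u (u k) i := fun i => congrFun (Prod.ext_iff.1 hlj).1 i
    have hd' : ∀ i, F.d ω' i = F.d (u k) i := fun i => congrFun (Prod.ext_iff.1 hlj).2 i
    have hlv : F.l (v j) = F.l (v k) := hvl j k
    have hx1 : ∀ i, F.x ω' i = F.x (u k) i + (F.t ω' - F.t (v k)) * F.d (u k) i := by
      intro i
      unfold Fam.x
      rw [hu', hd', htk]
      ring
    interval_cases l
    · rw [reg_zero, Dat.px_t, hyt, sub_self, abs_zero]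
      positivity
    · rw [reg_one, hyt, hlv]
      have a1 := Dat.px_x c ω' 0
      have e3 : (F.l (v k)).1 (c 0) + F.t ω' * (F.l (v k)).2 (c 0) +
          e * (y - d.s (v k)) / 2 ^ ⌊N.w0 * J⌋₊ - px c (ptr F J ω') 1 =
          (F.x (v k) (c 0) - F.x (u k) (c 0)) - (px c (ptr F J ω') (0 + 1) - F.x ω' (c 0)) := by
        rw [mul_div_assoc, hys, hx1 (c 0), he]
        show F.u (v k) (c 0) + F.t ω' * F.d (v k) (c 0) + _ - _ = _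
        rw [show F.x (v k) (c 0) = F.u (v k) (c 0) + F.t (v k) * F.d (v k) (c 0) from rfl]
        ring
      rw [e3, e2]
      exact (abs_sub _ _).trans (add_le_add (hsh 0) a1)
    · rw [reg_two, hyt, hlv]
      have a1 := Dat.px_x c ω' 1
      have e3 : (F.l (v k)).1 (c 1) + F.t ω' * (F.l (v k)).2 (c 1) +
          d.pl (v j) 2 * (e * (y - d.s (v k))) / 2 ^ ⌊N.w0 * J⌋₊ +
          w * (y - d.s (v k)) / 2 ^ d.G0 - px c (ptr F J ω') 2 =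
          (F.x (v k) (c 1) - F.x (u k) (c 1)) - (px c (ptr F J ω') (1 + 1) - F.x ω' (c 1)) := by
        have e4 : d.pl (v j) 2 * (e * (y - d.s (v k))) / 2 ^ ⌊N.w0 * J⌋₊ =
            d.pl (v k) 2 * e * (F.t ω' - F.t (v k)) := by
          rw [← hys, hpl j k]
          ring
        have e5 : w * (y - d.s (v k)) / 2 ^ d.G0 =
            (F.d (u k) (c 1) - F.d (v k) (c 1) - d.pl (v k) 2 * e) * (F.t ω' - F.t (v k)) := by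
          rw [← hys, hw, he]
          unfold Dat.Ez
          rw [hplk]
          have pG : (2 : ℝ) ^ d.G0 ≠ 0 := by positivity
          field_simp
          ring
        rw [e4, e5, hx1 (c 1)]
        show F.u (v k) (c 1) + F.t ω' * F.d (v k) (c 1) + _ + _ - _ = _
        rw [show F.x (v k) (c 1) = F.u (v k) (c 1) + F.t (v k) * F.d (v k) (c 1) from rfl]
        ring
      rw [e3, e2]
      exact (abs_sub _ _).trans (add_le_add (hsh 1) a1)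
  have h9 := psi_var Q d.h0_pos (x := d.zs ω')
    (y := d.lf (d.κ ω') (d.rel (v j) y (e * (y - d.s (v k))) (w * (y - d.s (v k)))))
    (d.lf_near hN h1 hbn) (hvar ω' h1 h2 h6)
  rw [h6] at h9
  have h10 := abs_sub_abs_le_abs_sub
    (eval (d.lf (d.κ (v j)) (d.rel (v j) y (e * (y - d.s (v k))) (w * (y - d.s (v k))))) Q)
    (eval (d.zs ω') Q)
  have h11 := abs_sub_abs_le_abs_sub (eval (d.zs ω') Q) (eval (d.ln (F.l ω') (F.t ω')) Q)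
  rw [abs_sub_comm] at h11
  linarith

end Pool.PLN
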