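import Pool.Agent.H81.PLN.Evn
import Pool.Agent.H81.PLN.Win

/-!
# The samples of a leaf in a cell control the polynomials on the leaf

`lr_code`: the pure form, for parts of the leaf which are given by any function. `lf_chart`: the
points over the box of the label are in the threefold chart. `cel_ch`: the entropy of the cell.
-/

set_option autoImplicit false

namespace Pool.PLN

open Finset Real Pool.JMN Pool.JMS
open Pool.Agent.H49.Ent Pool.Agent.H32.Dense Pool.STK Pool.KAF Pool.KS3 Pool.M3F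
open Pool.IEN Pool.EXS Pool.KJA Pool.CLO37
open Pool.KAL (Psi Psi_eq_box jet expBox totalDegree_jet_le Psi_nonneg)

/-- **On the whole chart**, three times enlarged, by the samples of a part. -/
theorem lr_code (σ : Type) [Fintype σ] (d D k₀ : ℕ) : ∃ C : ℝ, 1 ≤ C ∧
    ∀ (C₀ : ℝ) (Ω Λ Ξ Z W : Type) [Fintype Ω] (p : Ω → ℝ) (lam : Ω → Λ)
      (x : Ω → Ξ) (T : Ξ → ℕ) (z : Ξ → σ → ℝ) (A B : Λ → σ → ℝ) (zx : Ξ → Z) (zl : Λ → Z)
      (Yb : Ξ → Fin d → ℕ) (Ng : Z → Fin d → ℕ) (Φ : Z → σ → MvPolynomial (Fin d) ℝ)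
      (M N : ℕ) (μ e₁ h : ℝ) (c : Ω → W),
      1 ≤ C₀ → 1 ≤ M → IsLaw p → CLeaf k₀ C₀ M p lam x T z A B zx zl Yb Ng Φ →
      MxC N μ p lam x (fun ξ => ∑ i, Real.log (Ng (zx ξ) i)) Yb → 0 ≤ μ →
      Real.log M - CH p (fun ω => T (x ω)) lam ≤ e₁ → 0 ≤ e₁ → 0 < h →
      ms p (fun ω => ¬ ∀ F : MvPolynomial σ ℝ, F.totalDegree ≤ D → ∀ u ∈ bcube d,
        Psi F (C₀ / M) (cpt (Φ (zx (x ω))) u) ≤
          C * (Real.exp h * mx (fun ω' => 0 < p ω' ∧ zx (x ω') = zx (x ω) ∧ c ω' = c ω)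
            (fun ω' => Psi F (C₀ / M) (z (x ω'))))) ≤
        (2 * D * CH p c (fun ω => zx (x ω)) + C * ((N + 1) * (e₁ + 1) + μ)) / h := by
  classical
  obtain ⟨C₁, hC₁, hlrp⟩ := lrp σ d D k₀
  obtain ⟨C₂, hC₂, hbig⟩ := big_cube d (k₀ * D)
  obtain ⟨n, hn⟩ : ∃ n : ℕ, n = (expBox σ D).card := ⟨_, rfl⟩
  have hn0 : (0 : ℝ) ≤ n := Nat.cast_nonneg n
  refine ⟨C₁ + n * C₂, by nlinarith, ?_⟩
  intro C₀ Ω Λ Ξ Z W _ p lam x T z A B zx zl Yb Ng Φ M N μ e₁ h c hC₀ hM hp hL hmx hμ he₁ he₁0 hh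
  have hp0 := hp.nonneg
  have h1 := hlrp C₀ Ω Λ Ξ Z Ω W p lam x T z A B zx zl Yb Ng Φ M N μ e₁ h p x c
    hC₀ hM hL hmx hμ he₁ he₁0 hh hp (fun _ => rfl)
  refine le_trans ?_ (h1.trans ?_)
  · refine Finset.sum_le_sum fun ω _ => ?_
    rcases (hp0 ω).eq_or_lt with hω | hω
    · rw [← hω, ite_self, ite_self]
    by_cases b : ∃ (F : MvPolynomial σ ℝ) (u : Fin d → ℝ), F ≠ 0 ∧ F.totalDegree ≤ D ∧
        u ∈ ucube d ∧ ∀ v', 0 < p v' → zx (x v') = zx (x ω) → c v' = c ω →
          Real.exp h * Psi F (C₀ / M) (z (x v')) < Psi F (C₀ / M) (cpt (Φ (zx (x ω))) u)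
    · rw [if_pos b]
      split_ifs
      · exact le_rfl
      · exact hω.le
    · have a : ∀ F : MvPolynomial σ ℝ, F.totalDegree ≤ D → ∀ u ∈ bcube d,
          Psi F (C₀ / M) (cpt (Φ (zx (x ω))) u) ≤
            (C₁ + n * C₂) * (Real.exp h *
              mx (fun ω' => 0 < p ω' ∧ zx (x ω') = zx (x ω) ∧ c ω' = c ω)
                (fun ω' => Psi F (C₀ / M) (z (x ω')))) := by
        intro F hF u hu
        obtain ⟨ν, hν⟩ : ∃ ν, ν = mx (fun ω' => 0 < p ω' ∧ zx (x ω') = zx (x ω) ∧ c ω' = c ω)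
                (fun ω' => Psi F (C₀ / M) (z (x ω'))) := ⟨_, rfl⟩
        have hν0 : 0 ≤ ν := by
          rw [hν]
          exact mx_nonneg fun _ => Psi_nonneg _ _ _
        rw [← hν]
        have hb : 0 ≤ Real.exp h * ν := mul_nonneg (Real.exp_pos h).le hν0
        rcases eq_or_ne F 0 with h0 | h0
        · have hz : Psi F (C₀ / M) (cpt (Φ (zx (x ω))) u) = 0 := by
            rw [h0]
            unfold Pool.KAL.Psi Pool.KAL.shf
            rw [map_zero]
            unfold Pool.KAL.coefSum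
            simp
          rw [hz]
          positivity
        have hcube : ∀ y ∈ ucube d, Psi F (C₀ / M) (cpt (Φ (zx (x ω))) y) ≤
            Real.exp h * ν := by
          intro y hy
          by_contra hcon
          push Not at hcon
          refine b ⟨F, y, h0, hF, hy, fun v' hv' hz hc => ?_⟩
          have h3 : Psi F (C₀ / M) (z (x v')) ≤ ν := by
            rw [hν]
            exact le_mx (P := fun ω' => 0 < p ω' ∧ zx (x ω') = zx (x ω) ∧ c ω' = c ω)
              (f := fun ω' => Psi F (C₀ / M) (z (x ω'))) ⟨hv', hz, hc⟩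
          have h5 := mul_le_mul_of_nonneg_left h3 (Real.exp_pos h).le
          linarith
        have hjet : ∀ α ∈ expBox σ D,
            |MvPolynomial.eval (cpt (Φ (zx (x ω))) u) (jet F (C₀ / M) α)| ≤
              C₂ * (Real.exp h * ν) := by
          intro α hα
          have hcs : cs (fun _ => 0) 1 (MvPolynomial.bind₁ (Φ (zx (x ω)))
              (jet F (C₀ / M) α)) ≤ Real.exp h * ν := by
            refine SML.cs_le _ hb fun y hy => ?_
            rw [eval_bind]
            refine le_trans ?_ (hcube y fun i => ?_)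
            · rw [Psi_eq_box F D hF]
              exact Finset.single_le_sum
                (f := fun α => |MvPolynomial.eval (cpt (Φ (zx (x ω))) y) (jet F (C₀ / M) α)|)
                (fun _ _ => abs_nonneg _) hα
            · have := hy i
              exact ⟨by linarith [this.1], by linarith [this.2]⟩
          have hdeg : (MvPolynomial.bind₁ (Φ (zx (x ω))) (jet F (C₀ / M) α)).totalDegree ≤
              k₀ * D :=
            (SML.totalDegree_bind_le _ k₀ (hL.chart ω hω).deg _).trans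
              (Nat.mul_le_mul_left _ ((totalDegree_jet_le F _ α).trans hF))
          have h3 := (hbig _ hdeg).1 u hu
          rw [eval_bind] at h3
          exact h3.trans (mul_le_mul_of_nonneg_left hcs (by linarith))
        rw [Psi_eq_box F D hF]
        calc _ ≤ ∑ _α ∈ expBox σ D, C₂ * (Real.exp h * ν) := Finset.sum_le_sum hjet
          _ = n * C₂ * (Real.exp h * ν) := by
              rw [Finset.sum_const, ← hn, nsmul_eq_mul]
              ring
          _ ≤ _ := mul_le_mul_of_nonneg_right (by linarith) hb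
      rw [if_neg (not_not.2 a), if_neg b]
  · refine div_le_div_of_nonneg_right ?_ hh.le
    have h3 : 0 ≤ ((N : ℝ) + 1) * (e₁ + 1) + μ := by positivity
    have h4 : C₁ * ((N + 1) * (e₁ + 1) + μ) ≤ (C₁ + n * C₂) * ((N + 1) * (e₁ + 1) + μ) :=
      mul_le_mul_of_nonneg_right (by nlinarith) h3
    linarith

end Pool.PLN
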