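import Pool.Agent.H81.PLN.Dta

/-!
# Lemma PLANE: points near a sample, and the line of a sample
-/

set_option autoImplicit false

namespace Pool.PLN

open Finset Real MvPolynomial Pool.JMN Pool.JMS
open Pool.Agent.H49.Ent Pool.Agent.H32.Dense Pool.STK Pool.KA Pool.KSAT Pool.K2S Pool.PB Pool.STAT
  Pool.GEN Pool.S6C Pool.M3F Pool.CLO37 Pool.KAF Pool.KS3 Pool.EXS
open Pool.KAL (Psi)

variable {m J : ℕ}

/-- The gradient of an affine polynomial is constant. -/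
theorem grad_const {σ : Type} {P : MvPolynomial σ ℝ} (hP : P.totalDegree ≤ 1) (i : σ)
    (b b' : σ → ℝ) : eval b (pderiv i P) = eval b' (pderiv i P) := by
  classical
  have h1 : (pderiv i P).totalDegree ≤ 0 := by
    rw [totalDegree]
    refine Finset.sup_le fun k hk => ?_
    have h1 : coeff k (MvPolynomial.pderiv i P) ≠ 0 := mem_support_iff.1 hk
    rw [coeff_pderiv] at h1
    have h2 : (k + Finsupp.single i 1) ∈ P.support := mem_support_iff.2 (left_ne_zero_of_mul h1)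
    have h3 : ((k + Finsupp.single i 1).sum fun _ x => x) ≤ P.totalDegree := le_totalDegree h2
    have h4 : ((k + Finsupp.single i 1).sum fun _ x => x) = (k.sum fun _ x => x) + 1 := by
      rw [Finsupp.sum_add_index' (fun _ => rfl) (fun _ _ _ => rfl), Finsupp.sum_single_index rfl]
    omega
  have h2 := totalDegree_eq_zero_iff_eq_C.1 (Nat.le_zero.1 h1)
  rw [h2, eval_C, eval_C]

/-- The truncated point. -/
noncomputable def tr3 (b : ℕ → ℝ) : ℕ → ℝ := unF 3 0 (fun i : Fin 3 => b i.val)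

theorem eval_tr3 {P : PN} (hP : P.vars ⊆ range 3) (b : ℕ → ℝ) : eval (tr3 b) P = eval b P := by
  unfold tr3
  exact (eval_eq_unF hP fun i => by simp).symm

theorem tr3_lt {b : ℕ → ℝ} {i : ℕ} (hi : i < 3) : tr3 b i = b i := by
  unfold tr3 unF
  rw [dif_pos hi, pow_zero, div_one]

theorem bxr_tr3 {Φ : ℕ → PN} (hΦ : TriN Φ) {ρ : ℝ} {g : ℕ → ℕ} {b : ℕ → ℝ}
    (h : CLO.Bxr ρ g Φ 3 b) : CLO.Bxr ρ g Φ 3 (tr3 b) := by
  intro i hi
  rw [tr3_lt hi, eval_tr3 ((hΦ i).trans (Finset.range_mono hi.le))]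
  exact h i hi

/-- Mean value inequality for the labels. -/
theorem pn_mv {P : PN} (hP : P.vars ⊆ range 3) {b b' : ℕ → ℝ} {δ L : ℝ}
    (hδ : ∀ l < 3, |b l - b' l| ≤ δ) (hL : 0 ≤ L)
    (hg : ∀ t ∈ Set.Icc (0 : ℝ) 1, ∀ l < 3,
      |eval (tr3 (fun i => b' i + t * (b i - b' i))) (pderiv l P)| ≤ L) :
    |eval b P - eval b' P| ≤ 3 * L * δ := by
  have h1 := mv_sg (toF 3 0 P) (fun _ => L) (u := fun i : Fin 3 => b' i.val)
    (u' := fun i : Fin 3 => b i.val) (fun t ht i => by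
      rw [eval_pderiv_toF]
      exact hg t ht i.val i.2)
  have e1 : ∀ b : ℕ → ℝ, eval (fun i : Fin 3 => b i.val) (toF 3 0 P) = eval b P := by
    intro b
    rw [eval_toF, pow_zero, one_mul]
    exact eval_tr3 hP b
  rw [e1, e1] at h1
  refine h1.trans ?_
  calc ∑ i : Fin 3, L * |b i.val - b' i.val| ≤ ∑ _i : Fin 3, L * δ :=
        Finset.sum_le_sum fun i _ => mul_le_mul_of_nonneg_left (hδ i.val i.2) hL
    _ = 3 * L * δ := by
        rw [Finset.sum_const, Finset.card_univ, Fintype.card_fin, nsmul_eq_mul]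
        push_cast
        ring

namespace Dat

variable {N : Nums} {φ : ℝ} {K : ℕ} {F : Fam m J} {c : ℕ → Fin m} {A : F.Ω → Prop}
  (d : Dat N φ K F c A)

theorem pos_bx (hN : d.Nms) {ω : F.Ω} (hω : A ω) :
    CLO.Bxr 1 (wid ⌊N.w1 * J⌋₊ d.g') (d.P (d.κ ω)) 3 (px c (ptr F J ω)) := by
  intro i hi
  exact pos_w d.lab hN.w1J hω hi

theorem aff_le {ω : F.Ω} (hN : d.Nms) (hω : A ω) {i : ℕ} (hi : i < 3) (l : ℕ) (b : ℕ → ℝ) :
    |eval b (pderiv l (d.P (d.κ ω) i))| ≤ d.L := by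
  by_cases hl : l < i
  · rw [grad_const (d.dg _ i hi) l b (px c (ptr F J ω))]
    exact d.lab.grad ω hω _ ((d.pos_bx hN hω).mono (by norm_num) le_rfl) i (by omega) l hl
  · have h1 : pderiv l (d.P (d.κ ω) i) = 0 :=
      pderiv_eq_zero_of_notMem_vars fun h => hl (Finset.mem_range.1 (d.lab.tri _ i h))
    rw [h1, map_zero, abs_zero]
    exact d.L0

/-- Points near a sample are in the box, and the sheet changes little. -/
theorem bx_near (hN : d.Nms) {ω : F.Ω} (hω : A ω) {b : ℕ → ℝ}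
    (hb : ∀ l < 3, |b l - px c (ptr F J ω) l| ≤ 2 / 2 ^ J) :
    CLO.Bxr 2 (wid ⌊N.w1 * J⌋₊ d.g') (d.P (d.κ ω)) 3 b ∧
      |eval b (d.P (d.κ ω) 3) - eval (px c (ptr F J ω)) (d.P (d.κ ω) 3)| ≤
        3 * d.L * (2 / 2 ^ J) := by
  have hL := d.L0
  have hbox : ∀ b : ℕ → ℝ, (∀ l < 3, |b l - px c (ptr F J ω) l| ≤ 2 / 2 ^ J) →
      CLO.Bxr 2 (wid ⌊N.w1 * J⌋₊ d.g') (d.P (d.κ ω)) 3 b := by
    intro b hb i hi
    have h1 := d.pos_bx hN hω i hi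
    have h2 : |eval b (d.P (d.κ ω) i) - eval (px c (ptr F J ω)) (d.P (d.κ ω) i)| ≤
        3 * d.L * (2 / 2 ^ J) :=
      pn_mv ((d.lab.tri _ i).trans (Finset.range_mono hi.le)) hb hL
        (fun t _ l _ => d.aff_le hN hω hi l _)
    have h3 := hN.gJ i hi
    have p1 : (0 : ℝ) < 2 ^ wid ⌊N.w1 * J⌋₊ d.g' i := by positivity
    have p2 : (0 : ℝ) < 2 ^ J := by positivity
    have h4 : (1 + 3 * d.L) * (2 / 2 ^ J) ≤ 1 / 2 ^ wid ⌊N.w1 * J⌋₊ d.g' i := by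
      rw [mul_div_assoc', div_le_div_iff₀ p2 p1]
      calc (1 + 3 * d.L) * 2 * 2 ^ wid ⌊N.w1 * J⌋₊ d.g' i =
            (1 + 3 * d.L) * (2 * 2 ^ wid ⌊N.w1 * J⌋₊ d.g' i) := by ring
        _ ≤ 2 ^ J := h3
        _ = 1 * 2 ^ J := (one_mul _).symm
    have h5 := hb i hi
    have e1 : b i - eval b (d.P (d.κ ω) i) = (b i - px c (ptr F J ω) i) +
        (px c (ptr F J ω) i - eval (px c (ptr F J ω)) (d.P (d.κ ω) i)) -
        (eval b (d.P (d.κ ω) i) - eval (px c (ptr F J ω)) (d.P (d.κ ω) i)) := by ring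
    rw [e1]
    refine (abs_sub _ _).trans ?_
    have h6 := abs_add_le (b i - px c (ptr F J ω) i)
      (px c (ptr F J ω) i - eval (px c (ptr F J ω)) (d.P (d.κ ω) i))
    have e2 : (2 : ℝ) / 2 ^ wid ⌊N.w1 * J⌋₊ d.g' i = 1 / 2 ^ wid ⌊N.w1 * J⌋₊ d.g' i +
        1 / 2 ^ wid ⌊N.w1 * J⌋₊ d.g' i := by ring
    rw [e2]
    have h7 : |b i - px c (ptr F J ω) i| + |eval b (d.P (d.κ ω) i) -
        eval (px c (ptr F J ω)) (d.P (d.κ ω) i)| ≤ (1 + 3 * d.L) * (2 / 2 ^ J) := by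
      linarith
    linarith
  refine ⟨hbox b hb, pn_mv (d.lab.tri _ 3) hb hL fun t ht l hl => ?_⟩
  refine d.lab.grad ω hω _ ((bxr_tr3 (d.lab.tri _) (hbox _ fun l hl => ?_)).mono
    (by norm_num) le_rfl) 3 le_rfl l hl
  rw [add_sub_cancel_left, abs_mul, abs_of_nonneg ht.1]
  calc t * |b l - px c (ptr F J ω) l| ≤ 1 * (2 / 2 ^ J) :=
        mul_le_mul ht.2 (hb l hl) (abs_nonneg _) zero_le_one
    _ = _ := one_mul _

/-- The leaf over a point near a sample. -/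
theorem lf_near (hN : d.Nms) {ω : F.Ω} (hω : A ω) {b : ℕ → ℝ}
    (hb : ∀ l < 3, |b l - px c (ptr F J ω) l| ≤ 2 / 2 ^ J) (o : Option (Fin 3)) :
    |d.lf (d.κ ω) b o - d.zs ω o| ≤ d.h0 := by
  have hL := d.L0
  have hT := d.T_ge
  have hh := d.h0_ge
  obtain ⟨T, hTe⟩ : ∃ T : ℝ, T = 2 ^ ⌊N.w1 * J⌋₊ / 2 ^ d.g' 2 := ⟨_, rfl⟩
  have hT0 : 0 ≤ T := by
    rw [hTe]
    positivity
  rw [← hTe] at hT hh
  have hLT : 0 ≤ d.L * T := mul_nonneg hL hT0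
  have p1 : (0 : ℝ) < 2 ^ ⌊N.w1 * J⌋₊ := by positivity
  cases o with
  | none =>
    show |2 ^ ⌊N.w1 * J⌋₊ * eval b (d.P (d.κ ω) 3) -
      2 ^ ⌊N.w1 * J⌋₊ * (px c (ptr F J ω) (2 + 1) / 2 ^ d.sg)| ≤ d.h0
    rw [← mul_sub, abs_mul, abs_of_pos p1]
    have h1 := (d.bx_near hN hω hb).2
    have h2 := d.lab.posN ω hω
    have e1 : eval b (d.P (d.κ ω) 3) - px c (ptr F J ω) (2 + 1) / 2 ^ d.sg =
        (eval b (d.P (d.κ ω) 3) - eval (px c (ptr F J ω)) (d.P (d.κ ω) 3)) -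
        (px c (ptr F J ω) (2 + 1) / 2 ^ d.sg -
          eval (px c (ptr F J ω)) (d.P (d.z (ptr F J ω)) (2 + 1))) := by
      unfold κ
      ring
    have h3 : |eval b (d.P (d.κ ω) 3) - px c (ptr F J ω) (2 + 1) / 2 ^ d.sg| ≤
        3 * d.L * (2 / 2 ^ J) + (1 / 2 ^ d.g' 2 + 1 / 2 ^ J) := by
      rw [e1]
      exact (abs_sub _ _).trans (add_le_add h1 h2)
    refine (mul_le_mul_of_nonneg_left h3 p1.le).trans ?_
    have e2 : (2 : ℝ) ^ ⌊N.w1 * J⌋₊ * (3 * d.L * (2 / 2 ^ J) + (1 / 2 ^ d.g' 2 + 1 / 2 ^ J)) =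
        (6 * d.L + 1) * (2 ^ ⌊N.w1 * J⌋₊ / 2 ^ J) + T := by
      rw [hTe]
      ring
    rw [e2]
    have h4 : (6 * d.L + 1) * (2 ^ ⌊N.w1 * J⌋₊ / 2 ^ J) ≤ (6 * d.L + 1) * T :=
      mul_le_mul_of_nonneg_left hT (by linarith)
    nlinarith
  | some i =>
    show |2 ^ ⌊N.w1 * J⌋₊ * b i.val - 2 ^ ⌊N.w1 * J⌋₊ * px c (ptr F J ω) i.val| ≤ d.h0
    rw [← mul_sub, abs_mul, abs_of_pos p1]
    refine (mul_le_mul_of_nonneg_left (hb i.val i.2) p1.le).trans ?_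
    have e2 : (2 : ℝ) ^ ⌊N.w1 * J⌋₊ * (2 / 2 ^ J) = 2 * (2 ^ ⌊N.w1 * J⌋₊ / 2 ^ J) := by ring
    rw [e2]
    nlinarith

/-- The line in the scaled coordinates. -/
noncomputable def ln (l : (Fin m → ℝ) × (Fin m → ℝ)) (t : ℝ) (o : Option (Fin 3)) : ℝ :=
  o.elim (2 ^ ⌊N.w1 * J⌋₊ * ((l.1 (c 2) + t * l.2 (c 2)) / 2 ^ d.sg))
    (fun i => 2 ^ ⌊N.w1 * J⌋₊ * (if i.val = 0 then t else
      l.1 (c (i.val - 1)) + t * l.2 (c (i.val - 1))))

theorem ln_aff (l : (Fin m → ℝ) × (Fin m → ℝ)) (t : ℝ) :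
    d.ln l t = fun o => d.ln l 0 o + t * (d.ln l 1 o - d.ln l 0 o) := by
  funext o
  cases o with
  | none =>
    simp only [ln, Option.elim]
    ring
  | some i =>
    simp only [ln, Option.elim]
    split_ifs <;> ring

/-- The line of a sample is near the sample. -/
theorem ln_near {ω : F.Ω} (o : Option (Fin 3)) :
    |d.ln (F.l ω) (F.t ω) o - d.zs ω o| ≤ d.h0 := by
  have hL := d.L0
  have hT := d.T_ge
  have hh := d.h0_ge
  obtain ⟨T, hTe⟩ : ∃ T : ℝ, T = 2 ^ ⌊N.w1 * J⌋₊ / 2 ^ d.g' 2 := ⟨_, rfl⟩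
  have hT0 : 0 ≤ T := by
    rw [hTe]
    positivity
  rw [← hTe] at hT hh
  have hLT : 0 ≤ d.L * T := mul_nonneg hL hT0
  have hTh : T ≤ d.h0 := by nlinarith
  have p1 : (0 : ℝ) < 2 ^ ⌊N.w1 * J⌋₊ := by positivity
  have hx : ∀ i, |F.x ω (c i) - px c (ptr F J ω) (i + 1)| ≤ 1 / 2 ^ J := fun i => by
    rw [abs_sub_comm]
    exact px_x c ω i
  cases o with
  | none =>
    show |2 ^ ⌊N.w1 * J⌋₊ * (F.x ω (c 2) / 2 ^ d.sg) -
      2 ^ ⌊N.w1 * J⌋₊ * (px c (ptr F J ω) (2 + 1) / 2 ^ d.sg)| ≤ d.h0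
    rw [← mul_sub, ← sub_div, abs_mul, abs_of_pos p1, abs_div,
      abs_of_pos (by positivity : (0 : ℝ) < 2 ^ d.sg)]
    have h1 : |F.x ω (c 2) - px c (ptr F J ω) (2 + 1)| / 2 ^ d.sg ≤ 1 / 2 ^ J := by
      rw [div_le_iff₀ (by positivity)]
      refine (hx 2).trans ?_
      have : (1 : ℝ) ≤ 2 ^ d.sg := one_le_pow₀ one_le_two
      exact le_mul_of_one_le_right (by positivity) this
    calc _ ≤ 2 ^ ⌊N.w1 * J⌋₊ * (1 / 2 ^ J) := mul_le_mul_of_nonneg_left h1 p1.le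
      _ = 2 ^ ⌊N.w1 * J⌋₊ / 2 ^ J := by ring
      _ ≤ T := hT
      _ ≤ _ := hTh
  | some i =>
    show |2 ^ ⌊N.w1 * J⌋₊ * (if i.val = 0 then F.t ω else F.x ω (c (i.val - 1))) -
      2 ^ ⌊N.w1 * J⌋₊ * px c (ptr F J ω) i.val| ≤ d.h0
    rw [← mul_sub, abs_mul, abs_of_pos p1]
    have h1 : |(if i.val = 0 then F.t ω else F.x ω (c (i.val - 1))) - px c (ptr F J ω) i.val| ≤
        1 / 2 ^ J := by
      split_ifs with h0
      · rw [h0, px_t, sub_self, abs_zero]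
        positivity
      · obtain ⟨j, hj⟩ : ∃ j, i.val = j + 1 := ⟨i.val - 1, by omega⟩
        rw [hj, Nat.add_sub_cancel]
        exact hx j
    calc _ ≤ 2 ^ ⌊N.w1 * J⌋₊ * (1 / 2 ^ J) := mul_le_mul_of_nonneg_left h1 p1.le
      _ = 2 ^ ⌊N.w1 * J⌋₊ / 2 ^ J := by ring
      _ ≤ T := hT
      _ ≤ _ := hTh

end Dat

end Pool.PLN
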