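import Pool.Agent.H81.JM.Vel
import Pool.Agent.H86.EXT.Gfn
import Pool.Agent.H37.CLO.Ps
import Pool.Agent.H1.PLN.Pur

/-!
# A polynomial on a leaf, in relative coordinates about a line

`relm`: relative coordinates about a line. `rph`: the polynomial `F` on the leaf `G` in these
coordinates. Its coefficients are `slp`, polynomials in the relative time: `Ev_slp`.
`pol_a`: the coefficients are bounded. `pol_c`: the values on the lines through one point.
`pol_d`: at a typical time every coefficient dominates.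
-/

set_option autoImplicit false

namespace Pool.PLN

open Finset Real Pool.JMN Pool.JMS
open Pool.Agent.H49.Ent Pool.Agent.H32.Dense Pool.STK Pool.KAF Pool.KAL Pool.KS3 Pool.M3F
open Pool.IEN Pool.EXS

variable {k : ℕ}

/-! ### Relative coordinates -/

/-- The point with the relative coordinates `x`: `x 0` is the time. -/
def rpt (la lb : Fin (k + 1) → ℝ) (μ : Fin k → Fin (k + 1) → ℝ) (x : Fin (k + 1) → ℝ) :
    Fin (k + 1) → ℝ := fun l => la l + x 0 * lb l + ∑ j, x j.succ * μ j l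

/-- Relative coordinates about the line `la + s lb`; `μ j` are the directions. -/
noncomputable def relm (la lb : Fin (k + 1) → ℝ) (μ : Fin k → Fin (k + 1) → ℝ) :
    Fin (k + 1) → MvPolynomial (Fin (k + 1)) ℝ :=
  fun l => MvPolynomial.C (la l) + MvPolynomial.X 0 * MvPolynomial.C (lb l) +
    ∑ j : Fin k, MvPolynomial.X j.succ * MvPolynomial.C (μ j l)

theorem eval_relm (la lb : Fin (k + 1) → ℝ) (μ : Fin k → Fin (k + 1) → ℝ)
    (x : Fin (k + 1) → ℝ) (l : Fin (k + 1)) :
    MvPolynomial.eval x (relm la lb μ l) = rpt la lb μ x l := by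
  unfold relm rpt
  rw [map_add, map_add, map_mul, map_sum, MvPolynomial.eval_C, MvPolynomial.eval_C,
    MvPolynomial.eval_X]
  congr 1
  refine Finset.sum_congr rfl fun j _ => ?_
  rw [map_mul, MvPolynomial.eval_X, MvPolynomial.eval_C]

theorem relm_deg (la lb : Fin (k + 1) → ℝ) (μ : Fin k → Fin (k + 1) → ℝ) (l : Fin (k + 1)) :
    (relm la lb μ l).totalDegree ≤ 1 := by
  have h1 : ∀ (i : Fin (k + 1)) (a : ℝ),
      (MvPolynomial.X i * MvPolynomial.C a : MvPolynomial (Fin (k + 1)) ℝ).totalDegree ≤ 1 := by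
    intro i a
    refine (MvPolynomial.totalDegree_mul _ _).trans ?_
    rw [MvPolynomial.totalDegree_X, MvPolynomial.totalDegree_C]
  unfold relm
  refine (MvPolynomial.totalDegree_add _ _).trans (max_le
    ((MvPolynomial.totalDegree_add _ _).trans (max_le ?_ (h1 _ _))) ?_)
  · rw [MvPolynomial.totalDegree_C]
    exact Nat.zero_le _
  · exact MvPolynomial.totalDegree_finsetSum_le fun j _ => h1 _ _

/-- The polynomial `F` on the leaf `G` in relative coordinates. -/
noncomputable def rph (F : MvPolynomial (Option (Fin (k + 1))) ℝ)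
    (G : MvPolynomial (Fin (k + 1)) ℝ) (la lb : Fin (k + 1) → ℝ)
    (μ : Fin k → Fin (k + 1) → ℝ) : MvPolynomial (Fin (k + 1)) ℝ :=
  MvPolynomial.bind₁ (fun o : Option (Fin (k + 1)) =>
    o.elim (MvPolynomial.bind₁ (relm la lb μ) G) (relm la lb μ)) F

theorem eval_rph (F : MvPolynomial (Option (Fin (k + 1))) ℝ)
    (G : MvPolynomial (Fin (k + 1)) ℝ) (la lb : Fin (k + 1) → ℝ)
    (μ : Fin k → Fin (k + 1) → ℝ) (x : Fin (k + 1) → ℝ) :
    MvPolynomial.eval x (rph F G la lb μ) = MvPolynomial.eval (lpt G (rpt la lb μ x)) F := by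
  unfold rph
  rw [eval_bind]
  have h0 : cpt (relm la lb μ) x = rpt la lb μ x := funext fun l => eval_relm la lb μ x l
  have h1 : cpt (fun o : Option (Fin (k + 1)) =>
      o.elim (MvPolynomial.bind₁ (relm la lb μ) G) (relm la lb μ)) x =
      lpt G (rpt la lb μ x) := by
    funext o
    cases o with
    | none =>
      show MvPolynomial.eval x (MvPolynomial.bind₁ (relm la lb μ) G) =
        MvPolynomial.eval (rpt la lb μ x) G
      rw [eval_bind, h0]
    | some l => exact eval_relm la lb μ x l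
  rw [h1]

theorem rph_deg {F : MvPolynomial (Option (Fin (k + 1))) ℝ} {G : MvPolynomial (Fin (k + 1)) ℝ}
    {la lb : Fin (k + 1) → ℝ} {μ : Fin k → Fin (k + 1) → ℝ} {D K₀ : ℕ}
    (hF : F.totalDegree ≤ D) (hG : G.totalDegree ≤ K₀) :
    (rph F G la lb μ).totalDegree ≤ (K₀ + 1) * D := by
  unfold rph
  refine (SML.totalDegree_bind_le _ (K₀ + 1) (fun o => ?_) F).trans (Nat.mul_le_mul_left _ hF)
  cases o with
  | none =>
    refine (SML.totalDegree_bind_le _ 1 (fun l => relm_deg la lb μ l) G).trans ?_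
    rw [one_mul]
    exact hG.trans (Nat.le_succ _)
  | some l => exact (relm_deg la lb μ l).trans (by omega)

/-- A line with the relative velocities `e` through the point at the time `s`. -/
theorem rpt_line {la lb la' lb' : Fin (k + 1) → ℝ} {μ : Fin k → Fin (k + 1) → ℝ} {s : ℝ}
    {e : Fin k → ℝ} (h0 : ∀ l, la' l + s * lb' l = la l + s * lb l)
    (h1 : ∀ l, lb' l = lb l + ∑ j, e j * μ j l) (x : ℝ) :
    rpt la lb μ (Fin.cons x (fun j => e j * (x - s)) : Fin (k + 1) → ℝ) =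
      fun l => la' l + x * lb' l := by
  funext l
  unfold rpt
  rw [Fin.cons_zero]
  have h2 : ∑ j : Fin k, (Fin.cons x (fun j => e j * (x - s)) : Fin (k + 1) → ℝ) j.succ * μ j l =
      (x - s) * ∑ j, e j * μ j l := by
    rw [Finset.mul_sum]
    refine Finset.sum_congr rfl fun j _ => ?_
    rw [Fin.cons_succ]
    ring
  rw [h2]
  linear_combination (-1) * h0 l - (x - s) * h1 l

/-! ### The coefficients -/

/-- The value of a slice of a polynomial of the plane. -/
theorem Ev_slp {K : ℕ} {f : MvPolynomial (Fin (2 + 1)) ℝ} (hf : f.totalDegree ≤ K)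
    (s η ζ : ℝ) :
    Ev (slp K f) s η ζ = MvPolynomial.eval (Fin.cons s ![η, ζ] : Fin (2 + 1) → ℝ) f := by
  rw [← ev_slp hf]
  unfold Ev JMN.ev
  refine Finset.sum_congr rfl fun a _ => ?_
  rw [Fin.prod_univ_two]
  rfl

/-- **(a)** The coefficients are bounded. -/
theorem pol_a (k K : ℕ) : ∃ C : ℝ, 1 ≤ C ∧ ∀ (f : MvPolynomial (Fin (k + 1)) ℝ)
    (s₀ lam B : ℝ), f.totalDegree ≤ K → 0 < lam →
    (∀ (x : ℝ) (ζ : Fin k → ℝ), |x - s₀| ≤ lam → (∀ i, 0 ≤ ζ i ∧ ζ i ≤ lam) →
      |MvPolynomial.eval (Fin.cons x ζ : Fin (k + 1) → ℝ) f| ≤ B) →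
    ∀ (a : Fin k → Fin (K + 1)) (x : ℝ), |x - s₀| ≤ lam →
      |(slp K f a).eval x| * lam ^ tdg a ≤ C * B := by
  obtain ⟨C, hC, hco⟩ := coef_le k K
  refine ⟨C, hC, ?_⟩
  intro f s₀ lam B hf hlam hB a x hx
  refine hco (fun b => (slp K f b).eval x) lam B hlam (fun ζ hζ => ?_) a
  rw [ev_slp hf]
  exact hB x ζ hx hζ

/-- **(c)** The value on a line close to the leaf. -/
theorem pol_c (k D : ℕ) : ∃ C : ℝ, 1 ≤ C ∧ ∀ (F : MvPolynomial (Option (Fin (k + 1))) ℝ)
    (G : MvPolynomial (Fin (k + 1)) ℝ) (z : Option (Fin (k + 1)) → ℝ) (s s₀ : ℝ),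
    F.totalDegree ≤ D → 0 < s → s ≤ s₀ → |z none - MvPolynomial.eval (bse z) G| ≤ s →
    |MvPolynomial.eval (lpt G (bse z)) F| ≤
      |MvPolynomial.eval z F| + C * (s / s₀) * Psi F s₀ z := by
  obtain ⟨C₂, hC₂, hvar⟩ := Pool.IEN.sp_var D
  have hp2 : (1 : ℝ) ≤ 2 ^ D := one_le_pow₀ one_le_two
  refine ⟨C₂ * 2 ^ D, one_le_mul_of_one_le_of_one_le hC₂ hp2, ?_⟩
  intro F G z s s₀ hF hs hss hz
  have hs₀ : 0 < s₀ := hs.trans_le hss
  have hΨ : 0 ≤ Psi F s₀ z := Psi_nonneg _ _ _
  set v : ℝ := MvPolynomial.eval (bse z) G - z none with hv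
  have hvs : |v| ≤ s := by
    rw [hv, abs_sub_comm]
    exact hz
  obtain ⟨B, hB⟩ : ∃ B : Option (Fin (k + 1)) → ℝ,
      B = fun o => o.elim ((s₀ / s) * v) (fun _ => 0) := ⟨_, rfl⟩
  obtain ⟨q, hqd, hq⟩ := exists_line F z B
  have hBs : ∀ o, |B o| ≤ s₀ := by
    intro o
    rw [hB]
    cases o with
    | none =>
      show |(s₀ / s) * v| ≤ s₀
      rw [abs_mul, abs_of_pos (by positivity : 0 < s₀ / s)]
      calc s₀ / s * |v| ≤ s₀ / s * s := mul_le_mul_of_nonneg_left hvs (by positivity)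
        _ = s₀ := by field_simp
    | some l =>
      show |(0 : ℝ)| ≤ s₀
      rw [abs_zero]
      exact hs₀.le
  have hsp : Pool.IEN.sp q ≤ 2 ^ D * Psi F s₀ z := by
    refine Pool.IEN.sp_le q (by positivity) fun t ht => ?_
    rw [← hq t]
    refine (abs_eval_le_Psi_of_near F s₀ hs₀.le z _ fun i => ?_).trans ?_
    · rw [add_sub_cancel_left, abs_mul, abs_of_nonneg ht.1]
      calc t * |B i| ≤ 1 * s₀ := mul_le_mul ht.2 (hBs i) (abs_nonneg _) zero_le_one
        _ = s₀ := one_mul _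
    · nlinarith
  have h0 : s / s₀ ≤ 1 := by
    rw [div_le_one hs₀]
    exact hss
  have h00 : 0 ≤ s / s₀ := by positivity
  have h2 := hvar q (hqd.trans hF) 0 ⟨le_rfl, zero_le_one⟩ (s / s₀) ⟨h00, h0⟩
  rw [← hq, ← hq, sub_zero, abs_of_nonneg h00] at h2
  have e1 : (fun o => z o + s / s₀ * B o) = lpt G (bse z) := by
    funext o
    rw [hB]
    cases o with
    | none =>
      show z none + s / s₀ * ((s₀ / s) * v) = MvPolynomial.eval (bse z) G
      have h3 : s / s₀ * ((s₀ / s) * v) = v := by field_simp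
      rw [h3, hv]
      ring
    | some l =>
      show z (some l) + s / s₀ * 0 = bse z l
      rw [mul_zero, add_zero]
      rfl
  have e2 : (fun o => z o + 0 * B o) = z := by
    funext o
    ring
  rw [e1, e2] at h2
  have h3 : C₂ * (s / s₀) * Pool.IEN.sp q ≤ C₂ * 2 ^ D * (s / s₀) * Psi F s₀ z := by
    calc C₂ * (s / s₀) * Pool.IEN.sp q ≤ C₂ * (s / s₀) * (2 ^ D * Psi F s₀ z) :=
          mul_le_mul_of_nonneg_left hsp (mul_nonneg (by linarith) h00)
      _ = _ := by ring
  have h4 := abs_sub_abs_le_abs_sub (MvPolynomial.eval (lpt G (bse z)) F)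
    (MvPolynomial.eval z F)
  rw [abs_sub_comm] at h2
  rw [abs_sub_comm (MvPolynomial.eval z F)] at h2
  linarith

/-- The coefficients dominate at the time `s₀`. -/
def Dmt (K : ℕ) (H lam : ℝ) (f : MvPolynomial (Fin (k + 1)) ℝ) (s₀ : ℝ) : Prop :=
  ∀ (a : Fin k → Fin (K + 1)) (x : ℝ), |x - s₀| ≤ lam →
    |(slp K f a).eval x| ≤ H * |(slp K f a).eval s₀|

theorem Dmt.mono {K : ℕ} {H lam lam' : ℝ} {f : MvPolynomial (Fin (k + 1)) ℝ} {s₀ : ℝ}
    (h : Dmt K H lam f s₀) (hl : lam' ≤ lam) : Dmt K H lam' f s₀ :=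
  fun a x hx => h a x (hx.trans hl)

/-- **(d)** At a typical time every coefficient dominates. The time is `u + wd * (T / M)`. -/
theorem pol_d (k K : ℕ) : ∃ C : ℝ, 1 ≤ C ∧
    ∀ (V Γ : Type) [Fintype V] (r : V → ℝ) (c : V → Γ) (T : V → ℕ) (M : ℕ)
      (f : Γ → MvPolynomial (Fin (k + 1)) ℝ) (u wd : Γ → ℝ) (h : ℝ),
      IsLaw r → (∀ v, 0 < r v → T v < M) → (∀ v, 0 < r v → (f (c v)).totalDegree ≤ K) →
      (∀ v, 0 < r v → 0 < wd (c v)) → 0 < h → C * Real.exp h ≤ M →
      ms r (fun v => ¬ Dmt K (C * Real.exp h) (wd (c v)) (f (c v))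
        (u (c v) + wd (c v) * ((T v : ℝ) / M))) ≤ C * ((Real.log M - CH r T c) + 1) / h := by
  classical
  obtain ⟨C₁, hC₁, hgro⟩ := gro K
  obtain ⟨C₂, hC₂, htim⟩ := tim_ev K
  set n : ℕ := Fintype.card (Fin k → Fin (K + 1)) with hn
  refine ⟨2 * C₁ + C₂ + n * (2 * (K + 1) * C₂), ?_, ?_⟩
  · have : (0 : ℝ) ≤ n * (2 * (K + 1) * C₂) := by positivity
    linarith
  intro V Γ _ r c T M f u wd h hr hT hf hwd hh hM
  have hr0 := hr.nonneg
  have hexp := Real.exp_pos h
  have hn0 : (0 : ℝ) ≤ n * (2 * (K + 1) * C₂) := by positivity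
  have hM2 : C₂ * Real.exp h ≤ M := by
    refine le_trans (mul_le_mul_of_nonneg_right ?_ hexp.le) hM
    linarith
  have hM0 : (0 : ℝ) < M := lt_of_lt_of_le (by positivity) hM2
  obtain ⟨g, hg⟩ : ∃ g : (Fin k → Fin (K + 1)) → Γ → Polynomial ℝ, g = fun a γ =>
      (slp K (f γ) a).comp (Polynomial.C (u γ) + Polynomial.C (wd γ) * Polynomial.X) := ⟨_, rfl⟩
  have hgev : ∀ a γ (τ : ℝ), (g a γ).eval τ = (slp K (f γ) a).eval (u γ + wd γ * τ) := by
    intro a γ τ
    rw [hg]
    simp only [Polynomial.eval_comp, Polynomial.eval_add, Polynomial.eval_mul, Polynomial.eval_C,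
      Polynomial.eval_X]
  have hgd : ∀ a γ, (f γ).totalDegree ≤ K → (g a γ).natDegree ≤ K := by
    intro a γ h1
    rw [hg]
    refine Polynomial.natDegree_comp_le.trans ?_
    have h2 : (slp K (f γ) a).natDegree ≤ K := (slp_deg K (f γ) a).trans le_rfl
    have h3 : (Polynomial.C (u γ) + Polynomial.C (wd γ) * Polynomial.X : Polynomial ℝ).natDegree ≤
        1 := by
      refine (Polynomial.natDegree_add_le _ _).trans (max_le ?_ ?_)
      · rw [Polynomial.natDegree_C]
        exact Nat.zero_le _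
      · exact (Polynomial.natDegree_C_mul_le _ _).trans Polynomial.natDegree_X_le
    calc _ ≤ K * 1 := Nat.mul_le_mul h2 h3
      _ = K := mul_one _
  have hone : ∀ a : Fin k → Fin (K + 1), ms r (fun v => 0 < sp (g a (c v)) ∧
      |(g a (c v)).eval ((T v : ℝ) / M)| ≤ 1 / 2 * (Real.exp (-h) * sp (g a (c v)))) ≤
      2 * (K + 1) * ((Real.log M - CH r T c) + C₂) / h := by
    intro a
    have h1 := htim V Γ r c T M (g a) h hr hT (fun v hv => hgd a (c v) (hf v hv)) hh hM2
    refine le_trans (le_of_eq ?_) h1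
    exact ms_eq r _ _
  have hall := ms_ex hr0 (fun (a : Fin k → Fin (K + 1)) v => 0 < sp (g a (c v)) ∧
      |(g a (c v)).eval ((T v : ℝ) / M)| ≤ 1 / 2 * (Real.exp (-h) * sp (g a (c v)))) hone
  have hdef : 0 ≤ Real.log M - CH r T c := by
    have h1 := CH_le_H hr T c
    have h2 := H_le_log_card hr0 hr.sum_one T (Finset.range M)
      (fun v hv => Finset.mem_range.mpr (hT v hv))
    rw [Finset.card_range] at h2
    linarith
  refine (ms_le hr0 ?_).trans (hall.trans ?_)
  · intro v hv hnot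
    by_contra hcon
    push Not at hcon
    refine hnot ?_
    intro a x hx
    have hw := hwd v hv
    obtain ⟨τ, hτ⟩ : ∃ τ : ℝ, τ = (x - u (c v)) / wd (c v) := ⟨_, rfl⟩
    have hxτ : x = u (c v) + wd (c v) * τ := by
      rw [hτ]
      field_simp
      ring
    have ht : (T v : ℝ) / M ∈ Set.Icc (0 : ℝ) 1 := by
      refine ⟨by positivity, ?_⟩
      rw [div_le_one hM0]
      exact_mod_cast (hT v hv).le
    have hτ2 : |τ| ≤ 2 := by
      have h1 : wd (c v) * |τ - (T v : ℝ) / M| ≤ wd (c v) := by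
        rw [← abs_of_pos hw, ← abs_mul, abs_of_pos hw]
        refine le_trans (le_of_eq ?_) hx
        congr 1
        rw [hxτ]
        ring
      have h2 : |τ - (T v : ℝ) / M| ≤ 1 := by
        by_contra h3
        push Not at h3
        nlinarith
      rw [abs_le] at h2 ⊢
      constructor <;> linarith [h2.1, h2.2, ht.1, ht.2]
    have h1 := hgro (g a (c v)) (hgd a (c v) (hf v hv)) τ hτ2
    rw [hgev, ← hxτ] at h1
    refine h1.trans ?_
    rw [← hgev]
    have h2 : sp (g a (c v)) ≤ 2 * Real.exp h * |(g a (c v)).eval ((T v : ℝ) / M)| := by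
      rcases (sp_nonneg (g a (c v))).eq_or_lt with h0 | h0
      · rw [← h0]
        positivity
      · have h2 := hcon a h0
        have h3 : Real.exp h * Real.exp (-h) = 1 := by
          rw [← Real.exp_add, add_neg_cancel, Real.exp_zero]
        have h4 := mul_le_mul_of_nonneg_left h2.le (show 0 ≤ 2 * Real.exp h by positivity)
        calc sp (g a (c v)) =
              2 * Real.exp h * (1 / 2 * (Real.exp (-h) * sp (g a (c v)))) := by
              linear_combination (-(sp (g a (c v)))) * h3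
          _ ≤ _ := h4
    calc C₁ * sp (g a (c v)) ≤ C₁ * (2 * Real.exp h * |(g a (c v)).eval ((T v : ℝ) / M)|) :=
          mul_le_mul_of_nonneg_left h2 (by linarith)
      _ = 2 * C₁ * Real.exp h * |(g a (c v)).eval ((T v : ℝ) / M)| := by ring
      _ ≤ _ := by
          refine mul_le_mul_of_nonneg_right ?_ (abs_nonneg _)
          exact mul_le_mul_of_nonneg_right (by linarith) hexp.le
  · have h5 : (n : ℝ) * (2 * (K + 1) * ((Real.log M - CH r T c) + C₂) / h) =
        (n * (2 * (K + 1)) * ((Real.log M - CH r T c) + C₂)) / h := by ring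
    rw [← hn, h5]
    refine div_le_div_of_nonneg_right ?_ hh.le
    set δ : ℝ := Real.log M - CH r T c with hδ
    have h6 : (0 : ℝ) ≤ n * (2 * (K + 1)) := by positivity
    have h7 : δ + C₂ ≤ C₂ * (δ + 1) := by nlinarith
    calc (n : ℝ) * (2 * (K + 1)) * (δ + C₂) ≤ n * (2 * (K + 1)) * (C₂ * (δ + 1)) :=
          mul_le_mul_of_nonneg_left h7 h6
      _ = (n * (2 * (K + 1) * C₂)) * (δ + 1) := by ring
      _ ≤ _ := mul_le_mul_of_nonneg_right (by linarith) (by linarith)

end Pool.PLN
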