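import Pool.Agent.H1.PLN.Stm
import Pool.Agent.H81.PLN.Pol
import Pool.Agent.H81.PLN.Iid
import Pool.Agent.H37.S3.PRE

/-!
# Preliminaries: the variation of a polynomial, growth, the labels of a member on a segment
-/

set_option autoImplicit false

namespace Pool.PLN

open Finset Real MvPolynomial Pool.JMN Pool.JMS
open Pool.Agent.H49.Ent Pool.Agent.H32.Dense Pool.STK Pool.KAF Pool.KAL Pool.KS3 Pool.M3F
open Pool.IEN Pool.EXS

/-! ### Pure -/

/-- If the nonconstant jets are small, the polynomial is almost constant. -/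
theorem psi_var {σ : Type} (P : MvPolynomial σ ℝ) {h ε : ℝ} (hh : 0 < h) {x y : σ → ℝ}
    (hxy : ∀ i, |y i - x i| ≤ h) (hε : Psi P h x ≤ |eval x P| + ε) :
    |eval y P - eval x P| ≤ ε := by
  classical
  set S : MvPolynomial σ ℝ := shf P h x with hS
  have e0 : coeff 0 S = eval x P := by
    have h1 := eval_shf P h x (fun _ => 0)
    have h2 : (fun i => x i + h * 0) = x := by
      funext i
      ring
    rw [h2, ← hS] at h1
    rw [← h1]
    have h3 : (fun _ : σ => (0 : ℝ)) = 0 := rfl
    rw [h3, MvPolynomial.eval_zero]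
    rfl
  set R : MvPolynomial σ ℝ := S - C (coeff 0 S) with hR
  have h1 : coefSum R ≤ coefSum S - |coeff 0 S| := by
    have hsub : R.support ⊆ S.support \ {0} := by
      intro α hα
      have hα' := mem_support_iff.1 hα
      rw [hR, coeff_sub, coeff_C] at hα'
      rw [Finset.mem_sdiff, Finset.mem_singleton, mem_support_iff]
      by_cases h0 : α = 0
      · subst h0
        rw [if_pos rfl, sub_self] at hα'
        exact absurd rfl hα'
      · rw [if_neg (Ne.symm h0), sub_zero] at hα'
        exact ⟨hα', h0⟩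
    rw [coefSum_eq_of_subset R _ hsub]
    have h2 : ∑ α ∈ S.support \ {0}, |coeff α R| = ∑ α ∈ S.support \ {0}, |coeff α S| := by
      refine Finset.sum_congr rfl fun α hα => ?_
      have h0 : α ≠ 0 := fun h => (Finset.mem_sdiff.1 hα).2 (Finset.mem_singleton.2 h)
      rw [hR, coeff_sub, coeff_C, if_neg (Ne.symm h0), sub_zero]
    rw [h2]
    have h3 := coefSum_le_of_subset S ((S.support \ {0}) ∪ {0})
    rw [Finset.sum_union (by
      rw [Finset.disjoint_singleton_right, Finset.mem_sdiff, Finset.mem_singleton]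
      exact fun h => h.2 rfl), Finset.sum_singleton] at h3
    linarith
  have h2 := abs_eval_le_coefSum R (fun i => (y i - x i) / h) (by
    intro i
    rw [abs_div, abs_of_pos hh, div_le_one hh]
    exact hxy i)
  have h3 : eval (fun i => (y i - x i) / h) S = eval y P := by
    rw [hS, eval_shf]
    congr 2
    funext i
    field_simp
    ring
  have h5 : eval (fun i => (y i - x i) / h) R = eval y P - eval x P := by
    rw [hR, map_sub, eval_C, h3, e0]
  rw [h5] at h2
  have h4 : coefSum S = Psi P h x := rfl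
  rw [h4, e0] at h1
  linarith

/-- Growth outside of the unit interval. -/
theorem gro_pow (D : ℕ) : ∃ C : ℝ, 1 ≤ C ∧ ∀ (g : Polynomial ℝ) (R τ B : ℝ), g.natDegree ≤ D →
    1 ≤ R → |τ| ≤ R → (∀ x ∈ Set.Icc (0 : ℝ) 1, |g.eval x| ≤ B) → |g.eval τ| ≤ C * R ^ D * B := by
  classical
  obtain ⟨C, hC, H⟩ := coef_le 1 D
  have hD0 : (0 : ℝ) ≤ D := Nat.cast_nonneg D
  refine ⟨((D : ℝ) + 1) * C, ?_, ?_⟩
  · nlinarith
  intro g R τ B hg hR hτ hB
  have hB0 : 0 ≤ B := (abs_nonneg _).trans (hB 0 ⟨le_rfl, zero_le_one⟩)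
  have hev : ∀ x : Fin 1 → ℝ, JMN.ev (fun a : Fin 1 → Fin (D + 1) => g.coeff (a 0)) x =
      g.eval (x 0) := by
    intro x
    unfold JMN.ev
    rw [Polynomial.eval_eq_sum_range' (Nat.lt_succ_of_le hg)]
    rw [← Fin.sum_univ_eq_sum_range (fun i => g.coeff i * x 0 ^ i) (D + 1)]
    refine Fintype.sum_equiv (Equiv.funUnique (Fin 1) (Fin (D + 1))) _ _ fun a => ?_
    rw [Fin.prod_univ_one]
    rfl
  have h1 := H (fun a : Fin 1 → Fin (D + 1) => g.coeff (a 0)) 1 B one_pos (by
    intro x hx
    rw [hev]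
    exact hB _ ⟨(hx 0).1, (hx 0).2⟩)
  have h2 := ev_le (q := fun a : Fin 1 → Fin (D + 1) => g.coeff (a 0)) (ρ := R)
    (m := R ^ D * (C * B)) (fun a => by
      have h3 := h1 a
      rw [one_pow, mul_one] at h3
      have h4 : R ^ tdg a ≤ R ^ D := pow_le_pow_right₀ hR (by
        have := tdg_le a
        rwa [one_mul] at this)
      have h5 : (0 : ℝ) ≤ R ^ tdg a := by positivity
      calc _ ≤ (C * B) * R ^ tdg a := mul_le_mul_of_nonneg_right h3 h5
        _ ≤ (C * B) * R ^ D := mul_le_mul_of_nonneg_left h4 (by positivity)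
        _ = _ := mul_comm _ _) (x := fun _ => τ) (fun _ => hτ)
  rw [hev] at h2
  calc _ ≤ _ := h2
    _ = _ := by ring

/-- Growth outside of an interval around `t₀`. -/
theorem gro_int (D : ℕ) : ∃ C : ℝ, 1 ≤ C ∧ ∀ (g : Polynomial ℝ) (t₀ r R t B : ℝ),
    g.natDegree ≤ D → 0 < r → r ≤ R → |t - t₀| ≤ R → (∀ x, |x - t₀| ≤ r → |g.eval x| ≤ B) →
    |g.eval t| ≤ C * (R / r) ^ D * B := by
  obtain ⟨C, hC, h⟩ := gro_pow D
  refine ⟨C, hC, ?_⟩
  intro g t₀ r R t B hg hr hrR ht hB
  have h1 := h (g.comp (Polynomial.C t₀ + Polynomial.C r * Polynomial.X)) (R / r)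
    ((t - t₀) / r) B ?_ ?_ ?_ ?_
  · rw [Polynomial.eval_comp] at h1
    simp only [Polynomial.eval_add, Polynomial.eval_C, Polynomial.eval_mul,
      Polynomial.eval_X] at h1
    have e1 : t₀ + r * ((t - t₀) / r) = t := by
      field_simp
      ring
    rwa [e1] at h1
  · refine Polynomial.natDegree_comp_le.trans ?_
    have h3 : (Polynomial.C t₀ + Polynomial.C r * Polynomial.X : Polynomial ℝ).natDegree ≤ 1 := by
      refine (Polynomial.natDegree_add_le _ _).trans (max_le ?_ ?_)
      · rw [Polynomial.natDegree_C]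
        exact Nat.zero_le _
      · exact (Polynomial.natDegree_C_mul_le _ _).trans Polynomial.natDegree_X_le
    calc _ ≤ D * 1 := Nat.mul_le_mul hg h3
      _ = D := mul_one _
  · rw [le_div_iff₀ hr, one_mul]
    exact hrR
  · rw [abs_div, abs_of_pos hr]
    exact div_le_div_of_nonneg_right ht hr.le
  · intro x hx
    rw [Polynomial.eval_comp]
    simp only [Polynomial.eval_add, Polynomial.eval_C, Polynomial.eval_mul, Polynomial.eval_X]
    refine hB _ ?_
    rw [add_sub_cancel_left, abs_mul, abs_of_pos hr, abs_of_nonneg hx.1]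
    calc r * x ≤ r * 1 := mul_le_mul_of_nonneg_left hx.2 hr.le
      _ = r := mul_one r

/-- Mean value inequality on a segment. -/
theorem mv_sg {d : ℕ} (P : MvPolynomial (Fin d) ℝ) (b : Fin d → ℝ) {u u' : Fin d → ℝ}
    (h : ∀ t ∈ Set.Icc (0 : ℝ) 1, ∀ i,
      |eval (fun i => u i + t * (u' i - u i)) (pderiv i P)| ≤ b i) :
    |eval u' P - eval u P| ≤ ∑ i, b i * |u' i - u i| := by
  set f : Fin d → Polynomial ℝ := fun i =>
    Polynomial.C (u i) + Polynomial.X * Polynomial.C (u' i - u i) with hf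
  set g : Polynomial ℝ := MvPolynomial.aeval f P with hg
  have hev : ∀ (P : MvPolynomial (Fin d) ℝ) (t : ℝ),
      (MvPolynomial.aeval f P : Polynomial ℝ).eval t =
        MvPolynomial.eval (fun i => u i + t * (u' i - u i)) P := by
    intro P t
    induction P using MvPolynomial.induction_on with
    | C a => simp
    | add p q hp hq => simp only [map_add, Polynomial.eval_add, hp, hq]
    | mul_X p k hp =>
      rw [map_mul, map_mul, Polynomial.eval_mul, hp]
      simp [hf]
  obtain ⟨c, hc, hc'⟩ := exists_hasDerivAt_eq_slope (fun t => g.eval t)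
    (fun t => g.derivative.eval t) (show (0 : ℝ) < 1 by norm_num) g.continuous.continuousOn
    (fun t _ => g.hasDerivAt t)
  have e0 : g.eval 0 = MvPolynomial.eval u P := by
    rw [hg, hev]
    have : (fun i => u i + 0 * (u' i - u i)) = u := by
      funext i
      ring
    rw [this]
  have e1 : g.eval 1 = MvPolynomial.eval u' P := by
    rw [hg, hev]
    have : (fun i => u i + 1 * (u' i - u i)) = u' := by
      funext i
      ring
    rw [this]
  have hc2 : MvPolynomial.eval u' P - MvPolynomial.eval u P = g.derivative.eval c := by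
    rw [hc', ← e0, ← e1]
    simp
  rw [hc2, hg, der_line, Polynomial.eval_finsetSum]
  refine (Finset.abs_sum_le_sum_abs _ _).trans (Finset.sum_le_sum fun i _ => ?_)
  rw [Polynomial.eval_mul, abs_mul, hev]
  have e2 : (Polynomial.derivative (f i)).eval c = u' i - u i := by
    simp [hf]
  rw [e2]
  exact mul_le_mul_of_nonneg_right (h c ⟨hc.1.le, hc.2.le⟩ i) (abs_nonneg _)

end Pool.PLN
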